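import Pool.Agent.Work.MP_0d108e_h29.Interface
import Pool.Agent.Work.MP_0b7501_nt.BT

/-!
# MP_0d108e_nt, block CLS: upper bound sieve inside a residue class
-/

namespace Pool.SieveG

open Finset

/-- a natural number with prescribed residues modulo the primes `≤ R` -/
lemma cls_crt (R : ℕ) (b : ℕ → ℤ) :
    ∃ x : ℕ, ∀ q : ℕ, q.Prime → q ≤ R → (q : ℤ) ∣ (x : ℤ) - b q := by
  classical
  set t : Finset ℕ := (Finset.range (R + 1)).filter Nat.Prime with ht
  have hs : ∀ i ∈ t, (fun q : ℕ => q) i ≠ 0 := by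
    intro i hi
    rw [ht, Finset.mem_filter] at hi
    exact hi.2.ne_zero
  have pp : Set.Pairwise (↑t : Set ℕ) (Function.onFun Nat.Coprime (fun q : ℕ => q)) := by
    intro i hi j hj hij
    rw [Finset.mem_coe, ht, Finset.mem_filter] at hi hj
    exact (Nat.coprime_primes hi.2 hj.2).2 hij
  obtain ⟨k, hk⟩ := Nat.chineseRemainderOfFinset (fun q : ℕ => (b q % (q : ℤ)).toNat)
    (fun q : ℕ => q) t hs pp
  refine ⟨k, fun q hq hqR => ?_⟩
  have hqt : q ∈ t := by
    rw [ht, Finset.mem_filter, Finset.mem_range]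
    exact ⟨by omega, hq⟩
  have h1 := hk q hqt
  have hq0 : (q : ℤ) ≠ 0 := by exact_mod_cast hq.ne_zero
  have h2 : ((b q % (q : ℤ)).toNat : ℤ) = b q % (q : ℤ) := Int.toNat_of_nonneg (Int.emod_nonneg _ hq0)
  have h3 : (k : ℤ) ≡ ((b q % (q : ℤ)).toNat : ℤ) [ZMOD (q : ℤ)] := by
    exact (Int.natCast_modEq_iff).2 h1
  rw [h2] at h3
  have h4 : (k : ℤ) ≡ b q [ZMOD (q : ℤ)] := h3.trans (Int.mod_modEq _ _)
  exact (Int.modEq_iff_dvd.1 h4.symm)

theorem p_CLS : T_CLS := by
  classical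
  intro a p c r L R hp hR hRp hL
  have hp0 : (0 : ℤ) < (p : ℤ) := by exact_mod_cast hp.pos
  have hpR : (0 : ℝ) < (p : ℝ) := by exact_mod_cast hp.pos
  -- the first element of the class
  set n0 : ℤ := c + (r - c) % (p : ℤ) with hn0
  -- inverses of `p`
  have hinv : ∀ q : ℕ, ∃ u : ℤ, q.Prime → q ≤ R → (q : ℤ) ∣ (p : ℤ) * u - 1 := by
    intro q
    by_cases hq : q.Prime ∧ q ≤ R
    · have hcop : Nat.Coprime p q := by
        rw [Nat.coprime_primes hp hq.1]
        omega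
      have hic : IsCoprime (p : ℤ) (q : ℤ) := Nat.isCoprime_iff_coprime.2 hcop
      obtain ⟨u, v, huv⟩ := hic
      refine ⟨u, fun _ _ => ⟨-v, ?_⟩⟩
      linear_combination huv
    · exact ⟨0, fun h1 h2 => absurd ⟨h1, h2⟩ hq⟩
  choose u hu using hinv
  obtain ⟨x, hx⟩ := cls_crt R (fun q => (n0 - a q) * u q - 1)
  set h : ℕ := ⌊L / p⌋₊ + 1 with hh
  have hLp : 0 ≤ L / p := div_nonneg hL hpR.le
  have key : ((Finset.Icc c (c + ⌊L⌋)).filter (fun n => (p : ℤ) ∣ n - r ∧
      ∀ q : ℕ, q.Prime → q ≤ R → ¬ ((q : ℤ) ∣ n - a q))).card ≤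
      ((Finset.Icc 1 h).filter (fun m => ∀ q, 0 < q → q ≤ R → Nat.Coprime q (x + m))).card := by
    -- each counted `n` is `n0 + p * ((n - c) / p)`
    have hrep : ∀ n : ℤ, (p : ℤ) ∣ n - r → n = n0 + p * ((n - c) / p) := by
      intro n hn
      have h1 : (n - c) % (p : ℤ) = (r - c) % (p : ℤ) := by
        apply Int.emod_emod_of_dvd _ (dvd_refl _) |>.symm.trans
        apply (Int.emod_emod_of_dvd _ (dvd_refl _)).trans
        apply Int.emod_eq_emod_iff_emod_sub_eq_zero.2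
        apply Int.emod_eq_zero_of_dvd
        have : n - c - (r - c) = n - r := by ring
        rw [this]
        exact hn
      have h2 := Int.emod_add_mul_ediv (n - c) (p : ℤ)
      rw [hn0, ← h1]
      linarith
    apply Finset.card_le_card_of_injOn (fun n => ((n - c) / (p : ℤ)).toNat + 1)
    · intro n hn
      rw [Finset.mem_coe, Finset.mem_filter, Finset.mem_Icc] at hn
      obtain ⟨⟨hn1, hn2⟩, hn3, hn4⟩ := hn
      have hm0 : 0 ≤ (n - c) / (p : ℤ) := Int.ediv_nonneg (by linarith) hp0.le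
      have hmz : ((((n - c) / (p : ℤ)).toNat : ℕ) : ℤ) = (n - c) / (p : ℤ) := Int.toNat_of_nonneg hm0
      rw [Finset.mem_coe, Finset.mem_filter, Finset.mem_Icc]
      refine ⟨⟨Nat.succ_le_succ (Nat.zero_le _), ?_⟩, ?_⟩
      · rw [hh]
        apply Nat.succ_le_succ
        apply Nat.le_floor
        rw [le_div_iff₀ hpR]
        have h1 : ((n - c) / (p : ℤ)) * (p : ℤ) ≤ n - c := Int.ediv_mul_le _ hp0.ne'
        have h2 : ((n - c) / (p : ℤ)) * (p : ℤ) ≤ ⌊L⌋ := by linarith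
        have h3 : ((((n - c) / (p : ℤ)) * (p : ℤ) : ℤ) : ℝ) ≤ L := Int.le_floor.1 h2
        rw [← hmz] at h3
        push_cast at h3
        exact_mod_cast h3
      · intro q hq0 hqR
        by_contra hnc
        obtain ⟨l, hl, hlq, hlx⟩ := Nat.Prime.not_coprime_iff_dvd.1 hnc
        have hlR : l ≤ R := (Nat.le_of_dvd hq0 hlq).trans hqR
        apply hn4 l hl hlR
        have h5 := hx l hl hlR
        have h6 := hu l hl hlR
        have h7 : (l : ℤ) ∣ (x : ℤ) + (((((n - c) / (p : ℤ)).toNat : ℕ) : ℤ) + 1) := by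
          exact_mod_cast hlx
        rw [hmz] at h7
        have h8 := hrep n hn3
        obtain ⟨e5, he5⟩ := h5
        obtain ⟨e6, he6⟩ := h6
        obtain ⟨e7, he7⟩ := h7
        refine ⟨p * e7 - p * e5 - (n0 - a l) * e6, ?_⟩
        linear_combination h8 + (p : ℤ) * he7 - (p : ℤ) * he5 - (n0 - a l) * he6
    · intro n hn n' hn' heq
      rw [Finset.mem_coe, Finset.mem_filter, Finset.mem_Icc] at hn hn'
      obtain ⟨⟨hn1, hn2⟩, hn3, hn4⟩ := hn
      obtain ⟨⟨hn1', hn2'⟩, hn3', hn4'⟩ := hn'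
      have hm0 : 0 ≤ (n - c) / (p : ℤ) := Int.ediv_nonneg (by linarith) hp0.le
      have hm0' : 0 ≤ (n' - c) / (p : ℤ) := Int.ediv_nonneg (by linarith) hp0.le
      have h9 : (n - c) / (p : ℤ) = (n' - c) / (p : ℤ) := by
        simp only at heq
        omega
      rw [hrep n hn3, hrep n' hn3', h9]
  have hsb := Pool.Agent.Work.MP_0b7501_nt.sieve_bound x h R hR
  have hlog : 0 ≤ Real.log (R + 1) / 2 := by
    apply div_nonneg _ (by norm_num)
    apply Real.log_nonneg
    have : (0 : ℝ) ≤ R := Nat.cast_nonneg R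
    linarith
  have hmax : (((max h (R ^ 2) : ℕ)) : ℝ) ≤ max (L / p + 1) ((R : ℝ) ^ 2) := by
    rw [Nat.cast_max]
    apply max_le_max
    · rw [hh]
      push_cast
      have := Nat.floor_le hLp
      linarith
    · push_cast
      exact le_rfl
  calc _ ≤ (((Finset.Icc 1 h).filter
        (fun m => ∀ q, 0 < q → q ≤ R → Nat.Coprime q (x + m))).card : ℝ) *
          (Real.log (R + 1) / 2) := by
        apply mul_le_mul_of_nonneg_right _ hlog
        exact_mod_cast key
    _ ≤ 16 * (max h (R ^ 2) : ℕ) := by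
        convert hsb using 2
    _ ≤ _ := by
        apply mul_le_mul_of_nonneg_left hmax (by norm_num)

end Pool.SieveG
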