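import Pool.Agent.Work.MP_0d108e_h29.Interface4

/-!
# Block DBL: doubling
-/

set_option autoImplicit false

namespace Pool.SieveG

open Filter Topology

theorem DBL.W_le {y : ℝ} (hy : 0 ≤ y) : (W y : ℝ) ≤ y + 1 := by
  classical
  have h1 : W y ≤ cnt (fun _ => 0) (lev y) 0 ⌊y⌋ := Nat.sInf_le ⟨_, rfl⟩
  have h2 : cnt (fun _ => 0) (lev y) 0 ⌊y⌋ ≤ (Finset.Icc (0 : ℤ) ⌊y⌋).card := by
    unfold cnt
    exact Finset.card_filter_le _ _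
  rw [Int.card_Icc, sub_zero] at h2
  have h3 : (0 : ℤ) ≤ ⌊y⌋ + 1 := by
    have := Int.floor_nonneg.2 hy
    omega
  have h4 : ((⌊y⌋ + 1).toNat : ℤ) = ⌊y⌋ + 1 := Int.toNat_of_nonneg h3
  have h5 : (W y : ℤ) ≤ ⌊y⌋ + 1 := by
    rw [← h4]
    exact_mod_cast h1.trans h2
  have h6 : (W y : ℝ) ≤ (⌊y⌋ : ℝ) + 1 := by exact_mod_cast h5
  have h7 := Int.floor_le y
  linarith

theorem p_DBL (h : T_SUP) : T_DBL := by
  refine ⟨fun i => ?_, ?_⟩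
  · have h2 : (1 : ℝ) ≤ 2 ^ i := one_le_pow₀ (by norm_num)
    have hW := DBL.W_le (y := (2 : ℝ) ^ i) (by positivity)
    unfold rr
    refine ⟨by positivity, ?_⟩
    rw [div_le_iff₀ (by positivity)]
    have h3 : (W ((2 : ℝ) ^ i) : ℝ) ≤ 2 * 2 ^ i := by linarith
    calc (W ((2 : ℝ) ^ i) : ℝ) * (i : ℝ) ^ 2 ≤ 2 * 2 ^ i * (i : ℝ) ^ 2 :=
          mul_le_mul_of_nonneg_right h3 (by positivity)
      _ = 2 * (i : ℝ) ^ 2 * 2 ^ i := by ring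
  · obtain ⟨C, Y, hC, hY, hS⟩ := h 1 le_rfl
    obtain ⟨i1, hi1⟩ := eventually_atTop.1
      ((tendsto_pow_atTop_atTop_of_one_lt (show (1 : ℝ) < 2 by norm_num)).eventually_ge_atTop Y)
    refine ⟨8 * C, by positivity, max i1 1, fun i hi => ?_⟩
    have hiY : Y ≤ (2 : ℝ) ^ i := hi1 i ((le_max_left _ _).trans hi)
    have hi0 : 1 ≤ i := (le_max_right _ _).trans hi
    have hiR : (1 : ℝ) ≤ i := by exact_mod_cast hi0
    have h1 := hS (2 ^ i) (2 ^ i) hiY hiY (by rw [one_mul]) (by rw [one_mul])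
    have h2 : (2 : ℝ) ^ i + 2 ^ i = 2 ^ (i + 1) := by ring
    rw [h2, Real.log_pow] at h1
    have hs : (0 : ℝ) < 2 ^ i := by positivity
    have hl : (1 : ℝ) / 2 ≤ Real.log 2 := by
      have := Real.log_two_gt_d9
      linarith
    have hl2 : ((i : ℝ) / 2) ^ 2 ≤ ((i : ℝ) * Real.log 2) ^ 2 := by
      refine pow_le_pow_left₀ (by positivity) ?_ 2
      nlinarith
    have h3 : C * 2 ^ i / ((i : ℝ) * Real.log 2) ^ 2 ≤ C * 2 ^ i / ((i : ℝ) / 2) ^ 2 :=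
      div_le_div_of_nonneg_left (by positivity) (by positivity) hl2
    have h4 : (W ((2 : ℝ) ^ i) : ℝ) + W ((2 : ℝ) ^ i) - C * 2 ^ i / ((i : ℝ) / 2) ^ 2 ≤
        W ((2 : ℝ) ^ (i + 1)) := by linarith
    have h5 : ((i : ℝ) + 1) ^ 2 ≤ 4 * (i : ℝ) ^ 2 := by nlinarith
    have h6 : (i : ℝ) ^ 2 ≤ ((i : ℝ) + 1) ^ 2 := by nlinarith
    have hW0 : (0 : ℝ) ≤ W ((2 : ℝ) ^ i) := Nat.cast_nonneg _
    unfold rr
    have h7 : ((W ((2 : ℝ) ^ i) : ℝ) + W ((2 : ℝ) ^ i) - C * 2 ^ i / ((i : ℝ) / 2) ^ 2) *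
        ((i : ℝ) + 1) ^ 2 / 2 ^ (i + 1) ≤
        (W ((2 : ℝ) ^ (i + 1)) : ℝ) * ((i : ℝ) + 1) ^ 2 / 2 ^ (i + 1) := by
      refine div_le_div_of_nonneg_right ?_ (by positivity)
      exact mul_le_mul_of_nonneg_right h4 (by positivity)
    have h8 : ((W ((2 : ℝ) ^ i) : ℝ) + W ((2 : ℝ) ^ i) - C * 2 ^ i / ((i : ℝ) / 2) ^ 2) *
        ((i : ℝ) + 1) ^ 2 / 2 ^ (i + 1) =
        (W ((2 : ℝ) ^ i) : ℝ) * ((i : ℝ) + 1) ^ 2 / 2 ^ i -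
          2 * C * (((i : ℝ) + 1) ^ 2 / (i : ℝ) ^ 2) := by
      have hine : (i : ℝ) ≠ 0 := by positivity
      rw [pow_succ (2 : ℝ) i]
      field_simp
      ring
    have h9 : (W ((2 : ℝ) ^ i) : ℝ) * (i : ℝ) ^ 2 / 2 ^ i ≤
        (W ((2 : ℝ) ^ i) : ℝ) * ((i : ℝ) + 1) ^ 2 / 2 ^ i :=
      div_le_div_of_nonneg_right (mul_le_mul_of_nonneg_left h6 hW0) hs.le
    have h10 : ((i : ℝ) + 1) ^ 2 / (i : ℝ) ^ 2 ≤ 4 := by
      rw [div_le_iff₀ (by positivity)]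
      exact h5
    have h11 : 2 * C * (((i : ℝ) + 1) ^ 2 / (i : ℝ) ^ 2) ≤ 2 * C * 4 :=
      mul_le_mul_of_nonneg_left h10 (by positivity)
    push_cast
    linarith

end Pool.SieveG
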