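import Pool.Agent.Work.MP_0d108e_h29.Interface2

/-!
# Block DEN: diagonal argument for sets of density zero
-/

set_option autoImplicit false

namespace Pool.SieveG

open Filter Topology

open Classical in
theorem p_DEN : T_DEN := by
  intro B hB
  have h1 : ∀ n : ℕ, ∃ M : ℕ, ∀ J : ℕ, M ≤ J → ∑ i ∈ Finset.range (n + 1),
      (((Finset.range J).filter (fun j : ℕ => j ∈ B i)).card : ℝ) / J ≤ 1 / ((n : ℝ) + 1) := by
    intro n
    have h2 : Tendsto (fun J : ℕ => ∑ i ∈ Finset.range (n + 1),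
        (((Finset.range J).filter (fun j : ℕ => j ∈ B i)).card : ℝ) / J) atTop
        (𝓝 (∑ i ∈ Finset.range (n + 1), (0 : ℝ))) :=
      tendsto_finsetSum _ fun i _ => hB i
    rw [Finset.sum_const_zero] at h2
    have h3 : (0 : ℝ) < 1 / ((n : ℝ) + 1) := by positivity
    have h4 := h2.eventually_lt_const h3
    obtain ⟨M, hM⟩ := eventually_atTop.1 h4
    exact ⟨M, fun J hJ => (hM J hJ).le⟩
  choose M hM using h1
  set N : ℕ → ℕ := fun n => ∑ i ∈ Finset.range (n + 1), (M i + 1) with hN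
  have hNM : ∀ n, M n ≤ N n := by
    intro n
    have h5 : M n + 1 ≤ N n :=
      Finset.single_le_sum (f := fun i => M i + 1) (fun _ _ => Nat.zero_le _)
        (Finset.self_mem_range_succ n)
    omega
  have hNmono : StrictMono N := by
    refine strictMono_nat_of_lt_succ fun n => ?_
    show ∑ i ∈ Finset.range (n + 1), (M i + 1) < ∑ i ∈ Finset.range (n + 1 + 1), (M i + 1)
    rw [Finset.sum_range_succ _ (n + 1)]
    omega
  refine ⟨{j | ∃ n, N n ≤ j ∧ j ∈ B n}, ?_, fun n => ⟨N n, fun j hj hn => ⟨n, hn, hj⟩⟩⟩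
  unfold Dens
  rw [Metric.tendsto_atTop]
  intro ε hε
  obtain ⟨n0, hn0⟩ := exists_nat_one_div_lt hε
  refine ⟨N n0 + 1, fun J hJ => ?_⟩
  have hJ0 : (0 : ℝ) < J := by
    have : 0 < J := by omega
    exact_mod_cast this
  have hJn : n0 ≤ J := (hNmono.id_le n0).trans (by
    show N n0 ≤ J
    omega)
  set n := Nat.findGreatest (fun m => N m ≤ J) J with hn
  have hn1 : N n ≤ J :=
    Nat.findGreatest_spec (P := fun m => N m ≤ J) hJn (by show N n0 ≤ J; omega)
  have hn2 : n0 ≤ n := Nat.le_findGreatest hJn (by show N n0 ≤ J; omega)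
  have hn3 : ∀ m, N m ≤ J → m ≤ n := fun m hm =>
    Nat.le_findGreatest ((hNmono.id_le m).trans hm) hm
  have hsub : ((Finset.range J).filter (fun j : ℕ => j ∈ {j | ∃ n, N n ≤ j ∧ j ∈ B n})) ⊆
      (Finset.range (n + 1)).biUnion fun i => (Finset.range J).filter (fun j : ℕ => j ∈ B i) := by
    intro j hj
    rw [Finset.mem_filter] at hj
    obtain ⟨h6, m, h7, h8⟩ := hj
    rw [Finset.mem_biUnion]
    have h9 : j < J := Finset.mem_range.1 h6
    exact ⟨m, Finset.mem_range.2 (Nat.lt_succ_of_le (hn3 m (h7.trans h9.le))),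
      Finset.mem_filter.2 ⟨h6, h8⟩⟩
  have hcard : (((Finset.range J).filter
      (fun j : ℕ => j ∈ {j | ∃ n, N n ≤ j ∧ j ∈ B n})).card : ℝ) / J ≤ 1 / ((n : ℝ) + 1) := by
    refine le_trans ?_ (hM n J ((hNM n).trans hn1))
    rw [← Finset.sum_div]
    refine div_le_div_of_nonneg_right ?_ hJ0.le
    have h10 := (Finset.card_le_card hsub).trans Finset.card_biUnion_le
    exact_mod_cast h10
  have hlt : 1 / ((n : ℝ) + 1) < ε := by
    refine lt_of_le_of_lt ?_ hn0
    refine one_div_le_one_div_of_le (by positivity) ?_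
    have : (n0 : ℝ) ≤ n := by exact_mod_cast hn2
    linarith
  rw [Real.dist_eq, sub_zero, abs_of_nonneg (by positivity)]
  exact lt_of_le_of_lt hcard hlt

end Pool.SieveG
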