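import Pool.Agent.Work.MP_0d108e_h29.Interface

/-!
# Block DY: from the chain to the dyadic intervals
-/

namespace Pool.SieveG

open Filter Topology

namespace DY_

open Classical in
/-- Two dyadic indices share a chain index at most in pairs. -/
theorem pairs (β : ℝ) (hβ0 : 0 < β) (hβ2 : β < 2) (A B : Finset ℕ)
    (hA : ∀ j ∈ A, ∃ u : ℝ, ∃ i ∈ B, (2 : ℝ) ^ j ≤ u ∧ u < 2 ^ (j + 1) ∧ β ^ i ≤ u ∧
      u < β ^ (i + 1)) : A.card ≤ B.card * 2 := by
  choose! u i hi hu1 hu2 hu3 hu4 using hA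
  have h1 : A.card ≤ (B ×ˢ Finset.range 2).card := by
    refine Finset.card_le_card_of_injOn (fun j => (i j, j % 2)) ?_ ?_
    · intro j hj
      have hj' : j ∈ A := hj
      simp only [Finset.coe_product, Set.mem_prod, Finset.mem_coe, Finset.mem_range]
      exact ⟨hi j hj', Nat.mod_lt _ (by norm_num)⟩
    · have key : ∀ j ∈ A, ∀ j' ∈ A, i j = i j' → j + 2 ≤ j' → False := by
        intro j hj j' hj' hij hlt
        have h1 : (2 : ℝ) ^ (j + 2) ≤ 2 ^ j' := pow_le_pow_right₀ (by norm_num) hlt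
        have h2 : (2 : ℝ) ^ (j + 2) = 2 * 2 ^ (j + 1) := by ring
        have h3 := hu1 j' hj'
        have h4 := hu2 j hj
        have h5 := hu4 j' hj'
        have h6 := hu3 j hj
        rw [← hij, pow_succ] at h5
        have h7 : 0 < (2 : ℝ) ^ j := by positivity
        have h8 := hu1 j hj
        have h9 : β ^ i j * β ≤ u j * 2 := by
          have h : 0 < β ^ i j := by positivity
          nlinarith
        linarith
      intro j hj j' hj' hjj
      simp only [Prod.mk.injEq] at hjj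
      have hj0 : j ∈ A := hj
      have hj1 : j' ∈ A := hj'
      by_contra hne
      rcases lt_or_gt_of_ne hne with h | h
      · exact key j hj0 j' hj1 hjj.1 (by omega)
      · exact key j' hj1 j hj0 hjj.1.symm (by omega)
  rwa [Finset.card_product, Finset.card_range] at h1

end DY_

open DY_

open Classical in
theorem p_DY (hCH : T_CH) : T_DY := by
  intro h hmono hpos hdouble hjump hlow hup ε hε hε1
  -- the length l
  obtain ⟨m, hm⟩ := exists_nat_ge ((Real.log (1 / ε) + 1) / Real.log (3 / 2))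
  have hl32 : 0 < Real.log (3 / 2) := Real.log_pos (by norm_num)
  rw [div_le_iff₀ hl32] at hm
  obtain ⟨l, hl⟩ : ∃ l : ℕ, l = m + 1 := ⟨_, rfl⟩
  have hl1 : 1 ≤ l := by omega
  have hlog : Real.log (1 / ε) + 1 ≤ ((l : ℝ) - 1) * Real.log (3 / 2) := by
    rw [hl]
    push_cast
    have : ((m : ℝ) + 1 - 1) * Real.log (3 / 2) = m * Real.log (3 / 2) := by ring
    rw [this]
    exact hm
  obtain ⟨δ, hδ⟩ : ∃ δ : ℝ, δ = 1 / 2 ^ (l + 1) := ⟨_, rfl⟩
  have hδ0 : 0 < δ := by rw [hδ]; positivity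
  have hδ4 : δ ≤ 1 / 4 := by
    rw [hδ]
    refine one_div_le_one_div_of_le (by norm_num) ?_
    calc (4 : ℝ) = 2 ^ 2 := by norm_num
      _ ≤ 2 ^ (l + 1) := pow_le_pow_right₀ (by norm_num) (by omega)
  refine ⟨δ, hδ0, ?_⟩
  obtain ⟨U, hU⟩ := eventually_atTop.1 (hjump ε δ hε hε1 hδ0 hδ4)
  -- the estimate for every eta
  have hmain : ∀ η : ℝ, 0 < η → η ≤ 1 / 4 → ∃ j0 J0 : ℕ, ∀ J : ℕ, J0 ≤ J →
      (((Finset.range J).filter (fun j : ℕ => ∃ u : ℝ, (2 : ℝ) ^ j ≤ u ∧
      u < 2 ^ (j + 1) ∧ (1 + ε) * h u < h ((1 + δ) * u))).card : ℝ) ≤ j0 + 16 * l * η * J := by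
    intro η hη hη4
    obtain ⟨β, hβ⟩ : ∃ β : ℝ, β = 2 * (1 - η) := ⟨_, rfl⟩
    have hβ1 : 3 / 2 ≤ β := by rw [hβ]; linarith
    have hβ2 : β < 2 := by rw [hβ]; linarith
    have hβ0 : 0 < β := by linarith
    obtain ⟨I0, hI0⟩ := eventually_atTop.1 (hCH h hmono hpos hdouble hlow hup ε η l hε hε1 hη hη4
      hl1 hlog)
    -- j0
    have hpow : Tendsto (fun j : ℕ => (2 : ℝ) ^ j) atTop atTop :=
      tendsto_pow_atTop_atTop_of_one_lt (by norm_num)
    obtain ⟨j0, hj0⟩ := eventually_atTop.1 ((hpow.eventually_ge_atTop U).and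
      ((hpow.eventually_ge_atTop (3 * 2 ^ (l + 1))).and (eventually_ge_atTop l)))
    refine ⟨j0, I0, fun J hJ => ?_⟩
    have hCHJ := hI0 (2 * J) (by omega)
    rw [← hβ] at hCHJ
    obtain ⟨B, hB⟩ : ∃ B : Finset ℕ, B = (Finset.range (2 * J)).filter (fun i : ℕ => l ≤ i ∧
      ε * h (β ^ i) ≤ h (β ^ (i + 1 - l))) := ⟨_, rfl⟩
    have hBc : (B.card : ℝ) ≤ 8 * l * η * J := by
      have h1 : (B.card : ℝ) ≤ 4 * l * η * (2 * J : ℕ) := by
        rw [hB]
        refine (le_of_eq ?_).trans hCHJ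
        congr 2
      push_cast at h1
      linarith
    obtain ⟨F, hF⟩ : ∃ F : Finset ℕ, F = (Finset.range J).filter (fun j : ℕ =>
      ∃ u : ℝ, (2 : ℝ) ^ j ≤ u ∧ u < 2 ^ (j + 1) ∧ (1 + ε) * h u < h ((1 + δ) * u)) := ⟨_, rfl⟩
    have hA := pairs β hβ0 hβ2 (F.filter (fun j => j0 ≤ j)) B (by
      intro j hj
      rw [Finset.mem_filter, hF, Finset.mem_filter, Finset.mem_range] at hj
      obtain ⟨⟨hjJ, u, hu1, hu2, hu3⟩, hjj⟩ := hj
      obtain ⟨hUj, h3j, hlj⟩ := hj0 j hjj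
      have hu0 : (1 : ℝ) ≤ u := by
        refine le_trans ?_ hu1
        exact one_le_pow₀ (by norm_num)
      obtain ⟨i, hi1, hi2⟩ := exists_nat_pow_near hu0 (show (1 : ℝ) < β by linarith)
      refine ⟨u, i, ?_, hu1, hu2, hi1, hi2⟩
      -- j ≤ i
      have hji : j ≤ i := by
        by_contra hc
        have h1 : β ^ (i + 1) ≤ 2 ^ j := by
          calc β ^ (i + 1) ≤ 2 ^ (i + 1) := pow_le_pow_left₀ hβ0.le hβ2.le _
            _ ≤ 2 ^ j := pow_le_pow_right₀ (by norm_num) (by omega)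
        linarith
      have hli : l ≤ i := hlj.trans hji
      -- i < 2 J
      have hiJ : i < 2 * J := by
        by_contra hc
        rw [not_lt] at hc
        have h1 : (2 : ℝ) ^ J ≤ β ^ i := by
          calc (2 : ℝ) ^ J ≤ (β ^ 2) ^ J := pow_le_pow_left₀ (by norm_num) (by nlinarith) _
            _ = β ^ (2 * J) := by rw [pow_mul]
            _ ≤ β ^ i := pow_le_pow_right₀ (by linarith) hc
        have h2 : (2 : ℝ) ^ (j + 1) ≤ 2 ^ J := pow_le_pow_right₀ (by norm_num) (by omega)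
        linarith
      have h2l : (0 : ℝ) < 2 ^ l := by positivity
      -- powers
      have hbi : β ^ (i + 1 - l) * β ^ l = β ^ (i + 1) := by
        rw [← pow_add]
        congr 1
        omega
      have hbl : β ^ l ≤ 2 ^ l := pow_le_pow_left₀ hβ0.le hβ2.le _
      have hδu : 2 * δ * u = u / 2 ^ l := by
        rw [hδ, pow_succ]
        field_simp
      have hu3' : 3 ≤ u / 2 ^ l := by
        rw [le_div_iff₀ h2l]
        have : (3 : ℝ) * 2 ^ (l + 1) = 2 * (3 * 2 ^ l) := by ring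
        have h4 : (0 : ℝ) < 3 * 2 ^ l := by positivity
        linarith
      have hle : u / 2 ^ l ≤ β ^ (i + 1 - l) := by
        rw [div_le_iff₀ h2l]
        have h4 : β ^ (i + 1 - l) * β ^ l ≤ β ^ (i + 1 - l) * 2 ^ l :=
          mul_le_mul_of_nonneg_left hbl (by positivity)
        linarith
      have hβi3 : 3 ≤ β ^ i := by
        have h4 : β ^ (i + 1 - l) ≤ β ^ i := pow_le_pow_right₀ (by linarith) (by omega)
        linarith
      rw [hB, Finset.mem_filter, Finset.mem_range]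
      refine ⟨hiJ, hli, ?_⟩
      have h5 := hU u (hUj.trans hu1) hu3
      rw [hδu] at h5
      have h6 : h (β ^ i) ≤ h u := hmono (Set.mem_Ici.2 hβi3) (Set.mem_Ici.2 (hβi3.trans hi1)) hi1
      have h7 : h (u / 2 ^ l) ≤ h (β ^ (i + 1 - l)) :=
        hmono (Set.mem_Ici.2 hu3') (Set.mem_Ici.2 (hu3'.trans hle)) hle
      exact (mul_le_mul_of_nonneg_left h6 hε.le).trans (h5.trans h7))
    have hFc : F.card ≤ j0 + (F.filter (fun j => j0 ≤ j)).card := by
      have h1 : F ⊆ Finset.range j0 ∪ F.filter (fun j => j0 ≤ j) := by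
        intro j hj
        rw [Finset.mem_union, Finset.mem_range, Finset.mem_filter]
        rcases lt_or_ge j j0 with h | h
        · exact Or.inl h
        · exact Or.inr ⟨hj, h⟩
      have h2 := (Finset.card_le_card h1).trans (Finset.card_union_le _ _)
      rwa [Finset.card_range] at h2
    have h8 : (F.card : ℝ) ≤ j0 + B.card * 2 := by
      exact_mod_cast hFc.trans (Nat.add_le_add_left hA _)
    rw [← hF]
    linarith
  rw [Metric.tendsto_nhds]
  intro e he
  have hlr : (1 : ℝ) ≤ l := by exact_mod_cast hl1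
  obtain ⟨η, hη⟩ : ∃ η : ℝ, η = min (1 / 4) (e / (32 * l)) := ⟨_, rfl⟩
  have hη0 : 0 < η := by rw [hη]; exact lt_min (by norm_num) (by positivity)
  have hη4 : η ≤ 1 / 4 := by rw [hη]; exact min_le_left _ _
  have hηe : 16 * l * η ≤ e / 2 := by
    have h1 : η ≤ e / (32 * l) := by rw [hη]; exact min_le_right _ _
    rw [le_div_iff₀ (by positivity)] at h1
    linarith
  obtain ⟨j0, J0, hJ0⟩ := hmain η hη0 hη4
  have hlarge : ∀ᶠ J : ℕ in atTop, (j0 : ℝ) < e / 2 * J :=
    (tendsto_natCast_atTop_atTop.const_mul_atTop (by positivity : (0 : ℝ) < e / 2)).eventually_gt_atTop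
      _
  filter_upwards [eventually_ge_atTop J0, hlarge, eventually_ge_atTop 1] with J h1 h2 h3
  have hJ : (0 : ℝ) < J := by exact_mod_cast h3
  rw [Real.dist_eq, sub_zero, abs_of_nonneg (by positivity), div_lt_iff₀ hJ]
  have h4 := hJ0 J h1
  have h5 : 16 * l * η * J ≤ e / 2 * J := mul_le_mul_of_nonneg_right hηe hJ.le
  linarith

end Pool.SieveG
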