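import Pool.Agent.Work.MP_0d108e_h29.Interface3

/-!
# Block EQ: the quantitative form of a jump
-/

set_option autoImplicit false

namespace Pool.SieveG

open Filter Topology

theorem p_IW : T_IW := by
  rintro ⟨c, hc, h⟩
  have h1 : Tendsto (fun y : ℝ => c * Real.log (Real.log y)) atTop atTop :=
    (Real.tendsto_log_atTop.comp Real.tendsto_log_atTop).const_mul_atTop hc
  refine tendsto_atTop_mono' atTop ?_ h1
  filter_upwards [h, eventually_gt_atTop 0] with y hy h0
  rw [le_div_iff₀ h0]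
  linarith

theorem EQ.alg {c ε C y t y2 u δ Wy Wt W2 : ℝ} (hc : 0 < c) (hε : 0 < ε) (hC : 0 < C)
    (hy : 2 ≤ y) (ht1 : ε * y ≤ t) (ht2 : t ≤ y) (hy2 : y2 = y + t) (hWy : 0 ≤ Wy)
    (hWt : 0 ≤ Wt) (h1 : Wy + Wt - C * y / Real.log y ^ 2 ≤ W2)
    (h2 : W2 * Real.log y2 ≤ (1 + δ) * u) (h3 : u ≤ Wy * Real.log y)
    (h4 : c * t * Real.log (Real.log t) ≤ Wt * Real.log t ^ 2)
    (h5 : 1 / 2 * Real.log (Real.log y) ≤ Real.log (Real.log (ε * y)))
    (h6 : 2 * C ≤ c * ε / 4 * Real.log (Real.log y)) (h7 : 1 < ε * y) :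
    c * ε / 4 * (y * Real.log (Real.log y)) ≤ δ * u * Real.log y := by
  have hy0 : 0 < y := by linarith
  have ht0 : 1 < t := lt_of_lt_of_le h7 ht1
  have hly : 0 < Real.log y := Real.log_pos (by linarith)
  have hlt : 0 < Real.log t := Real.log_pos ht0
  have hle : 0 < Real.log (ε * y) := Real.log_pos h7
  have hlty : Real.log t ≤ Real.log y := Real.log_le_log (by linarith) ht2
  have hyy2 : Real.log y ≤ Real.log y2 := Real.log_le_log hy0 (by linarith)
  have hy22 : Real.log y2 ≤ 2 * Real.log y := by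
    have e1 : y2 ≤ y ^ 2 := by nlinarith
    have e2 := Real.log_le_log (by linarith) e1
    rw [Real.log_pow] at e2
    exact_mod_cast e2
  have hX : 0 < Real.log (Real.log y) := by
    by_contra hneg
    rw [not_lt] at hneg
    have : c * ε / 4 * Real.log (Real.log y) ≤ 0 :=
      mul_nonpos_of_nonneg_of_nonpos (by positivity) hneg
    linarith
  have a1 : (Wy + Wt - C * y / Real.log y ^ 2) * Real.log y2 ≤ (1 + δ) * u :=
    (mul_le_mul_of_nonneg_right h1 (by linarith)).trans h2
  have a2 : u ≤ Wy * Real.log y2 := h3.trans (mul_le_mul_of_nonneg_left hyy2 hWy)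
  have a3 : Wt * Real.log t ≤ Wt * Real.log y2 :=
    mul_le_mul_of_nonneg_left (hlty.trans hyy2) hWt
  have a4 : C * y / Real.log y ^ 2 * Real.log y2 ≤ 2 * C * y / Real.log y := by
    calc C * y / Real.log y ^ 2 * Real.log y2 ≤ C * y / Real.log y ^ 2 * (2 * Real.log y) :=
          mul_le_mul_of_nonneg_left hy22 (by positivity)
      _ = 2 * C * y / Real.log y := by field_simp
  have a5 : Wt * Real.log t ≤ δ * u + 2 * C * y / Real.log y := by
    have e3 : (Wy + Wt - C * y / Real.log y ^ 2) * Real.log y2 =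
        Wy * Real.log y2 + Wt * Real.log y2 - C * y / Real.log y ^ 2 * Real.log y2 := by ring
    rw [e3] at a1
    linarith
  have a6 : Wt * Real.log t * Real.log y ≤ δ * u * Real.log y + 2 * C * y := by
    have e4 := mul_le_mul_of_nonneg_right a5 hly.le
    have e5 : (δ * u + 2 * C * y / Real.log y) * Real.log y =
        δ * u * Real.log y + 2 * C * y := by
      field_simp
    rw [e5] at e4
    exact e4
  have a7 : Wt * Real.log t ^ 2 ≤ Wt * Real.log t * Real.log y := by
    have e6 : Wt * Real.log t * Real.log t ≤ Wt * Real.log t * Real.log y :=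
      mul_le_mul_of_nonneg_left hlty (mul_nonneg hWt hlt.le)
    nlinarith
  have a8 : Real.log (Real.log (ε * y)) ≤ Real.log (Real.log t) :=
    Real.log_le_log hle (Real.log_le_log (by linarith) ht1)
  have a9 : c * (ε * y) * (1 / 2 * Real.log (Real.log y)) ≤ c * t * Real.log (Real.log t) := by
    refine mul_le_mul (mul_le_mul_of_nonneg_left ht1 hc.le) (h5.trans a8) (by positivity) ?_
    have : 0 < t := by linarith
    positivity
  have a10 : 2 * C * y ≤ c * ε / 4 * Real.log (Real.log y) * y :=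
    mul_le_mul_of_nonneg_right h6 hy0.le
  nlinarith

theorem EQ.fin {c ε y u δ L X ly : ℝ} (hc : 0 < c) (hε : 0 < ε) (hy : 0 < y) (hu : 0 < u)
    (hδ : 0 < δ) (h1 : c * ε / 4 * (y * X) ≤ δ * u * ly) (h2 : ly ≤ 2 * L)
    (h3 : 1 / 2 * Real.log L ≤ X) : c / 16 * ε * y * Real.log L ≤ δ * u * L := by
  have a1 : c * ε / 4 * (y * (1 / 2 * Real.log L)) ≤ c * ε / 4 * (y * X) :=
    mul_le_mul_of_nonneg_left (mul_le_mul_of_nonneg_left h3 hy.le) (by positivity)
  have a2 : δ * u * ly ≤ δ * u * (2 * L) := mul_le_mul_of_nonneg_left h2 (by positivity)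
  nlinarith

theorem p_EQ (h0 : T_SUP) (h1 : T_GB) (h2 : T_GC) (h3 : T_PA) (h4 : T_IW) : T_EQ := by
  intro hI
  have iw := h4 hI
  obtain ⟨c, hc, hcW⟩ := hI
  refine ⟨c / 16, by positivity, fun ε hε hε1 => ?_⟩
  obtain ⟨C, Y, hC, hY, hS⟩ := h0 (1 / ε) (by rw [le_div_iff₀ hε]; linarith)
  obtain ⟨-, hmono, hlim, hlow, hupp⟩ := h2 iw
  have hPA := h3 iw (1 / 4) 2 (by norm_num) (by norm_num) (by norm_num)
  obtain ⟨Y0, hY0⟩ := eventually_atTop.1 hcW
  have hlog := Real.tendsto_log_atTop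
  have hll : Tendsto (fun y : ℝ => Real.log (Real.log y)) atTop atTop := hlog.comp hlog
  -- facts about `y`
  have F1 : ∀ᶠ y : ℝ in atTop, Y ≤ ε * y ∧ Y0 ≤ ε * y ∧ 2 ≤ y ∧ 1 < ε * y ∧
      1 / 2 * Real.log (Real.log y) ≤ Real.log (Real.log (ε * y)) ∧
      2 * C ≤ c * ε / 4 * Real.log (Real.log y) := by
    have e1 : Tendsto (fun y : ℝ => ε * y) atTop atTop := tendsto_id.const_mul_atTop hε
    have e2 : Tendsto (fun y : ℝ => c * ε / 4 * Real.log (Real.log y)) atTop atTop :=
      hll.const_mul_atTop (by positivity)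
    filter_upwards [e1.eventually_ge_atTop Y, e1.eventually_ge_atTop Y0,
      eventually_ge_atTop (2 : ℝ), e1.eventually_gt_atTop 1, e2.eventually_ge_atTop (2 * C),
      hlog.eventually_ge_atTop (2 * Real.log (1 / ε)), hll.eventually_ge_atTop 2,
      hlog.eventually_gt_atTop 0] with y b1 b2 b3 b4 b5 b6 b7 b8
    refine ⟨b1, b2, b3, b4, ?_, b5⟩
    have b9 : Real.log (ε * y) = Real.log ε + Real.log y :=
      Real.log_mul hε.ne' (by linarith)
    have b10 : Real.log (1 / ε) = -Real.log ε := by rw [one_div, Real.log_inv]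
    have b11 : Real.log y / 2 ≤ Real.log (ε * y) := by
      rw [b9]
      rw [b10] at b6
      linarith
    have b12 := Real.log_le_log (by linarith) b11
    rw [Real.log_div b8.ne' (by norm_num)] at b12
    have b13 : Real.log 2 < 1 := by
      have := Real.log_two_lt_d9
      linarith
    linarith
  -- facts about `u`
  have F2 : ∀ᶠ u : ℝ in atTop, Real.log (Real.log u) ≤ Real.log u / 6 ∧ 3 ≤ Real.log u ∧
      2 ≤ Real.log (Real.log u) := by
    have e3 : ∀ᶠ L : ℝ in atTop, Real.log L ≤ L / 6 := by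
      have e4 := Real.isLittleO_log_id_atTop.bound (show (0 : ℝ) < 1 / 6 by norm_num)
      filter_upwards [e4, eventually_gt_atTop (0 : ℝ)] with L hL hL0
      rw [id, Real.norm_eq_abs, Real.norm_eq_abs, abs_of_pos hL0] at hL
      have := le_abs_self (Real.log L)
      linarith
    filter_upwards [hlog.eventually e3, hlog.eventually_ge_atTop 3, hll.eventually_ge_atTop 2]
      with u b1 b2 b3
    exact ⟨b1, b2, b3⟩
  filter_upwards [hlim.eventually F1, F2, hPA, hlow, hupp, eventually_ge_atTop (5 : ℝ)]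
    with u f1 f2 hpa hlo hup hu5
  intro δ hδ hδ4 hjump
  obtain ⟨b1, b2, b3, b4, b5, b6⟩ := f1
  obtain ⟨c1, c2, c3⟩ := f2
  have hu0 : 0 < u := by linarith
  have hu' : 5 ≤ (1 + δ) * u := by nlinarith
  obtain ⟨y2, d1, d2, d3, d4⟩ := (h1 iw ((1 + δ) * u) hu').2.2.2.2 _ hjump
  have hgu := (h1 iw u hu5).2.2.2.1
  have hy0 : 0 < g u := by linarith
  have d5 : y2 ≤ 2 * g u := by
    have e5 : g ((1 + δ) * u) ≤ g ((1 - 1 / 4) * ((2 : ℕ) : ℝ) * u) := by
      refine hmono ?_ ?_ ?_
      · show (3 : ℝ) ≤ (1 + δ) * u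
        linarith
      · show (3 : ℝ) ≤ (1 - 1 / 4) * ((2 : ℕ) : ℝ) * u
        push_cast
        linarith
      · push_cast
        nlinarith
    have e6 : g ((1 - 1 / 4) * ((2 : ℕ) : ℝ) * u) ≤ ((2 : ℕ) : ℝ) * g u := hpa
    push_cast at e6
    have e7 := (d2.trans e5)
    push_cast at e7
    linarith
  have ht1 : ε * g u ≤ y2 - g u := by linarith
  have ht2 : y2 - g u ≤ g u := by linarith
  have hsup := hS (g u) (y2 - g u) (by nlinarith) (by linarith)
    (by rw [one_div, ← div_eq_inv_mul, le_div_iff₀ hε]; linarith)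
    (by rw [one_div, ← div_eq_inv_mul, le_div_iff₀ hε]; nlinarith)
  have e8 : g u + (y2 - g u) = y2 := by ring
  rw [e8] at hsup
  have hmain := EQ.alg (c := c) (ε := ε) (C := C) (y := g u) (t := y2 - g u) (y2 := y2) (u := u)
    (δ := δ) (Wy := W (g u)) (Wt := W (y2 - g u)) (W2 := W y2) hc hε hC b3 ht1 ht2 (by ring)
    (Nat.cast_nonneg _) (Nat.cast_nonneg _) hsup d4 hgu (hY0 _ (by linarith)) b5 b6 b4
  have hL0 : 0 < Real.log u := by linarith
  have k1 : Real.log (g u) ≤ 2 * Real.log u := by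
    have e9 := Real.log_le_log hy0 hup
    rw [Real.log_mul hu0.ne' (pow_pos hL0 3).ne', Real.log_pow] at e9
    push_cast at e9
    linarith
  have k2 : Real.log u / 2 ≤ Real.log (g u) := by
    have e10 := Real.log_le_log (by positivity) hlo
    rw [Real.log_div hu0.ne' (by positivity), Real.log_mul (by norm_num) hL0.ne'] at e10
    have := Real.log_two_lt_d9
    linarith
  have k3 : 1 / 2 * Real.log (Real.log u) ≤ Real.log (Real.log (g u)) := by
    have e11 := Real.log_le_log (by linarith) k2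
    rw [Real.log_div hL0.ne' (by norm_num)] at e11
    have := Real.log_two_lt_d9
    linarith
  exact EQ.fin hc hε hy0 hu0 hδ hmain k1 k3

end Pool.SieveG
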