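import Pool.Agent.Work.MP_0d108e_h29.Interface

/-!
# Block FA: the question is settled if W has the order y / log y
-/

namespace Pool.SieveG

open Filter Topology

namespace FA_

theorem iw_of (c : ℝ) (hc : 0 < c) (h : ∀ᶠ y in atTop, c * y ≤ (W y : ℝ) * Real.log y) : Iw := by
  unfold Iw
  have h1 : Tendsto (fun y : ℝ => c * Real.log y) atTop atTop :=
    Real.tendsto_log_atTop.const_mul_atTop hc
  refine tendsto_atTop_mono' atTop ?_ h1
  filter_upwards [h, eventually_gt_atTop (1 : ℝ)] with y hy hy1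
  have hl : 0 < Real.log y := Real.log_pos hy1
  have hy0 : 0 < y := by linarith
  rw [le_div_iff₀ hy0]
  have h2 := mul_le_mul_of_nonneg_right hy hl.le
  calc c * Real.log y * y = c * y * Real.log y := by ring
    _ ≤ (W y : ℝ) * Real.log y * Real.log y := h2
    _ = (W y : ℝ) * Real.log y ^ 2 := by ring

end FA_

open FA_

theorem p_FA (h1 : T_PB) (h2 : T_GB) (h3 : T_GC) (h4 : T_UB) : T_FA := by
  rintro ⟨c, hc, hcW⟩
  have hIw : Iw := iw_of c hc hcW
  have hGB := h2 hIw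
  obtain ⟨-, hmono, htend, -, -⟩ := h3 hIw
  obtain ⟨C, Y, hC, hY2, hUB⟩ := h4
  -- lower bound for g
  have hlow : ∀ᶠ u in atTop, u / C ≤ g u := by
    filter_upwards [eventually_ge_atTop (5 : ℝ), eventually_ge_atTop (C * Y)] with u hu5 hu
    have hy : Y ≤ u / C := by rw [le_div_iff₀ hC]; linarith
    have h5 := hUB (u / C) hy
    have h6 : C * (u / C) = u := by field_simp
    rw [h6] at h5
    exact le_csSup (hGB u hu5).1 ⟨hY2.trans hy, h5⟩
  -- upper bound for g
  have hup : ∀ᶠ u in atTop, g u ≤ 2 * u / c := by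
    obtain ⟨Y1, hY1⟩ := eventually_atTop.1 hcW
    filter_upwards [eventually_ge_atTop (5 : ℝ), htend.eventually_ge_atTop (2 * Y1)] with u hu5 hu
    obtain ⟨-, hg3, -, -, hpt⟩ := hGB u hu5
    obtain ⟨y, hy0, hy1, hy2, hy3⟩ := hpt (g u / 2) (by linarith)
    have h5 := hY1 y (by linarith)
    rw [le_div_iff₀ hc]
    nlinarith
  -- no jumps
  have hjump : ∀ ε : ℝ, 0 < ε → ε < 1 → ∃ δ : ℝ, 0 < δ ∧ ∀ᶠ u in atTop,
      g ((1 + δ) * u) ≤ (1 + ε) * g u := by
    intro ε hε hε1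
    obtain ⟨δ, hδ⟩ : ∃ δ : ℝ, δ = min (1 / 4) (ε * c / (8 * C)) := ⟨_, rfl⟩
    have hδ0 : 0 < δ := by rw [hδ]; exact lt_min (by norm_num) (by positivity)
    have hδ4 : δ ≤ 1 / 4 := by rw [hδ]; exact min_le_left _ _
    have hδC : δ ≤ ε * c / (8 * C) := by rw [hδ]; exact min_le_right _ _
    refine ⟨δ, hδ0, ?_⟩
    have h2δ : Tendsto (fun u : ℝ => 2 * δ * u) atTop atTop :=
      tendsto_id.const_mul_atTop (by positivity)
    filter_upwards [h1 hIw ε δ hε hε1 hδ0 hδ4, hlow, h2δ.eventually hup,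
      eventually_gt_atTop (0 : ℝ)] with u hu hl hv hu0
    by_contra hcon
    have h5 := hu (not_le.1 hcon)
    have h6 : ε * (u / C) ≤ 2 * (2 * δ * u) / c :=
      (mul_le_mul_of_nonneg_left hl hε.le).trans (h5.trans hv)
    rw [le_div_iff₀ hc] at h6
    have h7 : δ * (8 * C) ≤ ε * c := by rwa [le_div_iff₀ (by positivity)] at hδC
    have h8 : ε * (u / C) * c * C ≤ 2 * (2 * δ * u) * C := mul_le_mul_of_nonneg_right h6 hC.le
    have h9 : ε * (u / C) * c * C = ε * c * u := by field_simp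
    rw [h9] at h8
    have h10 : 0 < ε * c * u := by positivity
    have h11 : δ * (8 * C) * u ≤ ε * c * u := mul_le_mul_of_nonneg_right h7 hu0.le
    nlinarith
  intro a b ha hb hab
  rw [Metric.tendsto_nhds]
  intro ε0 hε0
  obtain ⟨ε, hε⟩ : ∃ ε : ℝ, ε = min ε0 1 / 2 := ⟨_, rfl⟩
  have hm0 : 0 < min ε0 1 := lt_min hε0 one_pos
  have hε1 : 0 < ε := by rw [hε]; linarith
  have hε2 : ε < 1 := by
    have := min_le_right ε0 1
    rw [hε]; linarith
  have hε3 : ε < ε0 := by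
    have := min_le_left ε0 1
    rw [hε]; linarith
  obtain ⟨δ, hδ0, hδ⟩ := hjump ε hε1 hε2
  have hr1 : ∀ᶠ x in atTop, a x / b x < 1 + δ := (tendsto_order.1 hab).2 _ (by linarith)
  have hr2 : ∀ᶠ x in atTop, 1 / (1 + δ) < a x / b x := (tendsto_order.1 hab).1 _ (by
    rw [div_lt_one (by linarith)]; linarith)
  filter_upwards [hr1, hr2, ha.eventually hδ, hb.eventually hδ, ha.eventually_ge_atTop 5,
    hb.eventually_ge_atTop 5] with x hx1 hx2 hax hbx ha5 hb5
  have ha0 : 0 < a x := by linarith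
  have hb0 : 0 < b x := by linarith
  have h5 : a x ≤ (1 + δ) * b x := by
    rw [div_lt_iff₀ hb0] at hx1
    exact hx1.le
  have h6 : b x ≤ (1 + δ) * a x := by
    rw [div_lt_div_iff₀ (by linarith) hb0] at hx2
    linarith
  have hga : 0 < g (a x) := by linarith [(hGB _ ha5).2.1]
  have hgb : 0 < g (b x) := by linarith [(hGB _ hb5).2.1]
  have h7 : g (a x) ≤ (1 + ε) * g (b x) := by
    refine le_trans (hmono ?_ ?_ h5) hbx
    · exact Set.mem_Ici.2 (by linarith)
    · exact Set.mem_Ici.2 (by linarith)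
  have h8 : g (b x) ≤ (1 + ε) * g (a x) := by
    refine le_trans (hmono ?_ ?_ h6) hax
    · exact Set.mem_Ici.2 (by linarith)
    · exact Set.mem_Ici.2 (by linarith)
  rw [Real.dist_eq]
  refine lt_of_le_of_lt ?_ hε3
  rw [abs_le]
  constructor
  · have h9 : (1 - ε) ≤ g (a x) / g (b x) := by
      rw [le_div_iff₀ hgb]
      have h10 : (1 - ε) * g (b x) ≤ (1 - ε) * ((1 + ε) * g (a x)) :=
        mul_le_mul_of_nonneg_left h8 (by linarith)
      nlinarith [mul_pos hε1 hε1, mul_nonneg (mul_nonneg hε1.le hε1.le) hga.le]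
    linarith
  · have h9 : g (a x) / g (b x) ≤ 1 + ε := by
      rw [div_le_iff₀ hgb]
      exact h7
    linarith

end Pool.SieveG
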