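import Pool.Agent.Work.MP_0d108e_h29.Interface

/-! FB and FC: consequences of the blocks. -/

set_option autoImplicit false

namespace Pool.SieveG

open Filter Topology

namespace FBC

lemma g_nonneg (u : ℝ) : 0 ≤ g u := by
  unfold g
  apply Real.sSup_nonneg
  rintro y ⟨hy, -⟩
  linarith

end FBC

/-- FB -/
theorem p_FB (h1 : T_PA) (h2 : T_GC) : T_FB := by
  intro hI a b ha hb hab
  obtain ⟨_, hmono, _, _, _⟩ := h2 hI
  have hPA := h1 hI (1 / 4) 2 (by norm_num) (by norm_num) (by norm_num)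
  have e1 : ∀ᶠ x in atTop, g ((1 - 1 / 4) * (2 : ℕ) * b x) ≤ (2 : ℕ) * g (b x) :=
    hb.eventually hPA
  have e2 : ∀ᶠ x in atTop, a x / b x < 3 / 2 :=
    hab.eventually_lt_const (by norm_num)
  have e3 : ∀ᶠ x in atTop, 3 ≤ a x := ha.eventually_ge_atTop 3
  have e4 : ∀ᶠ x in atTop, 3 ≤ b x := hb.eventually_ge_atTop 3
  filter_upwards [e1, e2, e3, e4] with x h1 h2 h3 h4
  have hb0 : 0 < b x := by linarith
  rw [div_lt_iff₀ hb0] at h2
  have h5 : a x ≤ (1 - 1 / 4) * (2 : ℕ) * b x := by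
    push_cast
    linarith
  have h6 := hmono (Set.mem_Ici.2 h3) (Set.mem_Ici.2 (le_trans h3 h5)) h5
  push_cast at h1 h6
  linarith

open Classical in
/-- FC -/
theorem p_FC (h1 : T_PA) (h2 : T_PB) (h3 : T_GC) (h4 : T_DY) : T_FC := by
  intro hI
  obtain ⟨hg2, hmono, _, hlow, hup⟩ := h3 hI
  have hpos : ∀ u : ℝ, 3 ≤ u → 0 < g u := fun u hu => by linarith [hg2 u hu]
  have hPA : ∀ η : ℝ, 0 < η → η < 1 → ∀ᶠ u in atTop, g ((1 - η) * 2 * u) ≤ 2 * g u := by
    intro η h0 h1'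
    have := h1 hI η 2 h0 h1' (by norm_num)
    simpa using this
  have key := h4 g hmono hpos hPA (h2 hI) hlow hup
  intro ε hε
  by_cases hε1 : ε < 1
  · exact key ε hε hε1
  · push Not at hε1
    obtain ⟨δ, hδ, hT⟩ := key (1 / 2) (by norm_num) (by norm_num)
    refine ⟨δ, hδ, ?_⟩
    refine squeeze_zero (fun J => by positivity) (fun J => ?_) hT
    apply div_le_div_of_nonneg_right _ (Nat.cast_nonneg J)
    have hsub : ((Finset.range J).filter (fun j : ℕ => ∃ u : ℝ, (2 : ℝ) ^ j ≤ u ∧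
        u < 2 ^ (j + 1) ∧ (1 + ε) * g u < g ((1 + δ) * u))) ⊆
        ((Finset.range J).filter (fun j : ℕ => ∃ u : ℝ, (2 : ℝ) ^ j ≤ u ∧
        u < 2 ^ (j + 1) ∧ (1 + 1 / 2) * g u < g ((1 + δ) * u))) := by
      intro j hj
      rw [Finset.mem_filter] at hj ⊢
      obtain ⟨hj1, u, hu1, hu2, hu3⟩ := hj
      refine ⟨hj1, u, hu1, hu2, lt_of_le_of_lt ?_ hu3⟩
      apply mul_le_mul_of_nonneg_right _ (FBC.g_nonneg u)
      linarith
    exact_mod_cast Finset.card_le_card hsub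

end Pool.SieveG
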