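import Mathlib

/-!
# The interval sieve function g (MP_0d108e_nt): definitions
-/

namespace Pool.SieveG

open Filter Topology

open Classical in
/-- the number of integers `n` with `c ≤ n ≤ d` that survive the sieve by the classes `a p mod p` for
the primes `p ≤ z` -/
noncomputable def cnt (a : ℕ → ℤ) (z : ℝ) (c d : ℤ) : ℕ :=
  ((Finset.Icc c d).filter
    (fun n => ∀ p : ℕ, p.Prime → (p : ℝ) ≤ z → ¬ ((p : ℤ) ∣ n - a p))).card

/-- the sieving level `(y / log y)^(1/2)` -/
noncomputable def lev (y : ℝ) : ℝ := Real.sqrt (y / Real.log y)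

/-- `W y`: the minimum, over all choices of the classes, of the number of survivors in `[0, y]` -/
noncomputable def W (y : ℝ) : ℕ := sInf {k : ℕ | ∃ a : ℕ → ℤ, cnt a (lev y) 0 ⌊y⌋ = k}

/-- `g u`: the supremum of the `y ≥ 2` with `W y * log y ≤ u` -/
noncomputable def g (u : ℝ) : ℝ := sSup {y : ℝ | 2 ≤ y ∧ (W y : ℝ) * Real.log y ≤ u}

/-- Iwaniec's lower bound in the weak form `W y * (log y)^2 / y → ∞` -/
def Iw : Prop := Tendsto (fun y : ℝ => (W y : ℝ) * Real.log y ^ 2 / y) atTop atTop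

/-- the question Q1 -/
def Q1 : Prop := ∀ a b : ℝ → ℝ, Tendsto a atTop atTop → Tendsto b atTop atTop →
  Tendsto (fun x => a x / b x) atTop (𝓝 1) → Tendsto (fun x => g (a x) / g (b x)) atTop (𝓝 1)

end Pool.SieveG
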