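import Mathlib
import Pool.Agent.Work.MP_0d108e_h29.Defs

/-!
# The interval sieve function g (MP_0d108e_nt): blocks (the definitions are in Defs)
-/

namespace Pool.SieveG

open Filter Topology

/-! ## Blocks -/

open Classical in
/-- CLS: upper bound sieve inside a residue class mod `p` (CRT + `sieve_bound` of
`Pool.Agent.Work.MP_0b7501_nt.BT`) -/
def T_CLS : Prop := ∀ (a : ℕ → ℤ) (p : ℕ) (c r : ℤ) (L : ℝ) (R : ℕ), p.Prime → 1 ≤ R → R < p →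
  0 ≤ L →
  (((Finset.Icc c (c + ⌊L⌋)).filter (fun n => (p : ℤ) ∣ n - r ∧
    ∀ q : ℕ, q.Prime → q ≤ R → ¬ ((q : ℤ) ∣ n - a q))).card : ℝ) * (Real.log (R + 1) / 2) ≤
    16 * max (L / p + 1) ((R : ℝ) ^ 2)

/-- LEV: raising the sieving level from `lev s` to `lev t`, `s ≤ t ≤ Λ s`, removes at most
`C s / (log s)^2` survivors of an interval of length `s` -/
def T_LEV : Prop := ∀ Λ : ℝ, 1 ≤ Λ → ∃ C Y : ℝ, 0 < C ∧ 2 ≤ Y ∧ ∀ s t : ℝ, Y ≤ s → s ≤ t →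
  t ≤ Λ * s → ∀ (a : ℕ → ℤ) (c : ℤ),
    (W s : ℝ) - C * s / Real.log s ^ 2 ≤ cnt a (lev t) c (c + ⌊s⌋)

/-- SUP: superadditivity -/
def T_SUP : Prop := ∀ Λ : ℝ, 1 ≤ Λ → ∃ C Y : ℝ, 0 < C ∧ 2 ≤ Y ∧ ∀ s t : ℝ, Y ≤ s → Y ≤ t →
  s ≤ Λ * t → t ≤ Λ * s → (W s : ℝ) + W t - C * s / Real.log s ^ 2 ≤ W (s + t)

/-- UB: the upper bound for `W` -/
def T_UB : Prop := ∃ C Y : ℝ, 0 < C ∧ 2 ≤ Y ∧ ∀ y : ℝ, Y ≤ y → (W y : ℝ) * Real.log y ≤ C * y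

/-- SUPE: superadditivity with a factor `1 - η` -/
def T_SUPE : Prop := Iw → ∀ η Λ : ℝ, 0 < η → 1 ≤ Λ → ∃ Y : ℝ, 2 ≤ Y ∧ ∀ s t : ℝ, Y ≤ s →
  Y ≤ t → s ≤ Λ * t → t ≤ Λ * s → (1 - η) * ((W s : ℝ) + W t) ≤ W (s + t)

/-- MULT: `W (k s) ≥ (1 - η) k W s` -/
def T_MULT : Prop := Iw → ∀ (η : ℝ) (k : ℕ), 0 < η → η < 1 → 1 ≤ k → ∃ Y : ℝ, 2 ≤ Y ∧
  ∀ s : ℝ, Y ≤ s → (1 - η) * k * (W s : ℝ) ≤ W (k * s)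

/-- GB: first facts about `g` -/
def T_GB : Prop := Iw → ∀ u : ℝ, 5 ≤ u →
  BddAbove {y : ℝ | 2 ≤ y ∧ (W y : ℝ) * Real.log y ≤ u} ∧
  3 ≤ g u ∧ (∀ y : ℝ, g u < y → u < (W y : ℝ) * Real.log y) ∧
  u ≤ (W (g u) : ℝ) * Real.log (g u) ∧
  (∀ y0 : ℝ, y0 < g u → ∃ y : ℝ, y0 < y ∧ y ≤ g u ∧ 2 ≤ y ∧ (W y : ℝ) * Real.log y ≤ u)

/-- GC: growth and monotonicity of `g` -/
def T_GC : Prop := Iw → (∀ u : ℝ, 3 ≤ u → 2 ≤ g u) ∧ MonotoneOn g (Set.Ici 3) ∧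
  Tendsto g atTop atTop ∧
  (∀ᶠ u in atTop, u / (2 * Real.log u) ≤ g u) ∧ (∀ᶠ u in atTop, g u ≤ u * Real.log u ^ 3)

/-- PA: `g ((1 - η) k u) ≤ k g u` -/
def T_PA : Prop := Iw → ∀ (η : ℝ) (k : ℕ), 0 < η → η < 1 → 1 ≤ k →
  ∀ᶠ u in atTop, g ((1 - η) * k * u) ≤ k * g u

/-- PB: a jump of `g` at `u` forces `g (2 δ u) ≥ ε g u` -/
def T_PB : Prop := Iw → ∀ ε δ : ℝ, 0 < ε → ε < 1 → 0 < δ → δ ≤ 1 / 4 →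
  ∀ᶠ u in atTop, (1 + ε) * g u < g ((1 + δ) * u) → ε * g u ≤ g (2 * δ * u)

/-- CH: the counting argument along the chain `β^i`, `β = 2 (1 - η)` -/
def T_CH : Prop := ∀ h : ℝ → ℝ, MonotoneOn h (Set.Ici 3) → (∀ u : ℝ, 3 ≤ u → 0 < h u) →
  (∀ η : ℝ, 0 < η → η < 1 → ∀ᶠ u in atTop, h ((1 - η) * 2 * u) ≤ 2 * h u) →
  (∀ᶠ u in atTop, u / (2 * Real.log u) ≤ h u) → (∀ᶠ u in atTop, h u ≤ u * Real.log u ^ 3) →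
  ∀ (ε η : ℝ) (l : ℕ), 0 < ε → ε < 1 → 0 < η → η ≤ 1 / 4 → 1 ≤ l →
    Real.log (1 / ε) + 1 ≤ (l - 1) * Real.log (3 / 2) →
    ∀ᶠ I : ℕ in atTop, (((Finset.range I).filter (fun i : ℕ => l ≤ i ∧
      ε * h ((2 * (1 - η)) ^ i) ≤ h ((2 * (1 - η)) ^ (i + 1 - l)))).card : ℝ) ≤ 4 * l * η * I

open Classical in
/-- DY: from the chain to the dyadic intervals -/
def T_DY : Prop := ∀ h : ℝ → ℝ, MonotoneOn h (Set.Ici 3) → (∀ u : ℝ, 3 ≤ u → 0 < h u) →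
  (∀ η : ℝ, 0 < η → η < 1 → ∀ᶠ u in atTop, h ((1 - η) * 2 * u) ≤ 2 * h u) →
  (∀ ε δ : ℝ, 0 < ε → ε < 1 → 0 < δ → δ ≤ 1 / 4 →
    ∀ᶠ u in atTop, (1 + ε) * h u < h ((1 + δ) * u) → ε * h u ≤ h (2 * δ * u)) →
  (∀ᶠ u in atTop, u / (2 * Real.log u) ≤ h u) → (∀ᶠ u in atTop, h u ≤ u * Real.log u ^ 3) →
  ∀ ε : ℝ, 0 < ε → ε < 1 → ∃ δ : ℝ, 0 < δ ∧
    Tendsto (fun J : ℕ => (((Finset.range J).filter (fun j : ℕ => ∃ u : ℝ, (2 : ℝ) ^ j ≤ u ∧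
      u < 2 ^ (j + 1) ∧ (1 + ε) * h u < h ((1 + δ) * u))).card : ℝ) / J) atTop (𝓝 0)

/-- FA: if `W y` has the order `y / log y` then the answer is yes -/
def T_FA : Prop := (∃ c : ℝ, 0 < c ∧ ∀ᶠ y in atTop, c * y ≤ (W y : ℝ) * Real.log y) → Q1

/-- FB: `limsup g(a)/g(b) ≤ 2` -/
def T_FB : Prop := Iw → ∀ a b : ℝ → ℝ, Tendsto a atTop atTop → Tendsto b atTop atTop →
  Tendsto (fun x => a x / b x) atTop (𝓝 1) → ∀ᶠ x in atTop, g (a x) ≤ 2 * g (b x)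

open Classical in
/-- FC: `g` is regular at almost all scales -/
def T_FC : Prop := Iw → ∀ ε : ℝ, 0 < ε → ∃ δ : ℝ, 0 < δ ∧
    Tendsto (fun J : ℕ => (((Finset.range J).filter (fun j : ℕ => ∃ u : ℝ, (2 : ℝ) ^ j ≤ u ∧
      u < 2 ^ (j + 1) ∧ (1 + ε) * g u < g ((1 + δ) * u))).card : ℝ) / J) atTop (𝓝 0)

end Pool.SieveG
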