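import Mathlib
import Pool.Agent.Work.MP_0d108e_h29.Interface

/-!
# The interval sieve function g (MP_0d108e_nt): two more blocks
-/

namespace Pool.SieveG

open Filter Topology

open Classical in
/-- the set `B` of natural numbers has density `d` -/
def Dens (B : Set ℕ) (d : ℝ) : Prop :=
  Tendsto (fun J : ℕ => (((Finset.range J).filter (fun j : ℕ => j ∈ B)).card : ℝ) / J) atTop (𝓝 d)

/-- DEN: diagonal argument for sets of density zero -/
def T_DEN : Prop := ∀ B : ℕ → Set ℕ, (∀ n, Dens (B n) 0) →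
  ∃ D : Set ℕ, Dens D 0 ∧ ∀ n, ∃ N : ℕ, ∀ j ∈ B n, N ≤ j → j ∈ D

/-- FD: Q1 at almost all scales -/
def T_FD : Prop := Iw → ∃ S : Set ℕ, Dens S 1 ∧ ∀ a b : ℝ → ℝ, Tendsto a atTop atTop →
  Tendsto b atTop atTop → Tendsto (fun x => a x / b x) atTop (𝓝 1) →
  (∀ᶠ x in atTop, ∃ j ∈ S, (2 : ℝ) ^ j ≤ b x ∧ b x < 2 ^ (j + 1)) →
  Tendsto (fun x => g (a x) / g (b x)) atTop (𝓝 1)

end Pool.SieveG
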