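import Mathlib
import Pool.Agent.Work.MP_0d108e_h29.Interface2

/-!
# FD: Q1 at almost all scales
-/

namespace Pool.SieveG

open Filter Topology

namespace FD

/-- counting: the neighbours of a set of density zero -/
theorem dens_good (D : Set ℕ) (hD : Dens D 0) :
    Dens {j : ℕ | 1 ≤ j ∧ j - 1 ∉ D ∧ j ∉ D ∧ j + 1 ∉ D} 1 := by
  classical
  set S : Set ℕ := {j : ℕ | 1 ≤ j ∧ j - 1 ∉ D ∧ j ∉ D ∧ j + 1 ∉ D} with hS
  unfold Dens at hD ⊢
  set cD : ℕ → ℕ := fun J => ((Finset.range J).filter (fun j : ℕ => j ∈ D)).card with hcD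
  have hD' : Tendsto (fun J : ℕ => (cD J : ℝ) / J) atTop (𝓝 0) := by
    refine hD.congr fun J => ?_
    simp only [hcD]
  set cS : ℕ → ℕ := fun J => ((Finset.range J).filter (fun j : ℕ => j ∈ S)).card with hcS
  have key : ∀ J : ℕ, J ≤ cS J + (2 + 3 * cD J) := by
    intro J
    -- the bad numbers below `J`
    have h1 : Finset.range J ⊆ ((Finset.range J).filter (fun j : ℕ => j ∈ S)) ∪
        ((({0} ∪ (((Finset.range J).filter (fun j : ℕ => j ∈ D)).image (fun j => j + 1))) ∪
          ((Finset.range J).filter (fun j : ℕ => j ∈ D))) ∪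
          ({J - 1} ∪ (((Finset.range J).filter (fun j : ℕ => j ∈ D)).image (fun j => j - 1)))) := by
      intro j hj
      have hj' := Finset.mem_range.1 hj
      simp only [Finset.mem_union, Finset.mem_filter, Finset.mem_range, Finset.mem_image,
        Finset.mem_singleton]
      by_cases hjS : j ∈ S
      · exact Or.inl ⟨hj', hjS⟩
      right
      have h2 : ¬ (1 ≤ j ∧ j - 1 ∉ D ∧ j ∉ D ∧ j + 1 ∉ D) := hjS
      by_cases h3 : 1 ≤ j
      · by_cases h4 : j - 1 ∈ D
        · left; left; right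
          exact ⟨j - 1, ⟨by omega, h4⟩, by omega⟩
        · by_cases h5 : j ∈ D
          · left; right
            exact ⟨hj', h5⟩
          · have h6 : j + 1 ∈ D := by
              by_contra h6
              exact h2 ⟨h3, h4, h5, h6⟩
            right
            by_cases h7 : j + 1 < J
            · right
              exact ⟨j + 1, ⟨h7, h6⟩, by omega⟩
            · left; omega
      · left; left; left; omega
    have h2 := Finset.card_le_card h1
    rw [Finset.card_range] at h2
    have h3 : ∀ A B : Finset ℕ, (A ∪ B).card ≤ A.card + B.card := fun A B => Finset.card_union_le A B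
    have h4 : (((Finset.range J).filter (fun j : ℕ => j ∈ D)).image (fun j => j + 1)).card ≤ cD J :=
      Finset.card_image_le
    have h5 : (((Finset.range J).filter (fun j : ℕ => j ∈ D)).image (fun j => j - 1)).card ≤ cD J :=
      Finset.card_image_le
    refine h2.trans ?_
    refine (h3 _ _).trans ?_
    refine Nat.add_le_add_left ?_ _
    refine (h3 _ _).trans ?_
    have h6 := h3 (({0} : Finset ℕ) ∪ (((Finset.range J).filter (fun j : ℕ => j ∈ D)).image (fun j => j + 1)))
      ((Finset.range J).filter (fun j : ℕ => j ∈ D))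
    have h7 := h3 ({0} : Finset ℕ) (((Finset.range J).filter (fun j : ℕ => j ∈ D)).image (fun j => j + 1))
    have h8 := h3 ({J - 1} : Finset ℕ) (((Finset.range J).filter (fun j : ℕ => j ∈ D)).image (fun j => j - 1))
    have h9 : ((Finset.range J).filter (fun j : ℕ => j ∈ D)).card = cD J := rfl
    rw [Finset.card_singleton] at h7 h8
    omega
  have hub : ∀ J : ℕ, cS J ≤ J := by
    intro J
    refine (Finset.card_filter_le _ _).trans ?_
    rw [Finset.card_range]
  have hlim : Tendsto (fun J : ℕ => 1 - (2 / (J : ℝ) + 3 * ((cD J : ℝ) / J))) atTop (𝓝 1) := by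
    have h1 : Tendsto (fun J : ℕ => (2 : ℝ) / (J : ℝ)) atTop (𝓝 0) :=
      tendsto_const_div_atTop_nhds_zero_nat 2
    have h2 := (h1.add (hD'.const_mul 3)).const_sub 1
    simpa using h2
  have hfin : Tendsto (fun J : ℕ => (cS J : ℝ) / J) atTop (𝓝 1) := by
    refine tendsto_of_tendsto_of_tendsto_of_le_of_le' hlim tendsto_const_nhds ?_ ?_
    · filter_upwards [eventually_gt_atTop 0] with J hJ
      have hJ' : (0 : ℝ) < J := by exact_mod_cast hJ
      have h1 : (J : ℝ) ≤ cS J + (2 + 3 * cD J) := by exact_mod_cast key J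
      rw [le_div_iff₀ hJ']
      have h2 : (1 - (2 / (J : ℝ) + 3 * ((cD J : ℝ) / J))) * J = J - (2 + 3 * cD J) := by
        field_simp
      rw [h2]
      linarith
    · filter_upwards [eventually_gt_atTop 0] with J hJ
      have hJ' : (0 : ℝ) < J := by exact_mod_cast hJ
      rw [div_le_one hJ']
      exact_mod_cast hub J
  refine hfin.congr fun J => ?_
  simp only [hcS]
  congr!

end FD

theorem p_FD (h1 : T_FC) (h2 : T_GC) (h3 : T_DEN) : T_FD := by
  classical
  intro iw
  obtain ⟨g2, gmono, -, -, -⟩ := h2 iw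
  -- the sets of bad scales
  have hδ : ∀ n : ℕ, ∃ δ : ℝ, 0 < δ ∧ Dens {j : ℕ | ∃ u : ℝ, (2 : ℝ) ^ j ≤ u ∧
      u < 2 ^ (j + 1) ∧ (1 + 1 / ((n : ℝ) + 1)) * g u < g ((1 + δ) * u)} 0 := by
    intro n
    obtain ⟨δ, hδ0, hδ⟩ := h1 iw (1 / ((n : ℝ) + 1)) (by positivity)
    refine ⟨δ, hδ0, ?_⟩
    unfold Dens
    refine hδ.congr fun J => ?_
    congr!
  choose δ hδ0 hδB using hδ
  obtain ⟨D, hD, hBD⟩ := h3 _ hδB
  refine ⟨_, FD.dens_good D hD, ?_⟩
  intro a b ha hb hab hS
  -- the two inequalities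
  have main : ∀ n : ℕ, ∀ᶠ x in atTop, g (a x) ≤ (1 + 1 / ((n : ℝ) + 1)) * g (b x) ∧
      g (b x) ≤ (1 + 1 / ((n : ℝ) + 1)) * g (a x) := by
    intro n
    obtain ⟨N, hN⟩ := hBD n
    set d : ℝ := min (δ n) 1 with hd
    have hd0 : 0 < d := lt_min (hδ0 n) one_pos
    have hlo : 1 / (1 + d) < (1 : ℝ) := by
      rw [div_lt_one (by linarith)]; linarith
    have hhi : (1 : ℝ) < 1 + d := by linarith
    have e1 := hab.eventually (lt_mem_nhds hlo)
    have e2 := hab.eventually (gt_mem_nhds hhi)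
    filter_upwards [hS, e1, e2, ha.eventually_ge_atTop 3, hb.eventually_ge_atTop 3,
      hb.eventually_ge_atTop ((2 : ℝ) ^ (N + 2))] with x hx x1 x2 xa xb xN
    obtain ⟨j, ⟨hj1, hjm, hj0, hjp⟩, hjb1, hjb2⟩ := hx
    have hb0 : 0 < b x := by linarith
    have ha0 : 0 < a x := by linarith
    have y2 : a x < (1 + d) * b x := by
      rw [div_lt_iff₀ hb0] at x2; exact x2
    have y1 : b x < (1 + d) * a x := by
      rw [div_lt_div_iff₀ (by linarith) hb0] at x1
      linarith
    have hdle : d ≤ δ n := min_le_left _ _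
    have hdle1 : d ≤ 1 := min_le_right _ _
    have y2' : a x ≤ (1 + δ n) * b x := by nlinarith
    have y1' : b x ≤ (1 + δ n) * a x := by nlinarith
    have hjN : N + 1 ≤ j := by
      by_contra hcon
      have h4 : j + 1 ≤ N + 2 := by omega
      have h5 : (2 : ℝ) ^ (j + 1) ≤ 2 ^ (N + 2) := pow_le_pow_right₀ (by norm_num) h4
      linarith
    constructor
    · by_contra hcon
      push Not at hcon
      have h4 : g (a x) ≤ g ((1 + δ n) * b x) :=
        gmono (show (3 : ℝ) ≤ a x from xa) (show (3 : ℝ) ≤ (1 + δ n) * b x from xa.trans y2') y2'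
      exact hj0 (hN j ⟨b x, hjb1, hjb2, lt_of_lt_of_le hcon h4⟩ (by omega))
    · by_contra hcon
      push Not at hcon
      have h4 : g (b x) ≤ g ((1 + δ n) * a x) :=
        gmono (show (3 : ℝ) ≤ b x from xb) (show (3 : ℝ) ≤ (1 + δ n) * a x from xb.trans y1') y1'
      have h5 := lt_of_lt_of_le hcon h4
      have hup : a x < 2 ^ (j + 2) := by
        have : (2 : ℝ) ^ (j + 2) = 2 * 2 ^ (j + 1) := by ring
        rw [this]; nlinarith
      have hlo2 : (2 : ℝ) ^ (j - 1) ≤ a x := by
        have : (2 : ℝ) ^ j = 2 * 2 ^ (j - 1) := by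
          rw [← pow_succ']; congr 1; omega
        nlinarith
      rcases lt_or_ge (a x) ((2 : ℝ) ^ j) with h6 | h6
      · refine hjm (hN (j - 1) ⟨a x, hlo2, ?_, h5⟩ (by omega))
        have : j - 1 + 1 = j := by omega
        rw [this]; exact h6
      rcases lt_or_ge (a x) ((2 : ℝ) ^ (j + 1)) with h7 | h7
      · exact hj0 (hN j ⟨a x, h6, h7, h5⟩ (by omega))
      · exact hjp (hN (j + 1) ⟨a x, h7, hup, h5⟩ (by omega))
  rw [Metric.tendsto_nhds]
  intro η hη
  obtain ⟨n, hn⟩ := exists_nat_one_div_lt hη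
  filter_upwards [main n, ha.eventually_ge_atTop 3, hb.eventually_ge_atTop 3] with x hx xa xb
  obtain ⟨hx1, hx2⟩ := hx
  have ga : 2 ≤ g (a x) := g2 _ xa
  have gb : 2 ≤ g (b x) := g2 _ xb
  have hn0 : 0 < 1 / ((n : ℝ) + 1) := by positivity
  have gb0 : 0 < g (b x) := by linarith
  rw [Real.dist_eq, abs_lt]
  constructor
  · have h4 : 1 - 1 / ((n : ℝ) + 1) ≤ g (a x) / g (b x) := by
      rw [le_div_iff₀ gb0]
      nlinarith [mul_nonneg hn0.le gb0.le, mul_nonneg hn0.le (show (0:ℝ) ≤ g (a x) by linarith),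
        mul_nonneg (mul_nonneg hn0.le hn0.le) gb0.le]
    linarith
  · have h4 : g (a x) / g (b x) ≤ 1 + 1 / ((n : ℝ) + 1) := by
      rw [div_le_iff₀ gb0]
      exact hx1
    linarith

end Pool.SieveG
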