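import Pool.Agent.Work.MP_0d108e_h29.Interface

/-!
# MP_0d108e_nt: block GB (first facts about g)
-/

namespace Pool.SieveG

open Filter Topology

theorem gb_cnt_le (a : ℕ → ℤ) {z z' : ℝ} (h : z ≤ z') (c d : ℤ) : cnt a z' c d ≤ cnt a z c d := by
  classical
  unfold cnt
  apply Finset.card_le_card
  intro n hn
  rw [Finset.mem_filter] at hn ⊢
  exact ⟨hn.1, fun p hp hz => hn.2 p hp (hz.trans h)⟩

theorem gb_W_mem (y : ℝ) : ∃ a : ℕ → ℤ, cnt a (lev y) 0 ⌊y⌋ = W y := by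
  have h : W y ∈ {k : ℕ | ∃ a : ℕ → ℤ, cnt a (lev y) 0 ⌊y⌋ = k} :=
    Nat.sInf_mem ⟨_, fun _ => 0, rfl⟩
  exact h

theorem gb_W_le (y : ℝ) (a : ℕ → ℤ) : W y ≤ cnt a (lev y) 0 ⌊y⌋ :=
  Nat.sInf_le ⟨a, rfl⟩

theorem gb_W_three : W 3 ≤ 4 := by
  classical
  refine (gb_W_le 3 (fun _ => 0)).trans ?_
  unfold cnt
  refine (Finset.card_filter_le _ _).trans ?_
  simp

theorem gb_lev_mono {x y : ℝ} (hx : 3 ≤ x) (hxy : x ≤ y) : lev x ≤ lev y := by
  unfold lev
  apply Real.sqrt_le_sqrt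
  have he : Real.exp 1 ≤ 3 := by
    have := Real.exp_one_lt_d9
    linarith
  have h := Real.log_div_self_antitoneOn (show x ∈ {x | Real.exp 1 ≤ x} from he.trans hx)
    (show y ∈ {x | Real.exp 1 ≤ x} from (he.trans hx).trans hxy) hxy
  have hlx : 0 < Real.log x := Real.log_pos (by linarith)
  have hly : 0 < Real.log y := Real.log_pos (by linarith)
  have hx0 : 0 < x := by linarith
  have hy0 : 0 < y := by linarith
  simp only at h
  rw [div_le_div_iff₀ hy0 hx0] at h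
  rw [div_le_div_iff₀ hlx hly]
  linarith

theorem gb_eventually (hI : Iw) (u : ℝ) : ∃ Y : ℝ, ∀ y : ℝ, Y ≤ y → u < (W y : ℝ) * Real.log y := by
  have h1 : ∀ᶠ y : ℝ in atTop, 1 ≤ (W y : ℝ) * Real.log y ^ 2 / y := hI.eventually_ge_atTop 1
  have h2 : ∀ᶠ y : ℝ in atTop, Real.log y ^ 2 ≤ y := by
    have h := (isLittleO_log_rpow_atTop (show (0 : ℝ) < 1 / 2 by norm_num)).bound
      (show (0 : ℝ) < 1 by norm_num)
    filter_upwards [h, eventually_ge_atTop (1 : ℝ)] with y hy hy1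
    have hl : 0 ≤ Real.log y := Real.log_nonneg hy1
    rw [Real.norm_of_nonneg hl, Real.norm_of_nonneg (Real.rpow_nonneg (by linarith) _), one_mul] at hy
    calc Real.log y ^ 2 ≤ (y ^ ((1 : ℝ) / 2)) ^ 2 := by gcongr
      _ = y := by
          rw [← Real.rpow_natCast, ← Real.rpow_mul (by linarith)]
          norm_num
  have h3 : ∀ᶠ y : ℝ in atTop, max u 0 + 1 ≤ Real.log y := Real.tendsto_log_atTop.eventually_ge_atTop _
  obtain ⟨Y, hY⟩ := eventually_atTop.1 ((h1.and (h2.and h3)).and (eventually_ge_atTop (1 : ℝ)))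
  refine ⟨Y, fun y hy => ?_⟩
  obtain ⟨⟨g1, g2, g3⟩, g4⟩ := hY y hy
  have hy0 : 0 < y := by linarith
  rw [le_div_iff₀ hy0, one_mul] at g1
  have hu : u < Real.log y := by
    have := le_max_left u 0
    linarith
  have hl : 0 < Real.log y := by
    have := le_max_right u 0
    linarith
  have h4 : Real.log y * Real.log y ≤ ((W y : ℝ) * Real.log y) * Real.log y := by nlinarith
  have h5 := le_of_mul_le_mul_right h4 hl
  linarith

theorem p_GB : T_GB := by
  intro hI u hu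
  obtain ⟨Y, hY⟩ := gb_eventually hI u
  have hB : BddAbove {y : ℝ | 2 ≤ y ∧ (W y : ℝ) * Real.log y ≤ u} := by
    refine ⟨Y, fun y hy => ?_⟩
    by_contra hc
    have := hY y (le_of_lt (not_le.1 hc))
    have := hy.2
    linarith
  have h3mem : (3 : ℝ) ∈ {y : ℝ | 2 ≤ y ∧ (W y : ℝ) * Real.log y ≤ u} := by
    refine ⟨by norm_num, ?_⟩
    have hW : (W 3 : ℝ) ≤ 4 := by exact_mod_cast gb_W_three
    have hlog : Real.log 3 ≤ 5 / 4 := by
      rw [Real.log_le_iff_le_exp (by norm_num)]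
      have h1 := Real.exp_one_gt_d9
      have h2 : (5 / 4 : ℝ) ≤ Real.exp (1 / 4) := by
        have := Real.add_one_le_exp (1 / 4 : ℝ)
        linarith
      have h3 : Real.exp (5 / 4) = Real.exp 1 * Real.exp (1 / 4) := by
        rw [← Real.exp_add]
        norm_num
      rw [h3]
      nlinarith
    have hl0 : 0 ≤ Real.log 3 := Real.log_nonneg (by norm_num)
    nlinarith
  have h3 : 3 ≤ g u := le_csSup hB h3mem
  have hgt : ∀ y : ℝ, g u < y → u < (W y : ℝ) * Real.log y := by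
    intro y hy
    by_contra hc
    have hmem : y ∈ {y : ℝ | 2 ≤ y ∧ (W y : ℝ) * Real.log y ≤ u} := ⟨by linarith, not_lt.1 hc⟩
    have : y ≤ g u := le_csSup hB hmem
    linarith
  refine ⟨hB, h3, hgt, ?_, ?_⟩
  · by_contra hc
    rw [not_le] at hc
    have hcont : ContinuousAt (fun y : ℝ => (W (g u) : ℝ) * Real.log y) (g u) :=
      continuousAt_const.mul (Real.continuousAt_log (by linarith))
    have he : ∀ᶠ y in 𝓝 (g u), (W (g u) : ℝ) * Real.log y < u := hcont.eventually_lt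
      continuousAt_const hc
    have he2 : ∀ᶠ y in 𝓝[>] (g u), (W (g u) : ℝ) * Real.log y < u := he.filter_mono nhdsWithin_le_nhds
    have he3 : ∀ᶠ y in 𝓝[>] (g u), y ∈ Set.Ioo (g u) (⌊g u⌋ + 1 : ℝ) :=
      Ioo_mem_nhdsGT (Int.lt_floor_add_one _)
    obtain ⟨y, hy1, hy2, hy3⟩ := (he2.and he3).exists
    have hfl : ⌊y⌋ = ⌊g u⌋ := by
      rw [Int.floor_eq_iff]
      exact ⟨(Int.floor_le _).trans hy2.le, hy3⟩
    have hW : W y ≤ W (g u) := by
      obtain ⟨a, ha⟩ := gb_W_mem (g u)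
      rw [← ha]
      refine (gb_W_le y a).trans ?_
      rw [hfl]
      exact gb_cnt_le a (gb_lev_mono h3 hy2.le) _ _
    have hWr : (W y : ℝ) ≤ W (g u) := by exact_mod_cast hW
    have hly : 0 ≤ Real.log y := Real.log_nonneg (by linarith)
    have h := hgt y hy2
    nlinarith
  · intro y0 hy0
    obtain ⟨y, hy, hlt⟩ := exists_lt_of_lt_csSup ⟨3, h3mem⟩ hy0
    exact ⟨y, hlt, le_csSup hB hy, hy.1, hy.2⟩

end Pool.SieveG
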