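import Pool.Agent.Work.MP_0d108e_h29.Interface

/-!
# GC: growth and monotonicity of `g`
-/

set_option autoImplicit false

namespace Pool.SieveG

open Filter Topology

theorem GC_W_le (y : ℝ) (hy : 0 ≤ y) : (W y : ℝ) ≤ y + 1 := by
  have h1 : W y ≤ cnt (fun _ => 0) (lev y) 0 ⌊y⌋ := Nat.sInf_le ⟨fun _ => 0, rfl⟩
  have h2 : cnt (fun _ => 0) (lev y) 0 ⌊y⌋ ≤ (⌊y⌋ + 1).toNat := by
    classical
    unfold cnt
    refine (Finset.card_filter_le _ _).trans ?_
    rw [Int.card_Icc, sub_zero]
  have h3 : 0 ≤ ⌊y⌋ := Int.floor_nonneg.2 hy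
  have h4 : (((⌊y⌋ + 1).toNat : ℕ) : ℝ) = (⌊y⌋ : ℝ) + 1 := by
    have h5 : (((⌊y⌋ + 1).toNat : ℕ) : ℤ) = ⌊y⌋ + 1 := Int.toNat_of_nonneg (by omega)
    exact_mod_cast h5
  have h6 : (W y : ℝ) ≤ (((⌊y⌋ + 1).toNat : ℕ) : ℝ) := by exact_mod_cast h1.trans h2
  rw [h4] at h6
  linarith [Int.floor_le y]

theorem p_GC (hGB : T_GB) : T_GC := by
  intro hI
  have hbdd : ∀ u : ℝ, BddAbove {y : ℝ | 2 ≤ y ∧ (W y : ℝ) * Real.log y ≤ u} := by
    intro u
    refine (hGB hI (max u 5) (le_max_right _ _)).1.mono ?_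
    rintro y ⟨h1, h2⟩
    exact ⟨h1, h2.trans (le_max_left _ _)⟩
  have hset : ∀ u y : ℝ, 2 ≤ y → (y + 1) * Real.log y ≤ u →
      y ∈ {y : ℝ | 2 ≤ y ∧ (W y : ℝ) * Real.log y ≤ u} := by
    intro u y h2 h3
    refine ⟨h2, le_trans ?_ h3⟩
    exact mul_le_mul_of_nonneg_right (GC_W_le y (by linarith)) (Real.log_nonneg (by linarith))
  have hmem : ∀ u y : ℝ, 2 ≤ y → (y + 1) * Real.log y ≤ u → y ≤ g u :=
    fun u y h2 h3 => le_csSup (hbdd u) (hset u y h2 h3)
  have h3u : ∀ u : ℝ, 3 ≤ u → ((2 : ℝ) + 1) * Real.log 2 ≤ u := by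
    intro u hu
    have := Real.log_two_lt_d9
    linarith
  have htend : Tendsto g atTop atTop := by
    refine tendsto_atTop.2 fun B => ?_
    filter_upwards [eventually_ge_atTop ((max B 2 + 1) * Real.log (max B 2))] with u hu
    exact (le_max_left B 2).trans (hmem u (max B 2) (le_max_right _ _) hu)
  refine ⟨fun u hu => hmem u 2 le_rfl (h3u u hu), ?_, htend, ?_, ?_⟩
  · intro u hu v hv huv
    refine csSup_le_csSup (hbdd v) ⟨2, hset u 2 le_rfl (h3u u hu)⟩ ?_
    rintro y ⟨h1, h2⟩
    exact ⟨h1, h2.trans huv⟩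
  · have hl := Real.isLittleO_log_id_atTop.bound (c := 1 / 4) (by norm_num)
    have h1 : ∀ᶠ u : ℝ in atTop, 1 ≤ Real.log u := Real.tendsto_log_atTop.eventually_ge_atTop 1
    filter_upwards [hl, h1, eventually_ge_atTop (3 : ℝ)] with u h2 h3 h4
    rw [Real.norm_of_nonneg (by linarith), id, Real.norm_of_nonneg (by linarith)] at h2
    have hlu : 0 < Real.log u := by linarith
    have hy2 : 2 ≤ u / (2 * Real.log u) := by
      rw [le_div_iff₀ (by positivity)]
      linarith
    have hyu : u / (2 * Real.log u) ≤ u := div_le_self (by linarith) (by linarith)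
    refine hmem u _ hy2 ?_
    have h5 : Real.log (u / (2 * Real.log u)) ≤ Real.log u :=
      Real.log_le_log (by linarith) hyu
    calc (u / (2 * Real.log u) + 1) * Real.log (u / (2 * Real.log u))
        ≤ (u / (2 * Real.log u) + 1) * Real.log u :=
          mul_le_mul_of_nonneg_left h5 (by linarith)
      _ = u / 2 + Real.log u := by
          field_simp
      _ ≤ u := by linarith
  · obtain ⟨Y0, hY0⟩ := eventually_atTop.1 (hI.eventually_ge_atTop 1)
    have h1 : ∀ᶠ u : ℝ in atTop, 2 ≤ Real.log u := Real.tendsto_log_atTop.eventually_ge_atTop 2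
    filter_upwards [h1, eventually_ge_atTop (3 : ℝ), eventually_ge_atTop Y0] with u h2 h3 h4
    have hL3 : 1 ≤ Real.log u ^ 3 := one_le_pow₀ (by linarith)
    have hbig : u ≤ u * Real.log u ^ 3 := by nlinarith
    refine csSup_le ⟨2, hset u 2 le_rfl (h3u u h3)⟩ ?_
    rintro y ⟨hy2, hyu⟩
    by_cases hy : y < Y0
    · linarith
    push Not at hy
    have hy0 : 0 < y := by linarith
    have h5 := hY0 y hy
    rw [le_div_iff₀ hy0, one_mul] at h5
    have hly : 0 ≤ Real.log y := Real.log_nonneg (by linarith)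
    have h6 : y ≤ u * Real.log y := by
      refine h5.trans ?_
      rw [pow_two, ← mul_assoc]
      exact mul_le_mul_of_nonneg_right hyu hly
    have hs : 0 < Real.sqrt y := Real.sqrt_pos.2 hy0
    have h7 : Real.log y ≤ 2 * Real.sqrt y := by
      have h8 := Real.log_le_sub_one_of_pos hs
      rw [Real.log_sqrt hy0.le] at h8
      linarith
    have h9 : Real.sqrt y ≤ 2 * u := by
      have h10 : Real.sqrt y * Real.sqrt y = y := Real.mul_self_sqrt hy0.le
      have h11 : Real.sqrt y * Real.sqrt y ≤ (2 * u) * Real.sqrt y := by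
        rw [h10]
        refine h6.trans ?_
        have := mul_le_mul_of_nonneg_left h7 (show 0 ≤ u by linarith)
        linarith
      exact le_of_mul_le_mul_right h11 hs
    have h12 : y ≤ (2 * u) ^ 2 := by
      have h10 : Real.sqrt y ^ 2 = y := Real.sq_sqrt hy0.le
      rw [← h10]
      exact pow_le_pow_left₀ hs.le h9 2
    have h13 : Real.log y ≤ 2 * (Real.log 2 + Real.log u) := by
      refine (Real.log_le_log hy0 h12).trans ?_
      rw [Real.log_pow, Real.log_mul (by norm_num) (by linarith)]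
      push_cast
      exact le_rfl
    have h14 : Real.log 2 ≤ 1 := by
      have := Real.log_two_lt_d9
      linarith
    have h15 : Real.log y ≤ Real.log u ^ 3 := by
      have h16 : 4 ≤ Real.log u ^ 2 := by nlinarith
      have h17 : 4 * Real.log u ≤ Real.log u ^ 3 := by
        have : Real.log u ^ 3 = Real.log u ^ 2 * Real.log u := by ring
        rw [this]
        exact mul_le_mul_of_nonneg_right h16 (by linarith)
      linarith
    exact h6.trans (mul_le_mul_of_nonneg_left h15 (by linarith))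

end Pool.SieveG
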