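import Pool.Agent.Work.MP_0d108e_h29.Interface
import Pool.Agent.Work.MP_0b7501_nt.BT

/-!
# MP_0d108e_nt: block LEV (level change)
-/

namespace Pool.SieveG

open Filter Topology

open Classical in
theorem lev_translate (a : ℕ → ℤ) (s : ℝ) (c : ℤ) : W s ≤ cnt a (lev s) c (c + ⌊s⌋) := by
  have h1 : W s ≤ cnt (fun p => a p - c) (lev s) 0 ⌊s⌋ := Nat.sInf_le ⟨_, rfl⟩
  refine h1.trans ?_
  unfold cnt
  refine Finset.card_le_card_of_injOn (fun n => n + c) ?_ ?_
  · intro n hn
    simp only [Finset.coe_filter, Set.mem_ofPred_eq, Finset.mem_Icc] at hn ⊢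
    refine ⟨⟨by linarith [hn.1.1], by linarith [hn.1.2]⟩, fun p hp hz hd => hn.2 p hp hz ?_⟩
    have e : n - (a p - c) = n + c - a p := by ring
    rw [e]
    exact hd
  · intro x _ y _ hxy
    simpa using hxy

theorem lev_eventually : ∃ Y : ℝ, ∀ s : ℝ, Y ≤ s → 256 ≤ s ∧ 4 * Real.log s ≤ Real.sqrt s := by
  have h := (isLittleO_log_rpow_atTop (show (0 : ℝ) < 1 / 2 by norm_num)).bound
    (show (0 : ℝ) < 1 / 4 by norm_num)
  obtain ⟨Y, hY⟩ := eventually_atTop.1 (h.and (eventually_ge_atTop (256 : ℝ)))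
  refine ⟨Y, fun s hs => ?_⟩
  obtain ⟨h1, h2⟩ := hY s hs
  refine ⟨h2, ?_⟩
  have hl : 0 ≤ Real.log s := Real.log_nonneg (by linarith)
  rw [Real.norm_of_nonneg hl, Real.norm_of_nonneg (Real.rpow_nonneg (by linarith) _)] at h1
  rw [Real.sqrt_eq_rpow]
  linarith

open Classical in
theorem p_LEV (hC : T_CLS) : T_LEV := by
  intro Λ hΛ
  obtain ⟨Y, hY⟩ := lev_eventually
  refine ⟨71680 * Λ, max Y 2, by linarith, le_max_right _ _, ?_⟩
  intro s t hs hst ht a c
  obtain ⟨hs256, hlogs⟩ := hY s ((le_max_left _ _).trans hs)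
  have hs0 : 0 < s := by linarith
  have ht0 : 0 < t := by linarith
  have hlog1 : 1 ≤ Real.log s := by
    rw [Real.le_log_iff_exp_le hs0]
    have := Real.exp_one_lt_d9
    linarith
  have hlog0 : 0 < Real.log s := by linarith
  have hlogt : Real.log s ≤ Real.log t := Real.log_le_log hs0 hst
  have hlogt0 : 0 < Real.log t := by linarith
  -- the level of s
  obtain ⟨L, hL⟩ : ∃ L : ℝ, L = lev s := ⟨_, rfl⟩
  obtain ⟨Q, hQ⟩ : ∃ Q : ℝ, Q = Real.sqrt s := ⟨_, rfl⟩
  obtain ⟨q, hq⟩ : ∃ q : ℝ, q = Real.sqrt Q := ⟨_, rfl⟩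
  have hQ0 : 0 ≤ Q := by rw [hQ]; exact Real.sqrt_nonneg _
  have hq0 : 0 ≤ q := by rw [hq]; exact Real.sqrt_nonneg _
  have hQ2 : Q * Q = s := by rw [hQ]; exact Real.mul_self_sqrt hs0.le
  have hq2 : q * q = Q := by rw [hq]; exact Real.mul_self_sqrt hQ0
  have hQ16 : 16 ≤ Q := by nlinarith
  have hq4 : 4 ≤ q := by nlinarith
  have hL0 : 0 ≤ L := by rw [hL]; exact Real.sqrt_nonneg _
  have hL2 : L * L * Real.log s = s := by
    rw [hL]
    unfold lev
    rw [Real.mul_self_sqrt (by positivity)]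
    field_simp
  have hlQ : 4 * Real.log s ≤ Q := by rw [hQ]; exact hlogs
  have hLq : 2 * q ≤ L := by
    by_contra hc
    rw [not_le] at hc
    have h1 : L * L < 4 * Q := by nlinarith
    have h2 : L * L * Real.log s < 4 * Q * Real.log s := by nlinarith
    nlinarith
  -- the level of t
  obtain ⟨T, hT⟩ : ∃ T : ℝ, T = lev t := ⟨_, rfl⟩
  have hT0 : 0 ≤ T := by rw [hT]; exact Real.sqrt_nonneg _
  have hT2 : T * T * Real.log t = t := by
    rw [hT]
    unfold lev
    rw [Real.mul_self_sqrt (by positivity)]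
    field_simp
  have hTL : T ≤ Λ * L := by
    by_contra hc
    rw [not_le] at hc
    have h0 : 0 ≤ Λ * L := by positivity
    have h1 : Λ * L * (Λ * L) < T * T := by nlinarith
    have h2 : Λ * L * (Λ * L) * Real.log s < T * T * Real.log t := by
      have h3 : Λ * L * (Λ * L) * Real.log s < T * T * Real.log s := by nlinarith
      have h4 : T * T * Real.log s ≤ T * T * Real.log t := by
        apply mul_le_mul_of_nonneg_left hlogt
        positivity
      linarith
    have h5 : Λ * L * (Λ * L) * Real.log s = Λ * (Λ * s) := by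
      calc Λ * L * (Λ * L) * Real.log s = Λ * (Λ * (L * L * Real.log s)) := by ring
        _ = Λ * (Λ * s) := by rw [hL2]
    rw [h5, hT2] at h2
    have h6 : Λ * s ≤ Λ * (Λ * s) := by
      have : 0 ≤ Λ * s := by positivity
      nlinarith
    linarith
  have hLT : L ≤ T := by
    rw [hL, hT]
    unfold lev
    apply Real.sqrt_le_sqrt
    have he : Real.exp 1 ≤ s := by
      have := Real.exp_one_lt_d9
      linarith
    have h := Real.log_div_self_antitoneOn (show s ∈ {x | Real.exp 1 ≤ x} from he)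
      (show t ∈ {x | Real.exp 1 ≤ x} from he.trans hst) hst
    simp only at h
    rw [div_le_div_iff₀ ht0 hs0] at h
    rw [div_le_div_iff₀ hlog0 hlogt0]
    linarith
  -- R and M
  obtain ⟨R, hR⟩ : ∃ R : ℕ, R = ⌊q⌋₊ := ⟨_, rfl⟩
  obtain ⟨M, hM⟩ : ∃ M : ℕ, M = ⌊T⌋₊ := ⟨_, rfl⟩
  have hR1 : 1 ≤ R := by
    rw [hR]
    exact Nat.le_floor (by push_cast; linarith)
  have hRq : (R : ℝ) ≤ q := by rw [hR]; exact Nat.floor_le hq0
  have hqR : q < (R : ℝ) + 1 := by rw [hR]; exact Nat.lt_floor_add_one _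
  have hMT : (M : ℝ) ≤ T := by rw [hM]; exact Nat.floor_le hT0
  have hTM : T < (M : ℝ) + 1 := by rw [hM]; exact Nat.lt_floor_add_one _
  have hMq : q ≤ (M : ℝ) := by linarith
  have hlogq : Real.log q = Real.log s / 4 := by
    rw [hq, Real.log_sqrt hQ0, hQ, Real.log_sqrt hs0.le]
    ring
  have hlogR : Real.log s / 4 ≤ Real.log ((R : ℝ) + 1) := by
    rw [← hlogq]
    exact Real.log_le_log (by linarith) hqR.le
  have hlogM : Real.log s / 4 ≤ Real.log M := by
    rw [← hlogq]
    exact Real.log_le_log (by linarith) hMq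
  have hM2 : 2 ≤ M := by
    have : (2 : ℝ) ≤ M := by linarith
    exact_mod_cast this
  -- the primes between the levels
  obtain ⟨P, hP⟩ : ∃ P : Finset ℕ, P = (Finset.range (M + 1)).filter
    (fun p : ℕ => p.Prime ∧ L < (p : ℝ)) := ⟨_, rfl⟩
  have hPcard : (P.card : ℝ) ≤ 280 * Λ * L / Real.log s := by
    have h1 : P.card ≤ ((Finset.Ioc 0 (0 + M)).filter Nat.Prime).card := by
      apply Finset.card_le_card
      intro p hp
      rw [hP, Finset.mem_filter, Finset.mem_range] at hp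
      rw [Finset.mem_filter, Finset.mem_Ioc]
      exact ⟨⟨hp.2.1.pos, by omega⟩, hp.2.1⟩
    have h2 := Pool.Agent.Work.MP_0b7501_nt.brun_titchmarsh 0 M hM2
    have h3 : (P.card : ℝ) ≤ (((Finset.Ioc 0 (0 + M)).filter Nat.Prime).card : ℝ) := by
      exact_mod_cast h1
    refine h3.trans (h2.trans ?_)
    have hlM0 : 0 < Real.log M := by linarith
    rw [div_le_div_iff₀ hlM0 hlog0]
    have h4 : (M : ℝ) ≤ Λ * L := hMT.trans hTL
    have h5 : 0 ≤ Λ * L := by positivity
    calc 70 * (M : ℝ) * Real.log s ≤ 70 * (Λ * L) * Real.log s := by gcongr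
      _ ≤ 70 * (Λ * L) * (4 * Real.log M) := by
          apply mul_le_mul_of_nonneg_left _ (by positivity)
          linarith
      _ = 280 * Λ * L * Real.log M := by ring
  -- the bad sets
  obtain ⟨B, hB⟩ : ∃ B : ℕ → Finset ℤ, B = fun p : ℕ => (Finset.Icc c (c + ⌊s⌋)).filter
    (fun n => (p : ℤ) ∣ n - a p ∧ ∀ q : ℕ, q.Prime → q ≤ R → ¬ ((q : ℤ) ∣ n - a q)) := ⟨_, rfl⟩
  have hBcard : ∀ p ∈ P, ((B p).card : ℝ) ≤ 256 * L := by
    intro p hp
    rw [hP, Finset.mem_filter, Finset.mem_range] at hp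
    obtain ⟨-, hpp, hLp⟩ := hp
    have hRp : R < p := by
      have : (R : ℝ) < p := by linarith
      exact_mod_cast this
    have h1 := hC a p c (a p) s R hpp hR1 hRp hs0.le
    have h2 : ((B p).card : ℝ) * (Real.log (R + 1) / 2) ≤ 16 * max (s / p + 1) ((R : ℝ) ^ 2) := by
      rw [hB]
      convert h1 using 4
    have hp0 : (0 : ℝ) < p := by linarith
    have hLlog : Q ≤ L * Real.log s := by
      have h0 : 0 ≤ L * Real.log s := by positivity
      rw [hQ, Real.sqrt_le_left h0]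
      nlinarith
    have h3 : s / p ≤ L * Real.log s := by
      rw [div_le_iff₀ hp0]
      have h0 : 0 ≤ L * Real.log s := by positivity
      nlinarith
    have h4 : max (s / p + 1) ((R : ℝ) ^ 2) ≤ 2 * (L * Real.log s) := by
      apply max_le
      · nlinarith
      · have : (R : ℝ) ^ 2 ≤ Q := by
          rw [← hq2, sq]
          exact mul_le_mul hRq hRq (by positivity) hq0
        nlinarith
    have h5 : ((B p).card : ℝ) * (Real.log s / 8) ≤ 32 * (L * Real.log s) := by
      have h6 : ((B p).card : ℝ) * (Real.log s / 8) ≤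
          ((B p).card : ℝ) * (Real.log (R + 1) / 2) := by
        apply mul_le_mul_of_nonneg_left _ (by positivity)
        linarith
      linarith
    have h7 : ((B p).card : ℝ) * Real.log s ≤ (256 * L) * Real.log s := by nlinarith
    exact le_of_mul_le_mul_right h7 hlog0
  -- the inclusion
  have hsub : cnt a (lev s) c (c + ⌊s⌋) ≤ cnt a (lev t) c (c + ⌊s⌋) + ∑ p ∈ P, (B p).card := by
    have h1 : (Finset.Icc c (c + ⌊s⌋)).filter
        (fun n => ∀ p : ℕ, p.Prime → (p : ℝ) ≤ lev s → ¬ ((p : ℤ) ∣ n - a p)) ⊆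
        (Finset.Icc c (c + ⌊s⌋)).filter
        (fun n => ∀ p : ℕ, p.Prime → (p : ℝ) ≤ lev t → ¬ ((p : ℤ) ∣ n - a p)) ∪ P.biUnion B := by
      intro n hn
      rw [Finset.mem_filter] at hn
      obtain ⟨hn1, hn2⟩ := hn
      rw [Finset.mem_union, Finset.mem_filter, Finset.mem_biUnion]
      by_cases h : ∀ p : ℕ, p.Prime → (p : ℝ) ≤ lev t → ¬ ((p : ℤ) ∣ n - a p)
      · exact Or.inl ⟨hn1, h⟩
      · right
        push Not at h
        obtain ⟨p, hpp, hpt, hpd⟩ := h
        refine ⟨p, ?_, ?_⟩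
        · rw [hP, Finset.mem_filter, Finset.mem_range]
          have hpM : p ≤ M := by
            rw [hM, hT]
            exact Nat.le_floor hpt
          refine ⟨by omega, hpp, ?_⟩
          by_contra hc
          rw [not_lt, hL] at hc
          exact hn2 p hpp hc hpd
        · rw [hB]
          simp only [Finset.mem_filter]
          refine ⟨hn1, hpd, fun r hr hrR => hn2 r hr ?_⟩
          have : (r : ℝ) ≤ R := by exact_mod_cast hrR
          rw [← hL]
          linarith
    unfold cnt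
    calc _ ≤ _ := Finset.card_le_card h1
      _ ≤ _ := Finset.card_union_le _ _
      _ ≤ _ := by
          gcongr
          exact Finset.card_biUnion_le
  have hsum : ((∑ p ∈ P, (B p).card : ℕ) : ℝ) ≤ P.card * (256 * L) := by
    push_cast
    calc ∑ p ∈ P, ((B p).card : ℝ) ≤ ∑ p ∈ P, 256 * L := Finset.sum_le_sum hBcard
      _ = P.card * (256 * L) := by rw [Finset.sum_const, nsmul_eq_mul]
  have hW : (W s : ℝ) ≤ cnt a (lev t) c (c + ⌊s⌋) + P.card * (256 * L) := by
    have h1 : (W s : ℝ) ≤ (cnt a (lev t) c (c + ⌊s⌋) + ∑ p ∈ P, (B p).card : ℕ) := by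
      exact_mod_cast (lev_translate a s c).trans hsub
    push_cast at h1 hsum
    linarith
  have hfin : (P.card : ℝ) * (256 * L) ≤ 71680 * Λ * s / Real.log s ^ 2 := by
    calc (P.card : ℝ) * (256 * L) ≤ 280 * Λ * L / Real.log s * (256 * L) := by
          apply mul_le_mul_of_nonneg_right hPcard (by positivity)
      _ = 71680 * Λ * (L * L * Real.log s) / Real.log s ^ 2 := by
          field_simp
          ring
      _ = 71680 * Λ * s / Real.log s ^ 2 := by rw [hL2]
  linarith

end Pool.SieveG
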