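import Pool.Agent.Work.MP_0d108e_h29.Interface4

/-!
# Block LOC: a jump of `W y log y` is a jump of the sequence `rr`
-/

set_option autoImplicit false

namespace Pool.SieveG

theorem LOC.min (y : ℝ) : ∃ a : ℕ → ℤ, cnt a (lev y) 0 ⌊y⌋ = W y :=
  Nat.sInf_mem (s := {k : ℕ | ∃ a : ℕ → ℤ, cnt a (lev y) 0 ⌊y⌋ = k}) ⟨_, fun _ => 0, rfl⟩

theorem LOC.mon (h : T_LEV) : ∃ C Y : ℝ, 0 < C ∧ 2 ≤ Y ∧ ∀ s t : ℝ, Y ≤ s → s ≤ t → t ≤ 2 * s →
    (W s : ℝ) ≤ W t + C * s / Real.log s ^ 2 := by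
  obtain ⟨C, Y, hC, hY, h⟩ := h 2 (by norm_num)
  refine ⟨C, Y, hC, hY, fun s t hs hst ht => ?_⟩
  obtain ⟨a, ha⟩ := LOC.min t
  have h1 := h s t hs hst ht a 0
  have h2 : cnt a (lev t) 0 (0 + ⌊s⌋) ≤ cnt a (lev t) 0 ⌊t⌋ := by
    classical
    unfold cnt
    apply Finset.card_le_card
    apply Finset.filter_subset_filter
    apply Finset.Icc_subset_Icc le_rfl
    rw [zero_add]
    exact Int.floor_le_floor hst
  rw [ha] at h2
  have h3 : (cnt a (lev t) 0 (0 + ⌊s⌋) : ℝ) ≤ W t := by exact_mod_cast h2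
  linarith

theorem p_LOC (h1 : T_SUP) (h2 : T_LEV) : T_LOC := by
  intro ε hε hε1
  obtain ⟨C1, Y1, hC1, hY1, hS⟩ := h1 (1 / ε) (by rw [le_div_iff₀ hε]; linarith)
  obtain ⟨C2, Y2, hC2, hY2, hM⟩ := LOC.mon h2
  obtain ⟨l, hl⟩ := pow_unbounded_of_one_lt (1 / ε) (one_lt_two : (1 : ℝ) < 2)
  obtain ⟨n0, hn0⟩ := pow_unbounded_of_one_lt (max Y1 Y2) (one_lt_two : (1 : ℝ) < 2)
  obtain ⟨M, hMdef⟩ : ∃ M : ℝ, M = 2 ^ l := ⟨_, rfl⟩
  have hM0 : 0 < M := by rw [hMdef]; positivity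
  obtain ⟨E, hE⟩ : ∃ E : ℝ, E = Real.exp (-2) := ⟨_, rfl⟩
  have hE0 : 0 < E := by rw [hE]; exact Real.exp_pos _
  rw [← hMdef] at hl
  refine ⟨E / (8 * M), by positivity, l, n0 + l,
    16 * M * C1 / E + 64 * C2 / E + 2 * C2 + 1, by positivity, ?_⟩
  intro j hj K hK y z hy1 hy2 hz1 hz2 hKy hWz
  rw [← hE]
  have hMY1 : Y1 < 2 ^ n0 := lt_of_le_of_lt (le_max_left _ _) hn0
  have hMY2 : Y2 < 2 ^ n0 := lt_of_le_of_lt (le_max_right _ _) hn0
  have p1 : 0 < 16 * M * C1 / E := by positivity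
  have p2 : 0 < 64 * C2 / E := by positivity
  have hKpos : 0 < K := by linarith
  have hK1 : 16 * M * C1 ≤ E * K := by
    have : 16 * M * C1 / E ≤ K := by linarith
    rwa [div_le_iff₀' hE0] at this
  have hK2 : 64 * C2 ≤ E * K := by
    have : 64 * C2 / E ≤ K := by linarith
    rwa [div_le_iff₀' hE0] at this
  have hK3 : 2 * C2 ≤ K := by linarith
  have hlε : 1 ≤ ε * M := by
    rw [div_lt_iff₀ hε] at hl
    linarith
  have hpj : (2 : ℝ) ^ n0 * M ≤ 2 ^ j := by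
    rw [hMdef, ← pow_add]
    exact pow_le_pow_right₀ (by norm_num) hj
  have hpj0 : (0 : ℝ) < 2 ^ j := by positivity
  have hy0 : 0 < y := by linarith
  obtain ⟨t, ht⟩ : ∃ t : ℝ, t = z - y := ⟨_, rfl⟩
  have hty : ε * y ≤ t := by rw [ht]; linarith
  have htn : (2 : ℝ) ^ n0 ≤ t := by
    calc (2 : ℝ) ^ n0 ≤ 2 ^ n0 * (ε * M) := le_mul_of_one_le_right (by positivity) hlε
      _ = ε * (2 ^ n0 * M) := by ring
      _ ≤ ε * y := by
        apply mul_le_mul_of_nonneg_left _ hε.le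
        linarith
      _ ≤ t := hty
  have ht1 : 1 ≤ t := le_trans (one_le_pow₀ (by norm_num)) htn
  have ht0 : 0 < t := by linarith
  have hyt : t ≤ y := by rw [ht]; linarith
  obtain ⟨m, hm1, hm2⟩ := exists_nat_pow_near ht1 (one_lt_two : (1 : ℝ) < 2)
  have hjm : j ≤ m + l := by
    have h3 : (2 : ℝ) ^ j < 2 ^ (m + 1 + l) := by
      calc (2 : ℝ) ^ j ≤ y := hy1
        _ ≤ y * (ε * M) := le_mul_of_one_le_right hy0.le hlε
        _ = (ε * y) * M := by ring
        _ ≤ t * M := mul_le_mul_of_nonneg_right hty hM0.le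
        _ < 2 ^ (m + 1) * M := mul_lt_mul_of_pos_right hm2 hM0
        _ = 2 ^ (m + 1 + l) := by rw [hMdef, ← pow_add]
    have h4 := (pow_lt_pow_iff_right₀ (one_lt_two : (1 : ℝ) < 2)).1 h3
    omega
  have hmj : m ≤ j := by
    have h3 : (2 : ℝ) ^ m < 2 ^ (j + 1) := by linarith
    have h4 := (pow_lt_pow_iff_right₀ (one_lt_two : (1 : ℝ) < 2)).1 h3
    omega
  have hmn : n0 ≤ m := by omega
  have hQn : (2 : ℝ) ^ n0 ≤ 2 ^ m := pow_le_pow_right₀ (by norm_num) hmn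
  have hL0 : 0 < Real.log y := Real.log_pos (by linarith)
  have hzy : y ≤ z := by linarith
  have hLz : Real.log y ≤ Real.log z := Real.log_le_log hy0 hzy
  -- the counts
  have hw0 : (0 : ℝ) ≤ W y := Nat.cast_nonneg _
  have hwz0 : (0 : ℝ) ≤ W z := Nat.cast_nonneg _
  have hWzy : (W z : ℝ) ≤ (1 + E / (8 * M)) * W y := by
    have h3 : (W z : ℝ) * Real.log y ≤ ((1 + E / (8 * M)) * W y) * Real.log y := by
      calc (W z : ℝ) * Real.log y ≤ W z * Real.log z := mul_le_mul_of_nonneg_left hLz hwz0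
        _ ≤ _ := hWz
        _ = _ := by ring
    exact le_of_mul_le_mul_right h3 hL0
  have hyL : y / Real.log y ^ 2 ≤ W y / K := by
    rw [div_le_div_iff₀ (by positivity) hKpos]
    linarith
  have hsup := hS y t (by linarith) (by linarith)
    (by rw [one_div, ← div_eq_inv_mul, le_div_iff₀ hε]; linarith)
    (by
      refine hyt.trans ?_
      rw [one_div, ← div_eq_inv_mul, le_div_iff₀ hε]
      exact mul_le_of_le_one_right hy0.le hε1.le)
  have hyz : y + t = z := by rw [ht]; ring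
  rw [hyz, mul_div_assoc] at hsup
  have hWt : (W t : ℝ) ≤ (E / (8 * M) + C1 / K) * W y := by
    have h3 : C1 * (y / Real.log y ^ 2) ≤ C1 * (W y / K) := mul_le_mul_of_nonneg_left hyL hC1.le
    have h4 : C1 * ((W y : ℝ) / K) = C1 / K * W y := by ring
    have h5 : (1 + E / (8 * M)) * (W y : ℝ) = W y + E / (8 * M) * W y := by ring
    have h6 : (E / (8 * M) + C1 / K) * (W y : ℝ) = E / (8 * M) * W y + C1 / K * W y := by ring
    linarith
  obtain ⟨P, hP⟩ : ∃ P : ℝ, P = 2 ^ (j + 1) := ⟨_, rfl⟩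
  obtain ⟨Q, hQ⟩ : ∃ Q : ℝ, Q = 2 ^ m := ⟨_, rfl⟩
  have hP0 : 0 < P := by rw [hP]; positivity
  have hQ0 : 0 < Q := by rw [hQ]; positivity
  have hPy : P ≤ 2 * y := by rw [hP, pow_succ]; linarith
  have hWP : (W y : ℝ) ≤ 2 * W P := by
    have h3 := hM y P (by linarith) (by rw [hP]; exact hy2.le) hPy
    rw [mul_div_assoc] at h3
    have h4 : C2 * (y / Real.log y ^ 2) ≤ C2 * (W y / K) := mul_le_mul_of_nonneg_left hyL hC2.le
    have h5 : C2 * ((W y : ℝ) / K) ≤ W y / 2 := by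
      rw [← mul_div_assoc, div_le_div_iff₀ hKpos (by norm_num)]
      have h6 := mul_le_mul_of_nonneg_right hK3 hw0
      linarith
    linarith
  have hWQ : (W Q : ℝ) ≤ W t + C2 * (Q / Real.log Q ^ 2) := by
    have h3 := hM Q t (by rw [hQ]; linarith) (by rw [hQ]; exact hm1)
      (by rw [hQ]; rw [pow_succ] at hm2; linarith)
    rwa [mul_div_assoc] at h3
  have hlog2 : (1 / 2 : ℝ) < Real.log 2 := by
    have := Real.log_two_gt_d9
    linarith
  have hlog2' : Real.log 2 < 1 := by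
    have := Real.log_two_lt_d9
    linarith
  have hm0 : 1 ≤ m := by
    by_contra h3
    have h4 : m = 0 := by omega
    rw [h4, pow_zero] at hQn
    linarith
  have hmR : (1 : ℝ) ≤ m := by exact_mod_cast hm0
  have hlogQ : Real.log Q = m * Real.log 2 := by rw [hQ, Real.log_pow]
  have hlogy : Real.log y ≤ (j : ℝ) + 1 := by
    have h3 : Real.log y ≤ Real.log P := Real.log_le_log hy0 (by rw [hP]; exact hy2.le)
    have h4 : Real.log P = ((j : ℝ) + 1) * Real.log 2 := by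
      rw [hP, Real.log_pow]; push_cast; ring
    have h5 : (0 : ℝ) ≤ (j : ℝ) + 1 := by positivity
    have h6 := mul_le_mul_of_nonneg_left hlog2'.le h5
    linarith
  obtain ⟨J, hJ⟩ : ∃ J : ℝ, J = (j : ℝ) + 1 := ⟨_, rfl⟩
  have hJ0 : 0 < J := by rw [hJ]; positivity
  have hmJ : (m : ℝ) ≤ J := by
    have : (m : ℝ) ≤ j := by exact_mod_cast hmj
    rw [hJ]; linarith
  have hR : rr (j + 1) = W P * J ^ 2 / P := by
    rw [rr, hP, hJ]; push_cast; ring
  have hRm : rr m = W Q * (m : ℝ) ^ 2 / Q := by rw [rr, hQ]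
  obtain ⟨R, hRdef⟩ : ∃ R : ℝ, R = rr (j + 1) := ⟨_, rfl⟩
  have hWPR : (W P : ℝ) * J ^ 2 = R * P := by
    rw [hRdef, hR]; field_simp
  have hRK : K / 4 ≤ R := by
    have h3 : K * y ≤ 2 * (R * P) := by
      calc K * y ≤ W y * Real.log y ^ 2 := hKy
        _ ≤ (2 * W P) * J ^ 2 := by
          apply mul_le_mul hWP _ (by positivity) (by positivity)
          rw [← hJ] at hlogy
          exact pow_le_pow_left₀ hL0.le hlogy 2
        _ = 2 * (R * P) := by rw [mul_assoc, hWPR]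
    have h4 : (K / 4) * P ≤ R * P := by
      have h5 := mul_le_mul_of_nonneg_left hPy hKpos.le
      linarith
    exact le_of_mul_le_mul_right h4 hP0
  have hR0 : 0 < R := by linarith
  refine ⟨by rw [← hRdef]; linarith, m, hjm, hmj, ?_⟩
  rw [← hRdef, hRm, div_le_iff₀ hQ0]
  have hPQ : P ≤ 2 * M * Q := by
    calc P = 2 ^ (j + 1) := hP
      _ ≤ 2 ^ (m + l + 1) := pow_le_pow_right₀ (by norm_num) (by omega)
      _ = 2 * M * Q := by rw [hMdef, hQ, pow_succ, pow_add]; ring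
  -- W y m^2 ≤ 4 M Q R
  have hA : (W y : ℝ) * (m : ℝ) ^ 2 ≤ 4 * M * Q * R := by
    calc (W y : ℝ) * (m : ℝ) ^ 2 ≤ (2 * W P) * J ^ 2 := by
          apply mul_le_mul hWP _ (by positivity) (by positivity)
          exact pow_le_pow_left₀ (by positivity) hmJ 2
      _ = 2 * R * P := by rw [mul_assoc, hWPR]; ring
      _ ≤ 2 * R * (2 * M * Q) := mul_le_mul_of_nonneg_left hPQ (by positivity)
      _ = _ := by ring
  have hB : C2 * (Q / Real.log Q ^ 2) * (m : ℝ) ^ 2 ≤ 4 * C2 * Q := by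
    rw [hlogQ]
    have h3 : C2 * (Q / (m * Real.log 2) ^ 2) * (m : ℝ) ^ 2 = C2 * Q / Real.log 2 ^ 2 := by
      have : (m : ℝ) ≠ 0 := by positivity
      field_simp
    rw [h3, div_le_iff₀ (by positivity)]
    have h4 : (1 : ℝ) ≤ 4 * Real.log 2 ^ 2 := by
      have h6 := pow_le_pow_left₀ (by norm_num) hlog2.le 2
      linarith
    have h5 : 0 < C2 * Q := by positivity
    have h7 := mul_le_mul_of_nonneg_left h4 h5.le
    linarith
  have hC : 4 * C2 ≤ E / 4 * R := by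
    have h3 := mul_le_mul_of_nonneg_left hRK hE0.le
    linarith
  have hD : C1 / K * (4 * M) ≤ E / 4 := by
    rw [div_mul_eq_mul_div, div_le_div_iff₀ hKpos (by norm_num)]
    linarith
  have hF : E / (8 * M) * (4 * M) = E / 2 := by field_simp; ring
  calc (W Q : ℝ) * (m : ℝ) ^ 2
      ≤ ((E / (8 * M) + C1 / K) * W y + C2 * (Q / Real.log Q ^ 2)) * (m : ℝ) ^ 2 := by
        apply mul_le_mul_of_nonneg_right _ (by positivity)
        linarith
    _ = (E / (8 * M) + C1 / K) * (W y * (m : ℝ) ^ 2) +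
          C2 * (Q / Real.log Q ^ 2) * (m : ℝ) ^ 2 := by ring
    _ ≤ (E / (8 * M) + C1 / K) * (4 * M * Q * R) + 4 * C2 * Q := by
        apply add_le_add _ hB
        exact mul_le_mul_of_nonneg_left hA (by positivity)
    _ = (E / (8 * M) * (4 * M) + C1 / K * (4 * M)) * (Q * R) + 4 * C2 * Q := by ring
    _ ≤ (E / 2 + E / 4) * (Q * R) + (E / 4 * R) * Q := by
        apply add_le_add
        · apply mul_le_mul_of_nonneg_right _ (by positivity)
          linarith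
        · exact mul_le_mul_of_nonneg_right hC hQ0.le
    _ = E * R * Q := by ring

end Pool.SieveG
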