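import Pool.Agent.Work.MP_0d108e_h29.Interface

/-! MP_0d108e_nt, block MULT (helper12). -/

namespace Pool.SieveG

open Filter Topology

/-- Block MULT. -/
theorem p_MULT (h : T_SUPE) : T_MULT := by
  intro hIw η k hη hη1 hk
  have hk0 : (0 : ℝ) < k := by exact_mod_cast hk
  have hk1 : (1 : ℝ) ≤ k := by exact_mod_cast hk
  obtain ⟨Y, hY2, hY⟩ := h hIw (η / k) k (div_pos hη hk0) hk1
  refine ⟨Y, hY2, fun s hs => ?_⟩
  have hs0 : 0 < s := by linarith
  have he0 : 0 < η / k := div_pos hη hk0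
  have he1 : η / k < 1 := by
    rw [div_lt_one hk0]; linarith
  have key : ∀ j : ℕ, 1 ≤ j → j ≤ k →
      (1 - ((j : ℝ) - 1) * (η / k)) * j * (W s : ℝ) ≤ W (j * s) := by
    intro j hj
    induction j, hj using Nat.le_induction with
    | base =>
      intro _
      simp
    | succ j hj ih =>
      intro hjk
      have h1 := ih (by omega)
      have hj1 : (1 : ℝ) ≤ j := by exact_mod_cast hj
      have hjk' : (j : ℝ) ≤ k := by exact_mod_cast (by omega : j ≤ k)
      have hW : (0 : ℝ) ≤ W s := Nat.cast_nonneg _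
      have hjs : s ≤ j * s := by nlinarith
      have hk10 : (0 : ℝ) ≤ (k : ℝ) - 1 := by linarith
      have hjs0 : (0 : ℝ) ≤ (j : ℝ) * s := by linarith
      have hks : s ≤ (k : ℝ) * (j * s) := by nlinarith [mul_nonneg hk10 hjs0]
      have h2 := hY (j * s) s (hs.trans hjs) hs (mul_le_mul_of_nonneg_right hjk' hs0.le) hks
      have h3 : (j : ℝ) * s + s = ((j + 1 : ℕ) : ℝ) * s := by push_cast; ring
      rw [h3] at h2
      refine le_trans ?_ h2
      have h4 : (1 - η / k) * ((1 - ((j : ℝ) - 1) * (η / k)) * j * (W s : ℝ) + W s) ≤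
          (1 - η / k) * ((W (j * s) : ℝ) + W s) :=
        mul_le_mul_of_nonneg_left (by linarith) (by linarith)
      refine le_trans ?_ h4
      have h5 : (1 - η / k) * ((1 - ((j : ℝ) - 1) * (η / k)) * j * (W s : ℝ) + W s) -
          (1 - (((j + 1 : ℕ) : ℝ) - 1) * (η / k)) * ((j + 1 : ℕ) : ℝ) * (W s : ℝ) =
          (((j : ℝ) - 1) * (η / k) ^ 2 * (j + 1) +
            (1 - η / k) * (((j : ℝ) - 1) * (η / k))) * (W s : ℝ) := by
        push_cast; ring
      have h6 : 0 ≤ (((j : ℝ) - 1) * (η / k) ^ 2 * (j + 1) +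
            (1 - η / k) * (((j : ℝ) - 1) * (η / k))) * (W s : ℝ) := by
        refine mul_nonneg (add_nonneg ?_ ?_) hW
        · have : 0 ≤ (j : ℝ) - 1 := by linarith
          positivity
        · exact mul_nonneg (by linarith) (mul_nonneg (by linarith) he0.le)
      linarith
  have h7 := key k hk le_rfl
  refine le_trans ?_ h7
  have h8 : (1 - η) ≤ (1 - ((k : ℝ) - 1) * (η / k)) := by
    have h9 : ((k : ℝ) - 1) * (η / k) = η - η / k := by
      field_simp
    rw [h9]; linarith
  exact mul_le_mul_of_nonneg_right (mul_le_mul_of_nonneg_right h8 hk0.le) (Nat.cast_nonneg _)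

end Pool.SieveG
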