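import Pool.Agent.Work.MP_0d108e_h29.Interface

set_option autoImplicit false

namespace Pool.SieveG

open Filter Topology

theorem p_PA (h1 : T_MULT) (h2 : T_GB) (h3 : T_GC) : T_PA := by
  intro hI η k hη hη1 hk
  obtain ⟨Y, hY, hm⟩ := h1 hI η k hη hη1 hk
  obtain ⟨-, -, hg, -, -⟩ := h3 hI
  have hk0 : (1 : ℝ) ≤ k := by exact_mod_cast hk
  have hc : 0 < (1 - η) * k := mul_pos (by linarith) (by linarith)
  filter_upwards [hg.eventually_ge_atTop Y, eventually_ge_atTop 5,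
    eventually_ge_atTop (5 / ((1 - η) * k))] with u hu1 hu2 hu3
  rw [div_le_iff₀ hc] at hu3
  have hU : 5 ≤ (1 - η) * k * u := by linarith
  obtain ⟨-, -, -, -, hb5⟩ := h2 hI _ hU
  obtain ⟨-, ha2, ha3, -, -⟩ := h2 hI u hu2
  by_contra hlt
  push Not at hlt
  obtain ⟨y2, hy1, -, hy3, hy4⟩ := hb5 _ hlt
  have hk' : (0 : ℝ) < k := by linarith
  have hy5 : g u < y2 / k := by
    rw [lt_div_iff₀ hk']
    linarith
  have hy6 := ha3 _ hy5
  have hy7 := hm (y2 / k) (by linarith)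
  rw [mul_div_cancel₀ _ hk'.ne'] at hy7
  have hy8 : Real.log (y2 / k) ≤ Real.log y2 := by
    apply Real.log_le_log (by linarith)
    exact div_le_self (by linarith) hk0
  have hy9 : 0 ≤ Real.log (y2 / k) := Real.log_nonneg (by linarith)
  have hW : (0 : ℝ) ≤ W y2 := Nat.cast_nonneg _
  have e1 : (1 - η) * k * u < (1 - η) * k * ((W (y2 / k) : ℝ) * Real.log (y2 / k)) :=
    mul_lt_mul_of_pos_left hy6 hc
  have e2 : (1 - η) * k * (W (y2 / k) : ℝ) * Real.log (y2 / k) ≤ W y2 * Real.log (y2 / k) :=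
    mul_le_mul_of_nonneg_right hy7 hy9
  have e3 : (W y2 : ℝ) * Real.log (y2 / k) ≤ W y2 * Real.log y2 :=
    mul_le_mul_of_nonneg_left hy8 hW
  have e4 : (1 - η) * k * ((W (y2 / k) : ℝ) * Real.log (y2 / k)) =
    (1 - η) * k * (W (y2 / k) : ℝ) * Real.log (y2 / k) := by ring
  linarith

end Pool.SieveG
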