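import Pool.Agent.Work.MP_0d108e_h29.Interface

/-!
# Block PB: a jump of `g` at `u` forces `g (2 δ u) ≥ ε g u`
-/

set_option autoImplicit false

namespace Pool.SieveG

open Filter Topology

theorem p_PB (h1 : T_SUPE) (h2 : T_GB) (h3 : T_GC) (h4 : T_PA) : T_PB := by
  intro hI ε δ hε hε1 hδ hδ1
  obtain ⟨-, hmono, htop, -, -⟩ := h3 hI
  have hΛ : (1 : ℝ) ≤ 1 / ε := by
    rw [le_div_iff₀ hε]
    linarith
  obtain ⟨Y, hY, hsup⟩ := h1 hI (δ / 4) (1 / ε) (by linarith) hΛ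
  have hPA := h4 hI (1 / 4) 2 (by norm_num) (by norm_num) (by norm_num)
  have hg : ∀ᶠ u in atTop, Y / ε ≤ g u := htop.eventually_ge_atTop (Y / ε)
  filter_upwards [hPA, hg, eventually_ge_atTop (5 : ℝ), eventually_ge_atTop (5 / (2 * δ))] with
    u hP hgu hu5 hu hjump
  have hu0 : 0 < u := by linarith
  have h2δ : 5 ≤ 2 * δ * u := by
    rw [div_le_iff₀ (by positivity)] at hu
    linarith
  have hδu : 5 ≤ (1 + δ) * u := by nlinarith
  obtain ⟨-, hy3, -, hyu, -⟩ := h2 hI u hu5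
  obtain ⟨hbd, -, -, -, hex⟩ := h2 hI ((1 + δ) * u) hδu
  obtain ⟨hbd2, -, -, -, -⟩ := h2 hI (2 * δ * u) h2δ
  obtain ⟨y2, hy2a, hy2b, hy22, hy2W⟩ := hex _ hjump
  set y := g u with hy
  have hYε : Y ≤ ε * y := by
    rw [div_le_iff₀ hε] at hgu
    linarith
  -- `y2 ≤ 2 y`
  have hy2le : y2 ≤ 2 * y := by
    have e1 : g ((1 + δ) * u) ≤ g ((1 - 1 / 4) * ((2 : ℕ) : ℝ) * u) := by
      refine hmono ?_ ?_ ?_
      · show (3 : ℝ) ≤ (1 + δ) * u
        linarith
      · show (3 : ℝ) ≤ (1 - 1 / 4) * ((2 : ℕ) : ℝ) * u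
        push_cast
        linarith
      · push_cast
        nlinarith
    have e2 : g ((1 - 1 / 4) * ((2 : ℕ) : ℝ) * u) ≤ 2 * y := by
      have := hP
      push_cast at this ⊢
      exact this
    linarith
  set t := y2 - y with ht
  have ht1 : ε * y ≤ t := by
    rw [ht]
    nlinarith
  have ht2 : t ≤ y := by
    rw [ht]
    linarith
  have hyY : Y ≤ y := by nlinarith
  have htY : Y ≤ t := by linarith
  have ht0 : 2 ≤ t := by linarith
  have hs := hsup y t hyY htY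
    (by
      rw [div_mul_eq_mul_div, one_mul, le_div_iff₀ hε]
      linarith)
    (by
      have : y ≤ 1 / ε * y := by nlinarith
      linarith)
  have hyt : y + t = y2 := by
    rw [ht]
    ring
  rw [hyt] at hs
  have hlog0 : 0 ≤ Real.log y2 := Real.log_nonneg (by linarith)
  have hlogy : Real.log y ≤ Real.log y2 := Real.log_le_log (by linarith) (by nlinarith)
  have hlogt : Real.log t ≤ Real.log y2 := Real.log_le_log (by linarith) (by linarith)
  have hWy : (0 : ℝ) ≤ (W y : ℝ) := Nat.cast_nonneg _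
  have hWt : (0 : ℝ) ≤ (W t : ℝ) := Nat.cast_nonneg _
  have k1 : (1 - δ / 4) * ((W y : ℝ) + W t) * Real.log y2 ≤ (W y2 : ℝ) * Real.log y2 :=
    mul_le_mul_of_nonneg_right hs hlog0
  have k2 : (W y : ℝ) * Real.log y ≤ (W y : ℝ) * Real.log y2 :=
    mul_le_mul_of_nonneg_left hlogy hWy
  have k3 : (W t : ℝ) * Real.log t ≤ (W t : ℝ) * Real.log y2 :=
    mul_le_mul_of_nonneg_left hlogt hWt
  have k4 : (1 - δ / 4) * (u + (W t : ℝ) * Real.log t) ≤ (1 + δ) * u := by
    have k5 : u + (W t : ℝ) * Real.log t ≤ ((W y : ℝ) + W t) * Real.log y2 := by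
      rw [add_mul]
      linarith
    have k6 : 0 ≤ 1 - δ / 4 := by linarith
    have k7 := mul_le_mul_of_nonneg_left k5 k6
    calc (1 - δ / 4) * (u + (W t : ℝ) * Real.log t)
        ≤ (1 - δ / 4) * (((W y : ℝ) + W t) * Real.log y2) := k7
      _ = (1 - δ / 4) * ((W y : ℝ) + W t) * Real.log y2 := by ring
      _ ≤ (1 + δ) * u := le_trans k1 hy2W
  have k8 : (W t : ℝ) * Real.log t ≤ 2 * δ * u := by
    by_contra hcon
    push Not at hcon
    have k9 : (1 - δ / 4) * (2 * δ * u) < (1 - δ / 4) * ((W t : ℝ) * Real.log t) :=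
      mul_lt_mul_of_pos_left hcon (by linarith)
    have k10 : 0 < δ * u := by positivity
    nlinarith
  have hfin : t ≤ g (2 * δ * u) := le_csSup hbd2 ⟨ht0, k8⟩
  linarith

end Pool.SieveG
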