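import Pool.Agent.Work.MP_0d108e_h29.Interface4

/-!
# Block SEQ: counting of upward jumps
-/

namespace Pool.SieveG

open Filter Topology

namespace BSEQ

lemma step (K2 C a b : ℝ) (hC : 0 < C) (hK : 2 * C ≤ K2) (h : a - C ≤ b) :
    Real.log (max a K2) - 2 * C / K2 ≤ Real.log (max b K2) := by
  have hK0 : 0 < K2 := by linarith
  have ha : 0 < max a K2 := lt_of_lt_of_le hK0 (le_max_right _ _)
  have hx : C / K2 ≤ 1 / 2 := by
    rw [div_le_div_iff₀ hK0 (by norm_num)]; linarith
  have hx0 : 0 ≤ C / K2 := by positivity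
  have h1 : max a K2 * (1 - C / K2) ≤ max b K2 := by
    rcases le_total a K2 with h2 | h2
    · rw [max_eq_right h2]
      have h3 : K2 * (1 - C / K2) ≤ K2 := by
        have : 0 ≤ K2 * (C / K2) := by positivity
        linarith
      exact h3.trans (le_max_right _ _)
    · rw [max_eq_left h2]
      have h3 : C ≤ a * (C / K2) := by
        rw [mul_div_assoc', le_div_iff₀ hK0, mul_comm a C]
        exact mul_le_mul_of_nonneg_left h2 hC.le
      have h4 : a * (1 - C / K2) ≤ a - C := by linarith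
      exact (h4.trans h).trans (le_max_left _ _)
  have hp : 0 < 1 - C / K2 := by linarith
  have h2 : Real.log (max a K2) + Real.log (1 - C / K2) ≤ Real.log (max b K2) := by
    rw [← Real.log_mul ha.ne' hp.ne']
    exact Real.log_le_log (mul_pos ha hp) h1
  have h3 : -(2 * C / K2) ≤ Real.log (1 - C / K2) := by
    have h4 := Real.one_sub_inv_le_log_of_pos hp
    have h5 : (1 - C / K2)⁻¹ ≤ 1 + 2 * (C / K2) := by
      rw [inv_eq_one_div, div_le_iff₀ hp]
      nlinarith
    have h6 : 2 * C / K2 = 2 * (C / K2) := by ring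
    linarith
  linarith

lemma window (lam : ℕ → ℝ) (θ : ℝ) (i0 : ℕ) (h : ∀ i, i0 ≤ i → lam i - θ ≤ lam (i + 1))
    (i : ℕ) (hi : i0 ≤ i) (s : ℕ) : lam i - s * θ ≤ lam (i + s) := by
  induction s with
  | zero => simp
  | succ s ih =>
    have h1 := h (i + s) (by omega)
    rw [← add_assoc]
    push_cast
    linarith

open Classical in
lemma pot (T : ℕ → ℝ) (P : ℕ → Prop) (i0 : ℕ) (η : ℝ)
    (h1 : ∀ j, i0 ≤ j → T j - η ≤ T (j + 1)) (h2 : ∀ j, i0 ≤ j → P j → T j + 1 - η ≤ T (j + 1))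
    (N : ℕ) : (((Finset.range (i0 + N)).filter (fun j => i0 ≤ j ∧ P j)).card : ℝ) ≤
      T (i0 + N) - T i0 + N * η := by
  induction N with
  | zero =>
    have e : (Finset.range (i0 + 0)).filter (fun j => i0 ≤ j ∧ P j) = ∅ := by
      rw [Finset.filter_eq_empty_iff]
      intro j hj h
      have := Finset.mem_range.1 hj
      omega
    rw [e]
    simp
  | succ N ih =>
    rw [← add_assoc, Finset.range_add_one, Finset.filter_insert]
    have hle : i0 ≤ i0 + N := by omega
    split_ifs with hP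
    · have h3 := h2 (i0 + N) hle hP.2
      have h4 : ((insert (i0 + N) ((Finset.range (i0 + N)).filter
          (fun j => i0 ≤ j ∧ P j))).card : ℝ) ≤
          (((Finset.range (i0 + N)).filter (fun j => i0 ≤ j ∧ P j)).card : ℝ) + 1 := by
        exact_mod_cast Finset.card_insert_le _ _
      push_cast
      linarith
    · have h3 := h1 (i0 + N) hle
      push_cast
      linarith

end BSEQ

open BSEQ in
open Classical in
theorem p_SEQ : T_SEQ := by
  rintro r hr ⟨C, hC, i0, hstep⟩ l κ hκ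
  obtain ⟨K2, hK2⟩ : ∃ K2 : ℝ, K2 = 1 + 2 * C * (l + 1) * (1 + 2 / κ) := ⟨_, rfl⟩
  have hl1 : (0 : ℝ) < (l : ℝ) + 1 := by positivity
  have hκ2 : 0 < 2 / κ := by positivity
  have hprod : 0 < 2 * C * (l + 1) := by positivity
  have hK2a : 2 * C * (l + 1) * (1 + 2 / κ) ≤ K2 := by linarith
  have hK21 : 1 ≤ K2 := by
    have : 0 < 2 * C * (l + 1) * (1 + 2 / κ) := by positivity
    linarith
  have hK20 : 0 < K2 := by linarith
  have hK2C : 2 * C ≤ K2 := by
    have h1 : 2 * C * 1 ≤ 2 * C * ((l + 1) * (1 + 2 / κ)) := by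
      refine mul_le_mul_of_nonneg_left ?_ (by positivity)
      have h2 : (1 : ℝ) ≤ (l : ℝ) + 1 := by
        have : (0 : ℝ) ≤ l := Nat.cast_nonneg _
        linarith
      have h3 : (1 : ℝ) ≤ 1 + 2 / κ := by linarith
      calc (1 : ℝ) = 1 * 1 := by ring
        _ ≤ _ := mul_le_mul h2 h3 zero_le_one (by positivity)
    linarith
  obtain ⟨θ, hθ⟩ : ∃ θ : ℝ, θ = 2 * C / K2 := ⟨_, rfl⟩
  have hθ0 : 0 ≤ θ := by rw [hθ]; positivity
  have hη : (l + 1) * θ * (1 + 2 / κ) ≤ 1 := by
    rw [hθ]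
    have e : (l + 1) * (2 * C / K2) * (1 + 2 / κ) = 2 * C * (l + 1) * (1 + 2 / κ) / K2 := by ring
    rw [e, div_le_one hK20]
    exact hK2a
  have hη0 : 0 ≤ (l + 1) * θ := by positivity
  have hη1 : (l + 1) * θ ≤ 1 := by
    have : 0 ≤ (l + 1) * θ * (2 / κ) := by positivity
    linarith
  have hη2 : (l + 1) * θ ≤ κ / 2 := by
    have h1 : (l + 1) * θ * (2 / κ) ≤ 1 := by linarith
    have h2 : (l + 1) * θ = ((l + 1) * θ * (2 / κ)) * (κ / 2) := by
      field_simp
    rw [h2]
    calc ((l + 1) * θ * (2 / κ)) * (κ / 2) ≤ 1 * (κ / 2) :=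
          mul_le_mul_of_nonneg_right h1 (by positivity)
      _ = κ / 2 := one_mul _
  obtain ⟨lam, hlam⟩ : ∃ lam : ℕ → ℝ, lam = fun i => Real.log (max (r i) K2) := ⟨_, rfl⟩
  have hlam' : ∀ i, lam i = Real.log (max (r i) K2) := fun i => by rw [hlam]
  have hls : ∀ i, i0 ≤ i → lam i - θ ≤ lam (i + 1) := by
    intro i hi
    rw [hlam', hlam', hθ]
    exact step K2 C (r i) (r (i + 1)) hC hK2C (hstep i hi)
  have hw := window lam θ i0 hls
  have hlam0 : ∀ i, 0 ≤ lam i := by
    intro i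
    rw [hlam']
    exact Real.log_nonneg (hK21.trans (le_max_right _ _))
  refine ⟨Real.exp 2 * K2, by positivity, ?_⟩
  obtain ⟨T, hT⟩ : ∃ T : ℕ → ℝ, T = fun j => ∑ s ∈ Finset.range (l + 1), lam (j + s) := ⟨_, rfl⟩
  have hT' : ∀ j, T j = ∑ s ∈ Finset.range (l + 1), lam (j + s) := fun j => by rw [hT]
  have hTs : ∀ j, T (j + 1) = T j + lam (j + l + 1) - lam j := by
    intro j
    rw [hT', hT']
    have e1 := Finset.sum_range_succ (fun s => lam (j + s)) (l + 1)
    have e2 := Finset.sum_range_succ' (fun s => lam (j + s)) (l + 1)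
    have e3 : ∑ s ∈ Finset.range (l + 1), lam (j + 1 + s) =
        ∑ s ∈ Finset.range (l + 1), lam (j + (s + 1)) :=
      Finset.sum_congr rfl fun s _ => by congr 1; omega
    rw [e3]
    have e4 : j + (l + 1) = j + l + 1 := by omega
    simp only [add_zero, e4] at e1 e2
    linarith
  obtain ⟨Q, hQ⟩ : ∃ Q : ℕ → Prop, Q = fun j => Real.exp 2 * K2 ≤ r (j + 1) ∧
      ∃ m : ℕ, j ≤ m + l ∧ m ≤ j ∧ r m ≤ Real.exp (-2) * r (j + 1) := ⟨_, rfl⟩
  have hQ1 : ∀ j, i0 ≤ j → Q (j + l) → T j + 1 - (l + 1) * θ ≤ T (j + 1) := by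
    intro j hj hq
    rw [hQ] at hq
    obtain ⟨h1, m, hm1, hm2, hm3⟩ := hq
    have hr0 : 0 < r (j + l + 1) := lt_of_lt_of_le (by positivity) h1
    have h2 : max (r m) K2 ≤ Real.exp (-2) * r (j + l + 1) := by
      refine max_le hm3 ?_
      have h3 : Real.exp (-2) * (Real.exp 2 * K2) ≤ Real.exp (-2) * r (j + l + 1) :=
        mul_le_mul_of_nonneg_left h1 (Real.exp_pos _).le
      rw [← mul_assoc, ← Real.exp_add] at h3
      simpa using h3
    have h4 : lam m ≤ lam (j + l + 1) - 2 := by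
      rw [hlam', hlam']
      have h5 : Real.log (max (r m) K2) ≤ Real.log (Real.exp (-2) * r (j + l + 1)) :=
        Real.log_le_log (lt_of_lt_of_le hK20 (le_max_right _ _)) h2
      rw [Real.log_mul (Real.exp_pos _).ne' hr0.ne', Real.log_exp] at h5
      have h6 : Real.log (r (j + l + 1)) ≤ Real.log (max (r (j + l + 1)) K2) :=
        Real.log_le_log hr0 (le_max_left _ _)
      linarith
    have h7 := hw j hj (m - j)
    have h8 : j + (m - j) = m := by omega
    rw [h8] at h7
    have h9 : ((m - j : ℕ) : ℝ) * θ ≤ (l + 1) * θ := by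
      refine mul_le_mul_of_nonneg_right ?_ hθ0
      have : m - j ≤ l + 1 := by omega
      exact_mod_cast this
    rw [hTs]
    linarith
  have hQ0 : ∀ j, i0 ≤ j → T j - (l + 1) * θ ≤ T (j + 1) := by
    intro j hj
    have h1 := hw j hj (l + 1)
    have h2 : j + (l + 1) = j + l + 1 := by omega
    rw [h2] at h1
    push_cast at h1
    rw [hTs]
    linarith
  -- the elementary inequality for large `J`
  have hev1 : ∀ᶠ J : ℕ in atTop, Real.log (J : ℝ) ≤ κ / (8 * (l + 1)) * J := by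
    have h := (Real.isLittleO_log_id_atTop.bound (show 0 < κ / (8 * ((l : ℝ) + 1)) by positivity))
    have h' := tendsto_natCast_atTop_atTop (R := ℝ) |>.eventually h
    filter_upwards [h'] with J hJ
    rw [Real.norm_eq_abs, Real.norm_eq_abs, id, abs_of_nonneg (Nat.cast_nonneg J : (0 : ℝ) ≤ J)] at hJ
    exact (le_abs_self _).trans hJ
  have hev2 : ∀ᶠ J : ℕ in atTop, ((i0 : ℝ) + l + (l + 1)) / (κ / 4) ≤ J :=
    tendsto_natCast_atTop_atTop.eventually_ge_atTop _
  have hev3 : ∀ᶠ J : ℕ in atTop, K2 ≤ (J : ℝ) :=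
    tendsto_natCast_atTop_atTop.eventually_ge_atTop _
  filter_upwards [hev1, hev2, hev3, Filter.eventually_ge_atTop (i0 + l)] with J e1 e2 e3 e4
  obtain ⟨N, hN⟩ : ∃ N : ℕ, J = i0 + N + l := ⟨J - (i0 + l), by omega⟩
  have hJ1 : (1 : ℝ) ≤ J := hK21.trans e3
  have hpot := pot T (fun j => Q (j + l)) i0 ((l + 1) * θ) hQ0 hQ1 N
  have hsub : (Finset.range J).filter (fun j : ℕ => Real.exp 2 * K2 ≤ r (j + 1) ∧
      ∃ m : ℕ, j ≤ m + l ∧ m ≤ j ∧ r m ≤ Real.exp (-2) * r (j + 1)) ⊆
      Finset.range (i0 + l) ∪ ((Finset.range (i0 + N)).filter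
        (fun j => i0 ≤ j ∧ Q (j + l))).image (fun j => j + l) := by
    intro j hj
    obtain ⟨hj1, hj2⟩ := Finset.mem_filter.1 hj
    have hj3 := Finset.mem_range.1 hj1
    rw [Finset.mem_union, Finset.mem_range, Finset.mem_image]
    by_cases hlt : j < i0 + l
    · exact Or.inl hlt
    · right
      refine ⟨j - l, Finset.mem_filter.2 ⟨Finset.mem_range.2 (by omega), by omega, ?_⟩, by omega⟩
      have h5 : j - l + l = j := by omega
      rw [h5, hQ]
      exact hj2
  have hcard : (((Finset.range J).filter (fun j : ℕ => Real.exp 2 * K2 ≤ r (j + 1) ∧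
      ∃ m : ℕ, j ≤ m + l ∧ m ≤ j ∧ r m ≤ Real.exp (-2) * r (j + 1))).card : ℝ) ≤
      (i0 : ℝ) + l + (((Finset.range (i0 + N)).filter (fun j => i0 ≤ j ∧ Q (j + l))).card : ℝ) := by
    have h5 := (Finset.card_le_card hsub).trans (Finset.card_union_le _ _)
    have h6 := h5.trans (Nat.add_le_add_left Finset.card_image_le _)
    rw [Finset.card_range] at h6
    exact_mod_cast h6
  have hTJ : T (i0 + N) ≤ (l + 1) * (1 + 2 * Real.log J) := by
    rw [hT']
    have h5 : ∀ s ∈ Finset.range (l + 1), lam (i0 + N + s) ≤ 1 + 2 * Real.log J := by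
      intro s hs
      have hs' := Finset.mem_range.1 hs
      rw [hlam']
      have hle : ((i0 + N + s : ℕ) : ℝ) ≤ J := by
        have : i0 + N + s ≤ J := by omega
        exact_mod_cast this
      have h6 : max (r (i0 + N + s)) K2 ≤ 2 * (J : ℝ) ^ 2 := by
        refine max_le ((hr _).2.trans ?_) ?_
        · have := pow_le_pow_left₀ (Nat.cast_nonneg _) hle 2
          linarith
        · nlinarith
      have h7 : Real.log (max (r (i0 + N + s)) K2) ≤ Real.log (2 * (J : ℝ) ^ 2) :=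
        Real.log_le_log (lt_of_lt_of_le hK20 (le_max_right _ _)) h6
      rw [Real.log_mul (by norm_num) (by positivity), Real.log_pow] at h7
      have h8 : Real.log 2 ≤ 1 := by
        have := Real.log_two_lt_d9
        linarith
      push_cast at h7
      linarith
    calc ∑ s ∈ Finset.range (l + 1), lam (i0 + N + s)
        ≤ ∑ s ∈ Finset.range (l + 1), (1 + 2 * Real.log J) := Finset.sum_le_sum h5
      _ = (l + 1) * (1 + 2 * Real.log J) := by
        rw [Finset.sum_const, Finset.card_range, nsmul_eq_mul]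
        push_cast
        ring
  have hT0 : 0 ≤ T i0 := by
    rw [hT']
    exact Finset.sum_nonneg fun s _ => hlam0 _
  have hNJ : (N : ℝ) ≤ J := by
    have : N ≤ J := by omega
    exact_mod_cast this
  have h10 : (N : ℝ) * ((l + 1) * θ) ≤ J * (κ / 2) :=
    mul_le_mul hNJ hη2 hη0 (Nat.cast_nonneg _)
  have h11 : (l + 1) * (2 * Real.log J) ≤ κ / 4 * J := by
    have h12 : (l + 1) * (2 * Real.log J) ≤ (l + 1) * (2 * (κ / (8 * (l + 1)) * J)) :=
      mul_le_mul_of_nonneg_left (by linarith) hl1.le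
    have h13 : (l + 1) * (2 * (κ / (8 * (l + 1)) * J)) = κ / 4 * (J : ℝ) := by
      field_simp
      ring
    linarith
  have h14 : (i0 : ℝ) + l + (l + 1) ≤ κ / 4 * J := by
    rw [div_le_iff₀ (by positivity)] at e2
    linarith
  have h15 : (l + 1) * (1 + 2 * Real.log J) = (l + 1) + (l + 1) * (2 * Real.log J) := by ring
  linarith

end Pool.SieveG
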