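import Pool.Agent.Work.MP_0d108e_h29.Interface

/-!
# Block SUP: superadditivity
-/

set_option autoImplicit false

namespace Pool.SieveG

theorem SUP.split (a : ℕ → ℤ) (z : ℝ) (x y w : ℤ) (hx : 0 ≤ x) (hy : 0 ≤ y)
    (hw : x + y ≤ w) :
    cnt a z 0 x + cnt a z (x + 1) (x + 1 + y) ≤ cnt a z 0 w + 1 := by
  classical
  unfold cnt
  rw [← Finset.card_union_of_disjoint]
  · refine (Finset.card_le_card (t := insert (x + 1 + y) _) ?_).trans (Finset.card_insert_le _ _)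
    intro n hn
    rw [Finset.mem_union, Finset.mem_filter, Finset.mem_filter, Finset.mem_Icc,
      Finset.mem_Icc] at hn
    rw [Finset.mem_insert, Finset.mem_filter, Finset.mem_Icc]
    rcases hn with ⟨⟨h1, h2⟩, h3⟩ | ⟨⟨h1, h2⟩, h3⟩
    · by_cases h4 : n = x + 1 + y
      · exact Or.inl h4
      · by_cases h5 : n ≤ w
        · exact Or.inr ⟨⟨h1, h5⟩, h3⟩
        · exfalso
          omega
    · by_cases h4 : n = x + 1 + y
      · exact Or.inl h4
      · exact Or.inr ⟨⟨by omega, by omega⟩, h3⟩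
  · rw [Finset.disjoint_left]
    intro n h1 h2
    rw [Finset.mem_filter, Finset.mem_Icc] at h1 h2
    omega

theorem SUP.min (y : ℝ) : ∃ a : ℕ → ℤ, cnt a (lev y) 0 ⌊y⌋ = W y :=
  Nat.sInf_mem (s := {k : ℕ | ∃ a : ℕ → ℤ, cnt a (lev y) 0 ⌊y⌋ = k}) ⟨_, fun _ => 0, rfl⟩

theorem SUP.one_le {s : ℝ} (hs : 1 < s) : 1 ≤ 4 * s / Real.log s ^ 2 := by
  have h0 : 0 < s := by linarith
  have h1 : 0 < Real.log s := Real.log_pos hs
  rw [le_div_iff₀ (by positivity), one_mul]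
  have h2 : Real.log (Real.sqrt s) ≤ Real.sqrt s - 1 :=
    Real.log_le_sub_one_of_pos (Real.sqrt_pos.2 h0)
  have h3 : Real.log (Real.sqrt s) = Real.log s / 2 := Real.log_sqrt h0.le
  have h4 : Real.log s ≤ 2 * Real.sqrt s := by linarith
  have h5 : Real.sqrt s ^ 2 = s := Real.sq_sqrt h0.le
  nlinarith

theorem SUP.comp {Λ s t : ℝ} (hΛ : 1 ≤ Λ) (h1 : Λ ^ 2 < s) (ht : 1 < t) (h2 : s ≤ Λ * t)
    (h3 : t ≤ Λ * s) : t / Real.log t ^ 2 ≤ 4 * Λ * (s / Real.log s ^ 2) := by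
  have hΛ0 : 0 < Λ := by linarith
  have hs1 : 1 < s := by nlinarith
  have hs0 : 0 < s := by linarith
  have ht0 : 0 < t := by linarith
  have hls : 0 < Real.log s := Real.log_pos hs1
  have hlt : 0 < Real.log t := Real.log_pos ht
  have hl1 : 2 * Real.log Λ ≤ Real.log s := by
    have h4 := Real.log_le_log (by positivity) h1.le
    rw [Real.log_pow] at h4
    exact_mod_cast h4
  have hl2 : Real.log s ≤ Real.log Λ + Real.log t := by
    rw [← Real.log_mul hΛ0.ne' ht0.ne']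
    exact Real.log_le_log hs0 h2
  have hl3 : Real.log s / 2 ≤ Real.log t := by linarith
  have h5 : (Real.log s / 2) ^ 2 ≤ Real.log t ^ 2 := pow_le_pow_left₀ (by positivity) hl3 2
  calc t / Real.log t ^ 2 ≤ (Λ * s) / (Real.log s / 2) ^ 2 :=
        div_le_div₀ (by positivity) h3 (by positivity) h5
    _ = 4 * Λ * (s / Real.log s ^ 2) := by
        field_simp
        norm_num

theorem p_SUP (h : T_LEV) : T_SUP := by
  intro Λ hΛ
  obtain ⟨C, Y, hC, hY, hL⟩ := h (Λ + 1) (by linarith)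
  refine ⟨C + 4 * Λ * C + 4, max Y (Λ ^ 2 + 1), by positivity, le_max_of_le_left hY, ?_⟩
  intro s t hs ht hst hts
  have hs1 : Y ≤ s := (le_max_left _ _).trans hs
  have ht1 : Y ≤ t := (le_max_left _ _).trans ht
  have hs2 : Λ ^ 2 < s := lt_of_lt_of_le (by linarith) ((le_max_right _ _).trans hs)
  have hs0 : 1 < s := by linarith
  have ht0 : 1 < t := by linarith
  obtain ⟨a, ha⟩ := SUP.min (s + t)
  have e1 := hL s (s + t) hs1 (by linarith) (by nlinarith) a 0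
  have e2 := hL t (s + t) ht1 (by linarith) (by nlinarith) a (⌊s⌋ + 1)
  rw [zero_add] at e1
  have e3 := SUP.split a (lev (s + t)) ⌊s⌋ ⌊t⌋ ⌊s + t⌋ (Int.floor_nonneg.2 (by linarith))
    (Int.floor_nonneg.2 (by linarith)) (Int.le_floor_add s t)
  rw [ha] at e3
  have e4 : (cnt a (lev (s + t)) 0 ⌊s⌋ : ℝ) +
      cnt a (lev (s + t)) (⌊s⌋ + 1) (⌊s⌋ + 1 + ⌊t⌋) ≤ W (s + t) + 1 := by exact_mod_cast e3
  have e5 := SUP.one_le hs0
  have e6 := SUP.comp hΛ hs2 ht0 hst hts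
  have e7 : C * (t / Real.log t ^ 2) ≤ C * (4 * Λ * (s / Real.log s ^ 2)) :=
    mul_le_mul_of_nonneg_left e6 hC.le
  have e8 : (C + 4 * Λ * C + 4) * s / Real.log s ^ 2 =
      C * s / Real.log s ^ 2 + C * (4 * Λ * (s / Real.log s ^ 2)) + 4 * s / Real.log s ^ 2 := by
    ring
  have e9 : C * t / Real.log t ^ 2 = C * (t / Real.log t ^ 2) := mul_div_assoc _ _ _
  rw [e8]
  rw [e9] at e2
  linarith

end Pool.SieveG
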