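import Pool.Agent.Work.MP_0d108e_h29.Interface

/-!
# MP_0d108e_nt, block SUPE
-/

set_option autoImplicit false

namespace Pool.SieveG

open Filter Topology

theorem p_SUPE (h : T_SUP) : T_SUPE := by
  intro hIw η Λ hη hΛ
  obtain ⟨C, Y, hC, hY, hS⟩ := h Λ hΛ
  have h1 : ∀ᶠ y : ℝ in atTop, C / η ≤ (W y : ℝ) * Real.log y ^ 2 / y :=
    hIw.eventually (eventually_ge_atTop (C / η))
  obtain ⟨Y', hY'⟩ := eventually_atTop.1 h1
  refine ⟨max Y Y', le_trans hY (le_max_left _ _), fun s t hs ht hst hts => ?_⟩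
  have hsY : Y ≤ s := le_trans (le_max_left _ _) hs
  have htY : Y ≤ t := le_trans (le_max_left _ _) ht
  have hsY' : Y' ≤ s := le_trans (le_max_right _ _) hs
  have h2 := hS s t hsY htY hst hts
  have hs0 : 0 < s := by linarith
  have hlog : 0 < Real.log s := Real.log_pos (by linarith)
  have hlog2 : 0 < Real.log s ^ 2 := by positivity
  have h3 := hY' s hsY'
  have h4 : C * s / Real.log s ^ 2 ≤ η * (W s : ℝ) := by
    rw [div_le_div_iff₀ hη hs0] at h3
    rw [div_le_iff₀ hlog2]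
    nlinarith [h3]
  have h5 : (0 : ℝ) ≤ (W t : ℝ) := Nat.cast_nonneg _
  nlinarith [mul_nonneg hη.le h5]

end Pool.SieveG
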