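import Pool.Agent.Work.MP_0d108e_h29.Interface
import Pool.Agent.Work.MP_0b7501_nt.BT

/-!
# Block UB: the upper bound for `W`
-/

namespace Pool.SieveG

namespace BUB

lemma log_le_half {x : ℝ} (hx : 0 < x) : Real.log x ≤ x / 2 := by
  have h1 : Real.log (Real.sqrt x) ≤ Real.sqrt x - 1 :=
    Real.log_le_sub_one_of_pos (Real.sqrt_pos.2 hx)
  rw [Real.log_sqrt hx.le] at h1
  have h2 : Real.sqrt x * Real.sqrt x = x := Real.mul_self_sqrt hx.le
  nlinarith [sq_nonneg (Real.sqrt x - 2)]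

end BUB

open BUB in
open Classical in
theorem p_UB : T_UB := by
  refine ⟨129, 3, by norm_num, by norm_num, fun y hy => ?_⟩
  have hy0 : 0 < y := by linarith
  have hlog1 : 1 ≤ Real.log y :=
    (Real.le_log_iff_exp_le hy0).2 (by have := Real.exp_one_lt_d9; linarith)
  have hlog0 : 0 < Real.log y := by linarith
  have hlogy : Real.log y ≤ y := by
    have := log_le_half hy0
    linarith
  have hq : 1 ≤ y / Real.log y := by
    rw [le_div_iff₀ hlog0]; linarith
  have hqy : y / Real.log y ≤ y := div_le_self hy0.le hlog1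
  have hlev1 : 1 ≤ lev y := by
    unfold lev
    rw [Real.one_le_sqrt]
    exact hq
  have hlev2 : lev y ^ 2 = y / Real.log y := by
    unfold lev
    exact Real.sq_sqrt (by positivity)
  obtain ⟨R, hR⟩ : ∃ R : ℕ, R = ⌊lev y⌋₊ := ⟨_, rfl⟩
  obtain ⟨h, hh⟩ : ∃ h : ℕ, h = ⌊y⌋₊ := ⟨_, rfl⟩
  have hR1 : 1 ≤ R := by
    rw [hR]
    exact Nat.le_floor (by exact_mod_cast hlev1)
  have hRl : (R : ℝ) ≤ lev y := by
    rw [hR]
    exact Nat.floor_le (by linarith)
  have hRu : lev y ≤ (R : ℝ) + 1 := by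
    rw [hR]
    exact (Nat.lt_floor_add_one _).le
  have hhy : (h : ℝ) ≤ y := by
    rw [hh]
    exact Nat.floor_le hy0.le
  have hsb := Pool.Agent.Work.MP_0b7501_nt.sieve_bound 0 h R hR1
  obtain ⟨S, hS⟩ : ∃ S : Finset ℕ, S = (Finset.Icc 1 h).filter
    (fun m => ∀ q, 0 < q → q ≤ R → Nat.Coprime q (0 + m)) := ⟨_, rfl⟩
  rw [← hS] at hsb
  have hmax : ((max h (R ^ 2) : ℕ) : ℝ) ≤ y := by
    push_cast
    refine max_le hhy ?_
    calc (R : ℝ) ^ 2 ≤ lev y ^ 2 := pow_le_pow_left₀ (Nat.cast_nonneg _) hRl 2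
      _ ≤ y := by rw [hlev2]; exact hqy
  have hlogR : Real.log y / 4 ≤ Real.log ((R : ℝ) + 1) := by
    have h1 : Real.log (lev y) ≤ Real.log ((R : ℝ) + 1) := Real.log_le_log (by linarith) hRu
    have h2 : Real.log (lev y) = (Real.log y - Real.log (Real.log y)) / 2 := by
      unfold lev
      rw [Real.log_sqrt (by positivity), Real.log_div hy0.ne' hlog0.ne']
    have h3 := log_le_half hlog0
    rw [h2] at h1
    linarith
  have hScard : (S.card : ℝ) * Real.log y ≤ 128 * y := by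
    have h1 : (S.card : ℝ) * (Real.log y / 4 / 2) ≤ 16 * y := by
      calc (S.card : ℝ) * (Real.log y / 4 / 2) ≤ (S.card : ℝ) * (Real.log ((R : ℝ) + 1) / 2) :=
            mul_le_mul_of_nonneg_left (by linarith) (Nat.cast_nonneg _)
        _ ≤ 16 * ((max h (R ^ 2) : ℕ) : ℝ) := hsb
        _ ≤ 16 * y := by linarith
    linarith
  have hW : W y ≤ cnt (fun _ => 0) (lev y) 0 ⌊y⌋ := Nat.sInf_le ⟨_, rfl⟩
  have hcnt : cnt (fun _ => 0) (lev y) 0 ⌊y⌋ ≤ S.card + 1 := by
    unfold cnt
    refine le_trans (Finset.card_le_card_of_injOn (t := insert 0 S) (fun n : ℤ => n.toNat) ?_ ?_)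
      (Finset.card_insert_le _ _)
    · intro n hn
      have hn' := Finset.mem_filter.1 (Finset.mem_coe.1 hn)
      obtain ⟨hn1, hn2⟩ := hn'
      obtain ⟨hn3, hn4⟩ := Finset.mem_Icc.1 hn1
      obtain ⟨m, rfl⟩ := Int.eq_ofNat_of_zero_le hn3
      rw [Finset.mem_coe, Finset.mem_insert]
      by_cases hm : m = 0
      · left
        simp [hm]
      · right
        rw [hS, Finset.mem_filter, Finset.mem_Icc]
        have e : ((m : ℤ)).toNat = m := Int.toNat_natCast m
        show (1 ≤ ((m : ℤ)).toNat ∧ ((m : ℤ)).toNat ≤ h) ∧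
          ∀ q, 0 < q → q ≤ R → Nat.Coprime q (0 + ((m : ℤ)).toNat)
        rw [e]
        refine ⟨⟨Nat.one_le_iff_ne_zero.2 hm, ?_⟩, ?_⟩
        · rw [hh]
          refine Nat.le_floor ?_
          have := Int.le_floor.1 hn4
          exact_mod_cast this
        · intro q hq0 hqR
          rw [zero_add]
          by_contra hc
          obtain ⟨p, hp, hpq, hpm⟩ := Nat.Prime.not_coprime_iff_dvd.1 hc
          refine hn2 p hp ?_ ?_
          · have h1 : p ≤ q := Nat.le_of_dvd hq0 hpq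
            have h2 : (p : ℝ) ≤ R := by exact_mod_cast h1.trans hqR
            linarith
          · rw [sub_zero]
            exact Int.natCast_dvd_natCast.2 hpm
    · intro a ha b hb hab
      have ha' := (Finset.mem_Icc.1 (Finset.mem_filter.1 (Finset.mem_coe.1 ha)).1).1
      have hb' := (Finset.mem_Icc.1 (Finset.mem_filter.1 (Finset.mem_coe.1 hb)).1).1
      simp only at hab
      omega
  have hWr : (W y : ℝ) ≤ S.card + 1 := by exact_mod_cast hW.trans hcnt
  calc (W y : ℝ) * Real.log y ≤ ((S.card : ℝ) + 1) * Real.log y :=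
        mul_le_mul_of_nonneg_right hWr hlog0.le
    _ = (S.card : ℝ) * Real.log y + Real.log y := by ring
    _ ≤ 128 * y + y := by linarith
    _ = 129 * y := by ring

end Pool.SieveG
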