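import Pool.Agent.Work.MP_0d108e_h29.Interface4

/-!
# Block UU: regularity of `W y log y` at almost all scales where `W` is not too small
-/

set_option autoImplicit false

namespace Pool.SieveG

open Filter Topology

open Classical in
theorem p_UU (h1 : T_DBL) (h2 : T_SEQ) (h3 : T_LOC) : T_UU := by
  intro ε hε hε1
  obtain ⟨δ, hδ, l, j0, K0, hK0, h⟩ := h3 ε hε hε1
  refine ⟨δ, hδ, fun κ hκ => ?_⟩
  obtain ⟨K1, hK1, hev⟩ := h2 rr h1.1 h1.2 l (κ / 2) (by positivity)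
  refine ⟨max K0 (8 * K1), lt_max_of_lt_left hK0, ?_⟩
  obtain ⟨J1, hJ1⟩ := exists_nat_ge (2 * (j0 : ℝ) / κ)
  filter_upwards [hev, eventually_ge_atTop J1] with J hJ hJJ
  have hsub : (Finset.range J).filter (fun j : ℕ => ∃ y z : ℝ, (2 : ℝ) ^ j ≤ y ∧
      y < 2 ^ (j + 1) ∧ (1 + ε) * y ≤ z ∧ z ≤ 2 * y ∧
      max K0 (8 * K1) * y ≤ (W y : ℝ) * Real.log y ^ 2 ∧
      (W z : ℝ) * Real.log z ≤ (1 + δ) * ((W y : ℝ) * Real.log y)) ⊆
      Finset.range j0 ∪ (Finset.range J).filter (fun j : ℕ => K1 ≤ rr (j + 1) ∧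
      ∃ m : ℕ, j ≤ m + l ∧ m ≤ j ∧ rr m ≤ Real.exp (-2) * rr (j + 1)) := by
    intro j hj
    rw [Finset.mem_filter] at hj
    obtain ⟨hjJ, y, z, hy1, hy2, hz1, hz2, hW1, hW2⟩ := hj
    rw [Finset.mem_union]
    by_cases hj0 : j < j0
    · left
      exact Finset.mem_range.2 hj0
    · right
      rw [Finset.mem_filter]
      obtain ⟨hr, hm⟩ := h j (not_lt.1 hj0) (max K0 (8 * K1)) (le_max_left _ _) y z hy1 hy2 hz1 hz2
        hW1 hW2
      refine ⟨hjJ, ?_, hm⟩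
      have h8 : 8 * K1 ≤ max K0 (8 * K1) := le_max_right _ _
      linarith
  have hc := (Finset.card_le_card hsub).trans (Finset.card_union_le _ _)
  rw [Finset.card_range] at hc
  have hc' : (((Finset.range J).filter (fun j : ℕ => ∃ y z : ℝ, (2 : ℝ) ^ j ≤ y ∧
      y < 2 ^ (j + 1) ∧ (1 + ε) * y ≤ z ∧ z ≤ 2 * y ∧
      max K0 (8 * K1) * y ≤ (W y : ℝ) * Real.log y ^ 2 ∧
      (W z : ℝ) * Real.log z ≤ (1 + δ) * ((W y : ℝ) * Real.log y))).card : ℝ) ≤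
      (j0 : ℝ) + (((Finset.range J).filter (fun j : ℕ => K1 ≤ rr (j + 1) ∧
      ∃ m : ℕ, j ≤ m + l ∧ m ≤ j ∧ rr m ≤ Real.exp (-2) * rr (j + 1))).card : ℝ) := by
    exact_mod_cast hc
  have hJ2 : (J1 : ℝ) ≤ J := by exact_mod_cast hJJ
  have hj0' : (j0 : ℝ) ≤ κ / 2 * J := by
    have : 2 * (j0 : ℝ) / κ ≤ J := hJ1.trans hJ2
    rw [div_le_iff₀ hκ] at this
    linarith
  linarith

end Pool.SieveG
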