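import Mathlib
import Pool.Agent.Work.MP_0d108e_h29.B_CLS
import Pool.Agent.Work.MP_0d108e_h29.B_LEV
import Pool.Agent.Work.MP_0d108e_h29.B_SUP
import Pool.Agent.Work.MP_0d108e_h29.B_UB
import Pool.Agent.Work.MP_0d108e_h29.B_SUPE
import Pool.Agent.Work.MP_0d108e_h29.B_MULT
import Pool.Agent.Work.MP_0d108e_h29.B_GB
import Pool.Agent.Work.MP_0d108e_h29.B_GC
import Pool.Agent.Work.MP_0d108e_h29.B_PA
import Pool.Agent.Work.MP_0d108e_h29.B_PB
import Pool.Agent.Work.MP_0d108e_h29.B_CH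
import Pool.Agent.Work.MP_0d108e_h29.B_DY
import Pool.Agent.Work.MP_0d108e_h29.B_FA
import Pool.Agent.Work.MP_0d108e_h29.B_FBC
import Pool.Agent.Work.MP_0d108e_h29.B_DEN
import Pool.Agent.Work.MP_0d108e_h29.B_FD
import Pool.Agent.Work.MP_0d108e_h29.B_EQ
import Pool.Agent.Work.MP_0d108e_h29.B_DBL
import Pool.Agent.Work.MP_0d108e_h29.B_SEQ
import Pool.Agent.Work.MP_0d108e_h29.B_LOC
import Pool.Agent.Work.MP_0d108e_h29.B_UU

/-!
# The interval sieve function g (MP_0d108e_nt): assembly of the blocks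
-/

namespace Pool.SieveG

theorem hLEV : T_LEV := p_LEV p_CLS
theorem hSUP : T_SUP := p_SUP hLEV
theorem hSUPE : T_SUPE := p_SUPE hSUP
theorem hMULT : T_MULT := p_MULT hSUPE
theorem hGB : T_GB := p_GB
theorem hGC : T_GC := p_GC hGB
theorem hPA : T_PA := p_PA hMULT hGB hGC
theorem hPB : T_PB := p_PB hSUPE hGB hGC hPA
theorem hDY : T_DY := p_DY p_CH
theorem hFA : T_FA := p_FA hPB hGB hGC p_UB
theorem hFB : T_FB := p_FB hPA hGC
theorem hFC : T_FC := p_FC hPA hPB hGC hDY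
theorem hFD : T_FD := p_FD hFC hGC p_DEN
theorem hEQ : T_EQ := p_EQ hSUP hGB hGC hPA p_IW
theorem hUU : T_UU := p_UU (p_DBL hSUP) p_SEQ (p_LOC hSUP hLEV)

end Pool.SieveG
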