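import Pool.Agent.Work.MP_0d108e_h29.Interface

/-!
# Block CH: the counting argument along the chain
-/

namespace Pool.SieveG

open Filter Topology

namespace CH_

/-- The telescoping sum. -/
theorem tel (ψ : ℕ → ℝ) (m n K : ℕ) :
    ∑ k ∈ Finset.range K, (ψ (n + k) - ψ (n + k + m)) =
      (∑ r ∈ Finset.range m, ψ (n + r)) - ∑ r ∈ Finset.range m, ψ (n + K + r) := by
  have h1 : ∀ k, ψ (n + k) - ψ (n + k + m) =
      (∑ r ∈ Finset.range m, ψ (n + k + r)) - ∑ r ∈ Finset.range m, ψ (n + (k + 1) + r) := by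
    intro k
    have h2 := Finset.sum_range_succ (fun r => ψ (n + k + r)) m
    have h3 := Finset.sum_range_succ' (fun r => ψ (n + k + r)) m
    have h4 : ∑ r ∈ Finset.range m, ψ (n + (k + 1) + r) =
        ∑ r ∈ Finset.range m, ψ (n + k + (r + 1)) := by
      refine Finset.sum_congr rfl fun r _ => ?_
      congr 1
      ring
    rw [h4]
    simp only [add_zero] at h3
    linarith
  rw [Finset.sum_congr rfl fun k _ => h1 k,
    Finset.sum_range_sub' (fun k => ∑ r ∈ Finset.range m, ψ (n + k + r)) K]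
  simp

theorem count (ψ : ℕ → ℝ) (P : ℕ → Prop) [DecidablePred P] (m n : ℕ) (θ : ℝ) (hθ : 0 ≤ θ)
    (hstep : ∀ i, n ≤ i → ψ (i + 1) ≤ ψ i + θ)
    (hbad : ∀ i, n ≤ i → P (i + m) → 1 ≤ ψ i - ψ (i + m)) (B : ℕ → ℝ)
    (hB : ∀ K r, r < m → -B K ≤ ψ (n + K + r)) (I : ℕ) :
    (((Finset.range I).filter P).card : ℝ) ≤
      (n + m : ℕ) + (∑ r ∈ Finset.range m, ψ (n + r)) + m * B I + m * θ * I := by
  have hstepm : ∀ j i, n ≤ i → ψ (i + j) ≤ ψ i + j * θ := by
    intro j
    induction j with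
    | zero => intro i _; simp
    | succ j ih =>
      intro i hi
      have h1 := ih i hi
      have h2 := hstep (i + j) (by omega)
      have h3 : i + (j + 1) = i + j + 1 := by ring
      rw [h3]
      push_cast
      linarith
  -- the filter
  have h1 : (Finset.range I).filter P ⊆ Finset.range (n + m) ∪
      ((Finset.range I).filter (fun k => P (n + k + m))).image (fun k => n + k + m) := by
    intro i hi
    rw [Finset.mem_filter, Finset.mem_range] at hi
    rw [Finset.mem_union, Finset.mem_range, Finset.mem_image]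
    by_cases h : i < n + m
    · exact Or.inl h
    · right
      have h2 : n + (i - (n + m)) + m = i := by omega
      refine ⟨i - (n + m), ?_, h2⟩
      rw [Finset.mem_filter, Finset.mem_range, h2]
      exact ⟨by omega, hi.2⟩
  have h2 : (((Finset.range I).filter P).card : ℝ) ≤
      (n + m : ℕ) + (((Finset.range I).filter (fun k => P (n + k + m))).card : ℝ) := by
    have h3 := (Finset.card_le_card h1).trans (Finset.card_union_le _ _)
    have h4 := Finset.card_image_le (s := (Finset.range I).filter (fun k => P (n + k + m)))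
      (f := fun k => n + k + m)
    rw [Finset.card_range] at h3
    exact_mod_cast h3.trans (Nat.add_le_add_left h4 _)
  have h3 : (((Finset.range I).filter (fun k => P (n + k + m))).card : ℝ) ≤
      ∑ k ∈ Finset.range I, ((ψ (n + k) - ψ (n + k + m)) + m * θ) := by
    rw [Finset.card_filter]
    push_cast
    refine Finset.sum_le_sum fun k _ => ?_
    have h4 := hstepm m (n + k) (by omega)
    split_ifs with h5
    · have h6 := hbad (n + k) (by omega) h5
      have : 0 ≤ (m : ℝ) * θ := by positivity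
      linarith
    · linarith
  rw [Finset.sum_add_distrib, tel, Finset.sum_const, Finset.card_range, nsmul_eq_mul] at h3
  have h4 : -(m * B I) ≤ ∑ r ∈ Finset.range m, ψ (n + I + r) := by
    have h5 : ∑ r ∈ Finset.range m, (-B I) ≤ ∑ r ∈ Finset.range m, ψ (n + I + r) :=
      Finset.sum_le_sum fun r hr => hB I r (Finset.mem_range.1 hr)
    rw [Finset.sum_const, Finset.card_range, nsmul_eq_mul] at h5
    linarith
  have h5 : (I : ℝ) * (m * θ) = m * θ * I := by ring
  linarith

end CH_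

open CH_

theorem p_CH : T_CH := by
  intro h hmono hpos hdouble hlow _ ε η l hε hε1 hη hη4 hl hlog
  obtain ⟨m, rfl⟩ : ∃ m, l = m + 1 := ⟨l - 1, by omega⟩
  obtain ⟨β, hβ⟩ : ∃ β : ℝ, β = 2 * (1 - η) := ⟨_, rfl⟩
  rw [← hβ]
  have hβ1 : 3 / 2 ≤ β := by rw [hβ]; linarith
  have hβ2 : β < 2 := by rw [hβ]; linarith
  have hβ0 : 0 < β := by linarith
  have hlb : Real.log (3 / 2) ≤ Real.log β := Real.log_le_log (by norm_num) hβ1
  have hlb0 : 0 < Real.log β := Real.log_pos (by linarith)
  have hlb1 : Real.log β ≤ 1 := by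
    have := Real.log_le_sub_one_of_pos hβ0
    linarith
  have hpow : Tendsto (fun i : ℕ => β ^ i) atTop atTop :=
    tendsto_pow_atTop_atTop_of_one_lt (by linarith)
  obtain ⟨θ, hθ⟩ : ∃ θ : ℝ, θ = Real.log 2 - Real.log β := ⟨_, rfl⟩
  have hθ0 : 0 ≤ θ := by
    have := Real.log_le_log hβ0 hβ2.le
    rw [hθ]; linarith
  have hθ1 : θ ≤ 4 / 3 * η := by
    have h1 : θ = -Real.log (1 - η) := by
      rw [hθ, hβ, Real.log_mul (by norm_num) (by linarith)]
      ring
    have h2 := Real.one_sub_inv_le_log_of_pos (show (0 : ℝ) < 1 - η by linarith)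
    have h3 : (1 - η)⁻¹ ≤ 1 + 4 / 3 * η := by
      rw [inv_le_comm₀ (by linarith) (by positivity), inv_le_comm₀ (by positivity) (by linarith)]
      rw [inv_eq_one_div, div_le_iff₀ (by linarith)]
      nlinarith
    rw [h1]
    linarith
  -- thresholds
  obtain ⟨n, hn⟩ := eventually_atTop.1 ((hpow.eventually (hdouble η hη (by linarith))).and
    ((hpow.eventually hlow).and ((hpow.eventually_ge_atTop 3).and (eventually_ge_atTop 1))))
  obtain ⟨ψ, hψ⟩ : ∃ ψ : ℕ → ℝ, ψ = fun i : ℕ =>
    Real.log (h (β ^ i)) - (i : ℝ) * Real.log β := ⟨_, rfl⟩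
  have hstep : ∀ i, n ≤ i → ψ (i + 1) ≤ ψ i + θ := by
    intro i hi
    obtain ⟨h1, -, h3, -⟩ := hn i hi
    obtain ⟨-, -, h4, -⟩ := hn (i + 1) (by omega)
    have h5 : (1 - η) * 2 * β ^ i = β ^ (i + 1) := by rw [pow_succ, hβ]; ring
    rw [h5] at h1
    have h6 := Real.log_le_log (hpos _ h4) h1
    rw [Real.log_mul (by norm_num) (hpos _ h3).ne'] at h6
    rw [hψ, hθ]
    push_cast
    linarith
  have hbad : ∀ i, n ≤ i → (m + 1 ≤ i + m ∧ ε * h (β ^ (i + m)) ≤ h (β ^ (i + m + 1 - (m + 1)))) →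
      1 ≤ ψ i - ψ (i + m) := by
    rintro i hi ⟨-, h1⟩
    obtain ⟨-, -, h3, -⟩ := hn i hi
    obtain ⟨-, -, h4, -⟩ := hn (i + m) (by omega)
    have h5 : i + m + 1 - (m + 1) = i := by omega
    rw [h5] at h1
    have h6 := Real.log_le_log (mul_pos hε (hpos _ h4)) h1
    rw [Real.log_mul hε.ne' (hpos _ h4).ne'] at h6
    have h7 : Real.log (1 / ε) = -Real.log ε := by rw [one_div, Real.log_inv]
    rw [h7] at hlog
    push_cast at hlog
    have h8 : (m : ℝ) * Real.log (3 / 2) ≤ m * Real.log β :=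
      mul_le_mul_of_nonneg_left hlb (Nat.cast_nonneg m)
    rw [hψ]
    push_cast
    have h9 : ((m : ℝ) + 1 - 1) * Real.log (3 / 2) = m * Real.log (3 / 2) := by ring
    rw [h9] at hlog
    linarith
  have hB : ∀ K r : ℕ, r < m → -(Real.log (2 * ((n : ℝ) + K + m))) ≤ ψ (n + K + r) := by
    intro K r hr
    obtain ⟨-, h2, h3, h4⟩ := hn (n + K + r) (by omega)
    have hj : (1 : ℝ) ≤ ((n + K + r : ℕ) : ℝ) := by exact_mod_cast h4
    have hb3 : 0 < β ^ (n + K + r) := by positivity
    have hl1 : Real.log (β ^ (n + K + r)) ≤ ((n + K + r : ℕ) : ℝ) := by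
      rw [Real.log_pow]
      nlinarith
    have hl0 : 0 < Real.log (β ^ (n + K + r)) := Real.log_pos (by linarith)
    have h5 : β ^ (n + K + r) / (2 * ((n + K + r : ℕ) : ℝ)) ≤ h (β ^ (n + K + r)) := by
      refine le_trans ?_ h2
      exact div_le_div_of_nonneg_left hb3.le (by positivity) (by linarith)
    have h6 := Real.log_le_log (by positivity) h5
    rw [Real.log_div hb3.ne' (by positivity), Real.log_pow] at h6
    have h7 : Real.log (2 * ((n + K + r : ℕ) : ℝ)) ≤ Real.log (2 * ((n : ℝ) + K + m)) := by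
      refine Real.log_le_log (by positivity) ?_
      have : (r : ℝ) ≤ m := by exact_mod_cast hr.le
      push_cast
      linarith
    rw [hψ]
    simp only
    linarith
  have hcount := fun I => count ψ (fun i => m + 1 ≤ i ∧ ε * h (β ^ i) ≤ h (β ^ (i + 1 - (m + 1))))
    m n θ hθ0 hstep hbad (fun K : ℕ => Real.log (2 * ((n : ℝ) + K + m))) hB I
  obtain ⟨S, hS⟩ : ∃ S : ℝ, S = ∑ r ∈ Finset.range m, ψ (n + r) := ⟨_, rfl⟩
  rw [← hS] at hcount
  -- the logarithm
  have hT : Tendsto (fun I : ℕ => 2 * ((n : ℝ) + I + m)) atTop atTop := by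
    refine Tendsto.const_mul_atTop (by norm_num) ?_
    refine tendsto_atTop_add_const_right _ _ ?_
    exact tendsto_atTop_add_const_left _ _ tendsto_natCast_atTop_atTop
  have hlo := (Real.isLittleO_log_id_atTop.comp_tendsto hT).def (show (0 : ℝ) < η / 2 by positivity)
  have hconst : ∀ᶠ I : ℕ in atTop, ((n + m : ℕ) : ℝ) + S + m * η * (n + m) ≤ 4 * η * I := by
    have h1 : Tendsto (fun I : ℕ => 4 * η * (I : ℝ)) atTop atTop :=
      tendsto_natCast_atTop_atTop.const_mul_atTop (by positivity)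
    exact h1.eventually_ge_atTop _
  filter_upwards [hlo, hconst, eventually_ge_atTop 1] with I hI1 hI2 hI3
  refine (le_trans (le_of_eq ?_) (hcount I)).trans ?_
  · congr 2
  · have hI : (1 : ℝ) ≤ I := by exact_mod_cast hI3
    simp only [Function.comp, id] at hI1
    have hp : (0 : ℝ) ≤ 2 * ((n : ℝ) + I + m) := by positivity
    rw [Real.norm_of_nonneg hp] at hI1
    have h1 : Real.log (2 * ((n : ℝ) + I + m)) ≤ η / 2 * (2 * ((n : ℝ) + I + m)) :=
      (le_abs_self _).trans (by rwa [Real.norm_eq_abs] at hI1)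
    have h2 : (m : ℝ) * Real.log (2 * ((n : ℝ) + I + m)) ≤
        m * (η / 2 * (2 * ((n : ℝ) + I + m))) :=
      mul_le_mul_of_nonneg_left h1 (Nat.cast_nonneg m)
    have h3 : (m : ℝ) * θ * I ≤ m * (4 / 3 * η) * I := by gcongr
    have h4 : (m : ℝ) * (η / 2 * (2 * ((n : ℝ) + I + m))) =
        m * η * (n + m) + m * η * I := by ring
    have h5 : 0 ≤ (m : ℝ) * η * I := by positivity
    push_cast at hI2 ⊢
    nlinarith

end Pool.SieveG
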