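import Pool.Agent.Work.MP_0d108e_h29.Interface

set_option autoImplicit false

namespace Pool.SieveG

open Filter Topology

namespace DY17

theorem fib (S : Finset ℕ) (h : ∀ a ∈ S, ∀ b ∈ S, a < b → b < a + 2) : S.card ≤ 2 := by
  rcases S.eq_empty_or_nonempty with rfl | hne
  · simp
  · have hsub : S ⊆ {S.min' hne, S.min' hne + 1} := by
      intro b hb
      rw [Finset.mem_insert, Finset.mem_singleton]
      have h1 := S.min'_le b hb
      rcases h1.eq_or_lt with h2 | h2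
      · left
        exact h2.symm
      · right
        have h3 := h _ (S.min'_mem hne) b hb h2
        omega
    exact (Finset.card_le_card hsub).trans Finset.card_le_two

open Classical in
theorem p_DY17 (hCH : T_CH) : T_DY := by
  intro h hmono hpos h3 h4 h5 h6 ε hε hε1
  have hlog : 0 < Real.log (3 / 2) := Real.log_pos (by norm_num)
  obtain ⟨n, hn⟩ := exists_nat_ge ((Real.log (1 / ε) + 1) / Real.log (3 / 2))
  obtain ⟨l, hl⟩ : ∃ l, l = n + 1 := ⟨_, rfl⟩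
  have hl1 : 1 ≤ l := by omega
  have hle : Real.log (1 / ε) + 1 ≤ ((l : ℝ) - 1) * Real.log (3 / 2) := by
    rw [div_le_iff₀ hlog] at hn
    have e1 : (l : ℝ) - 1 = n := by
      rw [hl]
      push_cast
      ring
    rw [e1]
    exact hn
  obtain ⟨δ, hδ⟩ : ∃ δ : ℝ, δ = (1 / 2) ^ (l + 1) := ⟨_, rfl⟩
  have hδ0 : 0 < δ := by
    rw [hδ]
    positivity
  have hδ4 : δ ≤ 1 / 4 := by
    have h7 : (1 / 2 : ℝ) ^ (l + 1) ≤ (1 / 2) ^ 2 :=
      pow_le_pow_of_le_one (by norm_num) (by norm_num) (by omega)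
    rw [hδ]
    norm_num at h7 ⊢
    linarith
  have h2δ : 2 * δ = (1 / 2) ^ l := by
    rw [hδ, pow_succ]
    ring
  refine ⟨δ, hδ0, ?_⟩
  obtain ⟨U0, hU0⟩ := eventually_atTop.1 (h4 ε δ hε hε1 hδ0 hδ4)
  rw [Metric.tendsto_atTop]
  intro e he
  have hlR : (1 : ℝ) ≤ l := by exact_mod_cast hl1
  obtain ⟨η, hη⟩ : ∃ η : ℝ, η = min (1 / 4) (e / (32 * l)) := ⟨_, rfl⟩
  have hη0 : 0 < η := by
    rw [hη]
    apply lt_min (by norm_num)
    positivity
  have hη4 : η ≤ 1 / 4 := by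
    rw [hη]
    exact min_le_left _ _
  have hηe : 16 * l * η ≤ e / 2 := by
    have h7 : η ≤ e / (32 * l) := by
      rw [hη]
      exact min_le_right _ _
    rw [le_div_iff₀ (by positivity)] at h7
    linarith
  obtain ⟨I0, hI0⟩ := eventually_atTop.1 (hCH h hmono hpos h3 h5 h6 ε η l hε hε1 hη0 hη4 hl1 hle)
  obtain ⟨β, hβ⟩ : ∃ β : ℝ, β = 2 * (1 - η) := ⟨_, rfl⟩
  rw [← hβ] at hI0
  have hβ1 : 3 / 2 ≤ β := by
    rw [hβ]
    linarith
  have hβ2 : β ≤ 2 := by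
    rw [hβ]
    linarith
  have hβ0 : 0 < β := by linarith
  obtain ⟨m, hm⟩ := exists_nat_ge U0
  obtain ⟨j0, hj0⟩ : ∃ j0, j0 = max m (l + 3) := ⟨_, rfl⟩
  have key : ∀ j, j0 ≤ j → (∃ u : ℝ, (2 : ℝ) ^ j ≤ u ∧ u < 2 ^ (j + 1) ∧
      (1 + ε) * h u < h ((1 + δ) * u)) → ∃ i : ℕ, (l ≤ i ∧ i < 2 * (j + 1) ∧
        ε * h (β ^ i) ≤ h (β ^ (i + 1 - l))) ∧ β ^ i < 2 ^ (j + 1) ∧ (2 : ℝ) ^ j < β ^ (i + 1) := by
    rintro j hj ⟨u, hu1, hu2, hu3⟩
    have hjm : m ≤ j := (le_max_left _ _).trans (hj0 ▸ hj)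
    have hjl : l + 3 ≤ j := (le_max_right _ _).trans (hj0 ▸ hj)
    have hjj : (m : ℝ) ≤ 2 ^ j := by
      have h7 : m < 2 ^ j := hjm.trans_lt Nat.lt_two_pow_self
      exact_mod_cast h7.le
    have hu4 := hU0 u (hm.trans (hjj.trans hu1)) hu3
    have h8 : (8 : ℝ) ≤ 2 ^ j := by
      have h7 : (2 : ℝ) ^ 3 ≤ 2 ^ j := pow_le_pow_right₀ (by norm_num) (by omega)
      norm_num at h7
      exact h7
    obtain ⟨i, hi1, hi2⟩ := exists_nat_pow_near (show (1 : ℝ) ≤ u by linarith)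
      (show (1 : ℝ) < β by linarith)
    have hij : j ≤ i := by
      by_contra hc
      have h7 : β ^ (i + 1) ≤ 2 ^ (i + 1) := pow_le_pow_left₀ hβ0.le hβ2 _
      have h9 : (2 : ℝ) ^ (i + 1) ≤ 2 ^ j := pow_le_pow_right₀ (by norm_num) (by omega)
      linarith
    have hij2 : i < 2 * (j + 1) := by
      by_contra hc
      have h7 : (2 : ℝ) ^ (j + 1) ≤ ((3 / 2) ^ 2) ^ (j + 1) :=
        pow_le_pow_left₀ (by norm_num) (by norm_num) _
      rw [← pow_mul] at h7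
      have h9 : (3 / 2 : ℝ) ^ (2 * (j + 1)) ≤ β ^ (2 * (j + 1)) :=
        pow_le_pow_left₀ (by norm_num) hβ1 _
      have h10 : β ^ (2 * (j + 1)) ≤ β ^ i := pow_le_pow_right₀ (by linarith) (by omega)
      linarith
    have hi4 : 3 ≤ β ^ i := by
      have h7 : β ^ (i + 1) ≤ β ^ i * 2 := by
        rw [pow_succ]
        exact mul_le_mul_of_nonneg_left hβ2 (by positivity)
      linarith
    have h9 : ε * h (β ^ i) ≤ ε * h u :=
      mul_le_mul_of_nonneg_left (hmono hi4 (show (3 : ℝ) ≤ u by linarith) hi1) hε.le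
    have h10 : 2 * δ * u ≤ β ^ (i + 1 - l) := by
      have h11 : β ^ (i + 1 - l) * β ^ l = β ^ (i + 1) := by
        rw [← pow_add]
        congr 1
        omega
      have h12 : β ^ l ≤ 2 ^ l := pow_le_pow_left₀ hβ0.le hβ2 _
      have h13 : u ≤ β ^ (i + 1 - l) * 2 ^ l := by
        have h14 : β ^ (i + 1 - l) * β ^ l ≤ β ^ (i + 1 - l) * 2 ^ l :=
          mul_le_mul_of_nonneg_left h12 (by positivity)
        linarith
      rw [h2δ, one_div, inv_pow, inv_mul_le_iff₀ (by positivity)]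
      linarith
    have h15 : 3 ≤ 2 * δ * u := by
      rw [h2δ, one_div, inv_pow, le_inv_mul_iff₀ (by positivity)]
      have h16 : (2 : ℝ) ^ (l + 3) ≤ 2 ^ j := pow_le_pow_right₀ (by norm_num) hjl
      rw [pow_add] at h16
      have h17 : (0 : ℝ) < 2 ^ l := by positivity
      linarith
    have h18 : h (2 * δ * u) ≤ h (β ^ (i + 1 - l)) :=
      hmono h15 (h15.trans h10) h10
    exact ⟨i, ⟨by omega, hij2, by linarith⟩, hi1.trans_lt hu2, hu1.trans_lt hi2⟩
  choose! f hf hf1 hf2 using key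
  have main : ∀ J : ℕ, I0 ≤ 2 * J → (((Finset.range J).filter (fun j : ℕ => ∃ u : ℝ, (2 : ℝ) ^ j ≤ u ∧
      u < 2 ^ (j + 1) ∧ (1 + ε) * h u < h ((1 + δ) * u))).card : ℝ) ≤ j0 + 16 * l * η * J := by
    intro J hJ
    obtain ⟨S, hS⟩ : ∃ S : Finset ℕ, S = (Finset.range J).filter (fun j : ℕ => j0 ≤ j ∧
      ∃ u : ℝ, (2 : ℝ) ^ j ≤ u ∧ u < 2 ^ (j + 1) ∧ (1 + ε) * h u < h ((1 + δ) * u)) := ⟨_, rfl⟩
    have hS1 : ((Finset.range J).filter (fun j : ℕ => ∃ u : ℝ, (2 : ℝ) ^ j ≤ u ∧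
      u < 2 ^ (j + 1) ∧ (1 + ε) * h u < h ((1 + δ) * u))).card ≤ j0 + S.card := by
      have hsub : (Finset.range J).filter (fun j : ℕ => ∃ u : ℝ, (2 : ℝ) ^ j ≤ u ∧
          u < 2 ^ (j + 1) ∧ (1 + ε) * h u < h ((1 + δ) * u)) ⊆ Finset.range j0 ∪ S := by
        intro j hj
        rw [Finset.mem_filter] at hj
        rw [Finset.mem_union, hS, Finset.mem_range, Finset.mem_filter]
        rcases lt_or_ge j j0 with h7 | h7
        · left
          exact h7
        · right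
          exact ⟨hj.1, h7, hj.2⟩
      refine (Finset.card_le_card hsub).trans ((Finset.card_union_le _ _).trans ?_)
      rw [Finset.card_range]
    have hS2 : S.card ≤ 2 * (S.image f).card := by
      apply Finset.card_le_mul_card_image
      intro i _
      apply fib
      intro a ha b hb hab
      rw [Finset.mem_filter, hS, Finset.mem_filter] at ha hb
      obtain ⟨⟨_, ha1, ha2⟩, ha3⟩ := ha
      obtain ⟨⟨_, hb1, hb2⟩, hb3⟩ := hb
      by_contra hc
      have h7 := hf1 a ha1 ha2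
      have h8 := hf2 b hb1 hb2
      rw [ha3] at h7
      rw [hb3] at h8
      have h9 : (2 : ℝ) ^ (a + 2) ≤ 2 ^ b := pow_le_pow_right₀ (by norm_num) (by omega)
      have h10 : β ^ (i + 1) ≤ β ^ i * 2 := by
        rw [pow_succ]
        exact mul_le_mul_of_nonneg_left hβ2 (by positivity)
      have h11 : (2 : ℝ) ^ (a + 2) = 2 ^ (a + 1) * 2 := pow_succ _ _
      linarith
    have hS3 : S.image f ⊆ (Finset.range (2 * J)).filter (fun i : ℕ => l ≤ i ∧
        ε * h (β ^ i) ≤ h (β ^ (i + 1 - l))) := by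
      intro i hi
      rw [Finset.mem_image] at hi
      obtain ⟨j, hj, rfl⟩ := hi
      rw [hS, Finset.mem_filter, Finset.mem_range] at hj
      obtain ⟨hj1, hj2, hj3⟩ := hj
      obtain ⟨h7, h8, h9⟩ := hf j hj2 hj3
      rw [Finset.mem_filter, Finset.mem_range]
      exact ⟨by omega, h7, h9⟩
    have hS4 := hI0 (2 * J) hJ
    have hS5 := Finset.card_le_card hS3
    have hS6 : (S.card : ℝ) ≤ 16 * l * η * J := by
      have h7 : (S.card : ℝ) ≤ 2 * ((S.image f).card : ℝ) := by exact_mod_cast hS2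
      have h8 : ((S.image f).card : ℝ) ≤ (((Finset.range (2 * J)).filter (fun i : ℕ => l ≤ i ∧
        ε * h (β ^ i) ≤ h (β ^ (i + 1 - l)))).card : ℝ) := by exact_mod_cast hS5
      push_cast at hS4
      linarith
    have hS7 : (((Finset.range J).filter (fun j : ℕ => ∃ u : ℝ, (2 : ℝ) ^ j ≤ u ∧
      u < 2 ^ (j + 1) ∧ (1 + ε) * h u < h ((1 + δ) * u))).card : ℝ) ≤ j0 + S.card := by
      exact_mod_cast hS1
    linarith
  obtain ⟨K, hK⟩ := exists_nat_gt (2 * (j0 : ℝ) / e)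
  refine ⟨max (max I0 K) 1, fun J hJ => ?_⟩
  have hJ1 : I0 ≤ J := (le_max_left _ _).trans ((le_max_left _ _).trans hJ)
  have hJ2 : K ≤ J := (le_max_right _ _).trans ((le_max_left _ _).trans hJ)
  have hJ3 : 1 ≤ J := (le_max_right _ _).trans hJ
  have hJR : (1 : ℝ) ≤ J := by exact_mod_cast hJ3
  have hJK : (K : ℝ) ≤ J := by exact_mod_cast hJ2
  have h7 := main J (by omega)
  rw [dist_zero_right, Real.norm_of_nonneg (by positivity), div_lt_iff₀ (by linarith)]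
  have h8 : (j0 : ℝ) < e / 2 * J := by
    rw [div_lt_iff₀ he] at hK
    nlinarith
  have h9 : 16 * l * η * J ≤ e / 2 * J := mul_le_mul_of_nonneg_right hηe (by linarith)
  linarith

end DY17

theorem p_DY17 (h : T_CH) : T_DY := DY17.p_DY17 h

end Pool.SieveG
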