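import Mathlib
import Pool.Agent.Work.MP_0d108e_h29.Interface2

/-!
# The interval sieve function g (MP_0d108e_nt): the quantitative form of a jump
-/

namespace Pool.SieveG

open Filter Topology

/-- Iwaniec's lower bound `W y ≥ c y log log y / (log y)^2` for some `c > 0` -/
def Iwaniec : Prop := ∃ c : ℝ, 0 < c ∧
  ∀ᶠ y in atTop, c * y * Real.log (Real.log y) ≤ (W y : ℝ) * Real.log y ^ 2

/-- IW: the quantitative form implies the weak form -/
def T_IW : Prop := Iwaniec → Iw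

/-- EQ: a jump of `g` by the factor `1 + ε` between `u` and `(1 + δ) u` needs
`δ ≥ κ ε (g u / u) (log log u / log u)` -/
def T_EQ : Prop := Iwaniec → ∃ κ : ℝ, 0 < κ ∧ ∀ ε : ℝ, 0 < ε → ε < 1 → ∀ᶠ u in atTop,
  ∀ δ : ℝ, 0 < δ → δ ≤ 1 / 4 → (1 + ε) * g u < g ((1 + δ) * u) →
    κ * ε * g u * Real.log (Real.log u) ≤ δ * u * Real.log u

end Pool.SieveG
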