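import Mathlib
import Pool.Agent.Work.MP_0d108e_h29.Interface3

/-!
# The interval sieve function g (MP_0d108e_nt): the unconditional form
-/

namespace Pool.SieveG

open Filter Topology

/-- `i^2 W(2^i) / 2^i` -/
noncomputable def rr (i : ℕ) : ℝ := (W ((2 : ℝ) ^ i) : ℝ) * (i : ℝ) ^ 2 / (2 : ℝ) ^ i

/-- DBL: doubling -/
def T_DBL : Prop := (∀ i, 0 ≤ rr i ∧ rr i ≤ 2 * (i : ℝ) ^ 2) ∧
  ∃ C : ℝ, 0 < C ∧ ∃ i0 : ℕ, ∀ i : ℕ, i0 ≤ i → rr i - C ≤ rr (i + 1)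

open Classical in
/-- SEQ: counting of upward jumps in a sequence that falls by at most `C` per step -/
def T_SEQ : Prop := ∀ r : ℕ → ℝ, (∀ i, 0 ≤ r i ∧ r i ≤ 2 * (i : ℝ) ^ 2) →
  (∃ C : ℝ, 0 < C ∧ ∃ i0 : ℕ, ∀ i : ℕ, i0 ≤ i → r i - C ≤ r (i + 1)) →
  ∀ (l : ℕ) (κ : ℝ), 0 < κ → ∃ K1 : ℝ, 0 < K1 ∧ ∀ᶠ J : ℕ in atTop,
    (((Finset.range J).filter (fun j : ℕ => K1 ≤ r (j + 1) ∧
      ∃ m : ℕ, j ≤ m + l ∧ m ≤ j ∧ r m ≤ Real.exp (-2) * r (j + 1))).card : ℝ) ≤ κ * J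

/-- LOC: a jump at a scale where `W` is not too small is a jump of the sequence `rr` -/
def T_LOC : Prop := ∀ ε : ℝ, 0 < ε → ε < 1 → ∃ δ : ℝ, 0 < δ ∧ ∃ (l j0 : ℕ) (K0 : ℝ), 0 < K0 ∧
  ∀ j : ℕ, j0 ≤ j → ∀ K : ℝ, K0 ≤ K → ∀ y z : ℝ, (2 : ℝ) ^ j ≤ y → y < 2 ^ (j + 1) →
    (1 + ε) * y ≤ z → z ≤ 2 * y → K * y ≤ (W y : ℝ) * Real.log y ^ 2 →
    (W z : ℝ) * Real.log z ≤ (1 + δ) * ((W y : ℝ) * Real.log y) →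
    K / 8 ≤ rr (j + 1) ∧ ∃ m : ℕ, j ≤ m + l ∧ m ≤ j ∧ rr m ≤ Real.exp (-2) * rr (j + 1)

open Classical in
/-- UU: regularity of `W y log y` at almost all scales where `W` is not too small -/
def T_UU : Prop := ∀ ε : ℝ, 0 < ε → ε < 1 → ∃ δ : ℝ, 0 < δ ∧ ∀ κ : ℝ, 0 < κ →
  ∃ K : ℝ, 0 < K ∧ ∀ᶠ J : ℕ in atTop,
    (((Finset.range J).filter (fun j : ℕ => ∃ y z : ℝ, (2 : ℝ) ^ j ≤ y ∧ y < 2 ^ (j + 1) ∧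
      (1 + ε) * y ≤ z ∧ z ≤ 2 * y ∧ K * y ≤ (W y : ℝ) * Real.log y ^ 2 ∧
      (W z : ℝ) * Real.log z ≤ (1 + δ) * ((W y : ℝ) * Real.log y))).card : ℝ) ≤ κ * J

end Pool.SieveG
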